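import Mathlib

/-! Subgroups of small index in a symmetric group: if `H ≤ Sym(Ω)`, `|Ω| = m ≥ 25`, has index less
than `(m-1 choose 3)`, then `H` contains all 3-cycles on a subset of size at least `m - 2`. -/

namespace Pool.Agent.H522R2.SmallIndex

open Equiv

variable {Ω : Type*} [DecidableEq Ω]

theorem papply_inv (e : Perm Ω) (x : Ω) : e (e⁻¹ x) = x := e.apply_symm_apply x

theorem pinv_apply (e : Perm Ω) (x : Ω) : e⁻¹ (e x) = x := e.symm_apply_apply x

/-- the cycle `x → y → z → x` -/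
def cyc (x y z : Ω) : Perm Ω := swap x y * swap y z

theorem cyc_apply_of_ne {x y z w : Ω} (h1 : w ≠ x) (h2 : w ≠ y) (h3 : w ≠ z) :
    cyc x y z w = w := by
  simp [cyc, swap_apply_of_ne_of_ne h2 h3, swap_apply_of_ne_of_ne h1 h2]

theorem cyc_apply_fst {x y z : Ω} (hxy : x ≠ y) (hxz : x ≠ z) : cyc x y z x = y := by
  simp [cyc, swap_apply_of_ne_of_ne hxy hxz]

theorem cyc_apply_snd {x y z : Ω} (hxz : x ≠ z) (hyz : y ≠ z) : cyc x y z y = z := by
  simp [cyc, swap_apply_of_ne_of_ne hxz.symm hyz.symm]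

theorem cyc_apply_trd {x y z : Ω} : cyc x y z z = x := by
  simp [cyc]

theorem cyc_rot {x y z : Ω} (hxy : x ≠ y) (hxz : x ≠ z) (hyz : y ≠ z) :
    cyc x y z = cyc y z x := by
  ext w
  by_cases h1 : w = x
  · subst h1; rw [cyc_apply_fst hxy hxz, cyc_apply_trd]
  by_cases h2 : w = y
  · subst h2; rw [cyc_apply_snd hxz hyz, cyc_apply_fst hyz hxy.symm]
  by_cases h3 : w = z
  · subst h3; rw [cyc_apply_trd, cyc_apply_snd hxy.symm hxz.symm]
  rw [cyc_apply_of_ne h1 h2 h3, cyc_apply_of_ne h2 h3 h1]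

theorem cyc_inv {x y z : Ω} (hxy : x ≠ y) (hxz : x ≠ z) (hyz : y ≠ z) :
    (cyc x y z)⁻¹ = cyc y x z := by
  rw [inv_eq_iff_mul_eq_one]
  ext w
  simp only [Perm.mul_apply, Perm.one_apply]
  by_cases h1 : w = x
  · subst h1; rw [cyc_apply_snd hyz hxz, cyc_apply_trd]
  by_cases h2 : w = y
  · subst h2; rw [cyc_apply_fst hxy.symm hyz, cyc_apply_fst hxy hxz]
  by_cases h3 : w = z
  · subst h3; rw [cyc_apply_trd, cyc_apply_snd hxz hyz]
  rw [cyc_apply_of_ne h2 h1 h3, cyc_apply_of_ne h1 h2 h3]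

theorem cyc_conj (g : Perm Ω) (x y z : Ω) : g * cyc x y z * g⁻¹ = cyc (g x) (g y) (g z) := by
  have h : ∀ a b : Ω, swap (g a) (g b) = g * swap a b * g⁻¹ := fun a b => swap_apply_apply g a b
  rw [cyc, cyc, h, h]; group

theorem cyc_share {x y z w : Ω} (hxy : x ≠ y) (hxz : x ≠ z) (hyz : y ≠ z) (hxw : x ≠ w)
    (hyw : y ≠ w) (hzw : z ≠ w) : cyc x y z * (cyc x y w)⁻¹ = cyc x w z := by
  rw [cyc_inv hxy hxw hyw]
  ext v
  simp only [Perm.mul_apply]
  by_cases h1 : v = x
  · subst h1; rw [cyc_apply_snd hyw hxw, cyc_apply_of_ne hxw.symm hyw.symm hzw.symm,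
      cyc_apply_fst hxw hxz]
  by_cases h2 : v = y
  · subst h2; rw [cyc_apply_fst hxy.symm hyw, cyc_apply_fst hxy hxz,
      cyc_apply_of_ne hxy.symm hyw hyz]
  by_cases h3 : v = w
  · subst h3; rw [cyc_apply_trd, cyc_apply_snd hxz hyz, cyc_apply_snd hxz hzw.symm]
  by_cases h4 : v = z
  · subst h4; rw [cyc_apply_of_ne h2 h1 h3, cyc_apply_trd, cyc_apply_trd]
  rw [cyc_apply_of_ne h2 h1 h3, cyc_apply_of_ne h1 h2 h4, cyc_apply_of_ne h1 h3 h4]

/-- `x, y, z` are distinct and the cycle on them lies in `H` -/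
def Good (H : Subgroup (Perm Ω)) (x y z : Ω) : Prop :=
  x ≠ y ∧ x ≠ z ∧ y ≠ z ∧ cyc x y z ∈ H

variable {H : Subgroup (Perm Ω)}

theorem Good.rot {x y z : Ω} (h : Good H x y z) : Good H y z x := by
  obtain ⟨h1, h2, h3, h4⟩ := h
  exact ⟨h3, h1.symm, h2.symm, by rwa [← cyc_rot h1 h2 h3]⟩

theorem Good.inv {x y z : Ω} (h : Good H x y z) : Good H y x z := by
  obtain ⟨h1, h2, h3, h4⟩ := h
  exact ⟨h1.symm, h3, h2, by rw [← cyc_inv h1 h2 h3]; exact H.inv_mem h4⟩

theorem Good.conj {x y z : Ω} (h : Good H x y z) {g : Perm Ω} (hg : g ∈ H) :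
    Good H (g x) (g y) (g z) := by
  obtain ⟨h1, h2, h3, h4⟩ := h
  refine ⟨fun h => h1 (g.injective h), fun h => h2 (g.injective h), fun h => h3 (g.injective h), ?_⟩
  rw [← cyc_conj]
  exact H.mul_mem (H.mul_mem hg h4) (H.inv_mem hg)

theorem Good.share {x y z w : Ω} (h : Good H x y z) (h' : Good H x y w) (hzw : z ≠ w) :
    Good H x w z := by
  obtain ⟨h1, h2, h3, h4⟩ := h
  obtain ⟨_, g2, g3, g4⟩ := h'
  refine ⟨g2, h2, hzw.symm, ?_⟩
  rw [← cyc_share h1 h2 h3 g2 g3 hzw]
  exact H.mul_mem h4 (H.inv_mem g4)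

/-- neighbours of `d` -/
def Nb (H : Subgroup (Perm Ω)) (d z : Ω) : Prop := ∃ z', Good H d z z'

theorem good_of_nb {d z w : Ω} (hz : Nb H d z) (hw : Nb H d w) (hzw : z ≠ w) : Good H d z w := by
  obtain ⟨a, ha⟩ := hz
  obtain ⟨b, hb⟩ := hw
  by_cases h1 : a = w
  · rwa [← h1]
  by_cases h2 : b = z
  · subst h2; exact hb.inv.rot
  -- in all remaining cases `cyc z a w ∈ H`
  suffices h : Good H z a w by
    have h3 : Good H z a d := ha.rot
    have h4 : Good H z d w := h.share h3 (fun h => hb.1 h.symm)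
    exact h4.inv
  by_cases h3 : a = b
  · subst h3
    have e1 : Good H a d z := ha.rot.rot
    have e2 : Good H a d w := hb.rot.rot
    have e3 : Good H a w z := e1.share e2 hzw
    exact e3.rot.rot
  · have e1 := ha.conj hb.2.2.2
    rw [cyc_apply_fst hb.1 hb.2.1, cyc_apply_of_ne ha.1.symm hzw (Ne.symm h2),
      cyc_apply_of_ne ha.2.1.symm h1 h3] at e1
    exact e1.rot

/-- the class of `d` -/
def Cl (H : Subgroup (Perm Ω)) (d z : Ω) : Prop := z = d ∨ Nb H d z

theorem good_of_cl {d x y z : Ω} (hx : Cl H d x) (hy : Cl H d y) (hz : Cl H d z)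
    (hxy : x ≠ y) (hxz : x ≠ z) (hyz : y ≠ z) : Good H x y z := by
  rcases hx with rfl | hx
  · rcases hy with rfl | hy
    · exact absurd rfl hxy
    rcases hz with rfl | hz
    · exact absurd rfl hxz
    exact good_of_nb hy hz hyz
  rcases hy with rfl | hy
  · rcases hz with rfl | hz
    · exact absurd rfl hyz
    exact (good_of_nb hz hx hxz.symm).rot.rot
  rcases hz with rfl | hz
  · exact (good_of_nb hx hy hxy).rot
  have e1 : Good H y d x := (good_of_nb hx hy hxy).rot.rot
  have e2 : Good H y d z := (good_of_nb hz hy hyz.symm).rot.rot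
  exact (e1.share e2 hxz).rot.rot

theorem cl_symm {d w : Ω} (h : Cl H d w) : Cl H w d := by
  rcases h with rfl | ⟨w', h⟩
  · exact Or.inl rfl
  · exact Or.inr ⟨w', h.inv⟩

theorem cl_trans {d w y : Ω} (h : Cl H d w) (h' : Cl H w y) : Cl H d y := by
  have hd := cl_symm h
  by_cases h1 : y = d
  · exact Or.inl h1
  by_cases h2 : w = d
  · rwa [← h2]
  by_cases h3 : y = w
  · rwa [h3]
  exact Or.inr ⟨w, good_of_cl hd h' (Or.inl rfl) (Ne.symm h1) (Ne.symm h2) h3⟩

theorem cl_conj {d w : Ω} (h : Cl H d w) {g : Perm Ω} (hg : g ∈ H) : Cl H (g d) (g w) := by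
  rcases h with rfl | ⟨w', h⟩
  · exact Or.inl rfl
  · exact Or.inr ⟨g w', h.conj hg⟩

/-! ### Counting -/

section Counting

variable [Fintype Ω]

/-- no nontrivial element of `H` is supported in `Δ` -/
def Triv (H : Subgroup (Perm Ω)) (Δ : Finset Ω) : Prop :=
  ∀ h ∈ H, (∀ x, x ∉ Δ → h x = x) → h = 1

theorem fact_le_index (H : Subgroup (Perm Ω)) (Δ : Finset Ω) (h : Triv H Δ) :
    Δ.card.factorial ≤ H.index := by
  have hinj : Function.Injective (fun π : Perm {x // x ∈ Δ} =>
      ((Perm.ofSubtype π : Perm Ω) : Perm Ω ⧸ H)) := by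
    intro π π' hπ
    have h0 := QuotientGroup.eq.1 hπ
    rw [← map_inv, ← map_mul] at h0
    have h1 := h _ h0 (fun x hx => Perm.ofSubtype_apply_of_not_mem _ hx)
    rw [← map_one (Perm.ofSubtype : Perm {x // x ∈ Δ} →* Perm Ω)] at h1
    have h2 := Perm.ofSubtype_injective h1
    exact (inv_mul_eq_one.1 h2)
  have h1 := Nat.card_le_card_of_injective _ hinj
  rw [Nat.card_perm, Nat.card_eq_fintype_card, Fintype.card_coe] at h1
  exact h1

theorem comm_eq_cyc (x y : Perm Ω) (c : Ω) (hxy : ∀ z, x z ≠ z → y z ≠ z → z = c)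
    (hx : x c ≠ c) (hy : y c ≠ c) : x * y * x⁻¹ * y⁻¹ = cyc (y c) c (x c) := by
  have fx : ∀ z, z ≠ c → y z ≠ z → x z = z := by
    intro z hz h; by_contra h'; exact hz (hxy z h' h)
  have fy : ∀ z, z ≠ c → x z ≠ z → y z = z := by
    intro z hz h; by_contra h'; exact hz (hxy z h h')
  have ix : ∀ z, x z = z → x⁻¹ z = z := by
    intro z h; rw [Perm.inv_eq_iff_eq]; exact h.symm
  have iy : ∀ z, y z = z → y⁻¹ z = z := by
    intro z h; rw [Perm.inv_eq_iff_eq]; exact h.symm
  have hxc : y (x c) = x c := fy _ hx (fun h => hx (x.injective h))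
  have hyc : x (y c) = y c := fx _ hy (fun h => hy (y.injective h))
  have hne : y c ≠ x c := by
    intro h
    rw [← h] at hxc
    exact hy (y.injective hxc)
  ext z
  simp only [Perm.mul_apply]
  by_cases h1 : z = y c
  · subst h1
    rw [cyc_apply_fst hy hne, pinv_apply]
    have e1 : x⁻¹ c ≠ c := fun h => hx (by
      have := congrArg x h
      rw [papply_inv] at this; exact this.symm)
    have e2 : y (x⁻¹ c) = x⁻¹ c := fy _ e1 (by rw [papply_inv]; exact e1.symm)
    rw [e2, papply_inv]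
  by_cases h2 : z = c
  · subst h2
    rw [cyc_apply_snd hne hx.symm]
    have e1 : y⁻¹ z ≠ z := fun h => hy (by
      have := congrArg y h
      rw [papply_inv] at this; exact this.symm)
    have e2 : x (y⁻¹ z) = y⁻¹ z := fx _ e1 (by rw [papply_inv]; exact e1.symm)
    rw [ix _ e2, papply_inv]
  by_cases h3 : z = x c
  · subst h3
    rw [cyc_apply_trd, iy _ hxc, pinv_apply, hyc]
  rw [cyc_apply_of_ne h1 h2 h3]
  by_cases h4 : y z = z
  · rw [iy _ h4]
    by_cases h5 : x z = z
    · rw [ix _ h5, h4, h5]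
    · have e1 : x⁻¹ z ≠ c := fun h => h3 (by rw [← h, papply_inv])
      have e2 : x (x⁻¹ z) ≠ x⁻¹ z := by
        rw [papply_inv]; intro h
        exact h5 (by rw [Perm.eq_inv_iff_eq] at h; exact h)
      rw [fy _ e1 e2, papply_inv]
  · have e1 : y⁻¹ z ≠ c := fun h => h1 (by rw [← h, papply_inv])
    have e2 : y (y⁻¹ z) ≠ y⁻¹ z := by
      rw [papply_inv]; intro h
      exact h4 (by rw [Perm.eq_inv_iff_eq] at h; exact h)
    rw [ix _ (fx _ e1 e2), papply_inv, fx _ h2 h4]

/-- the class of `d` as a finset -/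
noncomputable def ClF (H : Subgroup (Perm Ω)) (d : Ω) : Finset Ω := by
  classical
  exact Finset.univ.filter (fun z => Cl H d z)

theorem mem_ClF (H : Subgroup (Perm Ω)) (d z : Ω) : z ∈ ClF H d ↔ Cl H d z := by
  simp [ClF]

/-- there are two small sets covering everything outside the classes of the first one -/
theorem exists_cover (H : Subgroup (Perm Ω)) : ∃ Δ E : Finset Ω,
    Δ.card.factorial ≤ H.index ∧ E.card.factorial ≤ H.index ∧
    ∀ c, c ∉ Δ → c ∉ E → ∃ d ∈ Δ, Cl H d c := by
  classical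
  obtain ⟨Δ, hΔ, hmax⟩ := Finset.exists_max_image
    (Finset.univ.filter (fun Δ : Finset Ω => Triv H Δ)) Finset.card
    ⟨∅, by
      simp only [Finset.mem_filter, Finset.mem_univ, true_and]
      intro h _ hx
      ext x
      simpa using hx x (by simp)⟩
  simp only [Finset.mem_filter, Finset.mem_univ, true_and] at hΔ hmax
  let E : Finset Ω := Finset.univ.filter (fun c => c ∉ Δ ∧
    ∀ x ∈ H, (∀ z ∈ Δ, x z = z) → x c = c)
  have hE : Triv H E := by
    intro h hh hs
    ext x
    by_cases hx : x ∈ E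
    · have hx' := hx
      simp only [E, Finset.mem_filter, Finset.mem_univ, true_and] at hx'
      rw [Perm.one_apply]
      apply hx'.2 h hh
      intro z hz
      apply hs
      simp only [E, Finset.mem_filter, Finset.mem_univ, true_and]
      exact fun h => h.1 hz
    · exact hs x hx
  refine ⟨Δ, E, fact_le_index H Δ hΔ, fact_le_index H E hE, ?_⟩
  intro c hc hcE
  -- an element supported on `insert c Δ`
  have hnt : ¬ Triv H (insert c Δ) := by
    intro h
    have := hmax _ h
    rw [Finset.card_insert_of_notMem hc] at this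
    omega
  unfold Triv at hnt
  push Not at hnt
  obtain ⟨y, hyH, hys, hy1⟩ := hnt
  have hyc : y c ≠ c := by
    intro h
    apply hy1
    apply hΔ y hyH
    intro x hx
    by_cases hxc : x = c
    · rw [hxc, h]
    · exact hys x (by simp [hxc, hx])
  have hycΔ : y c ∈ Δ := by
    by_contra h
    have : y (y c) = y c := hys _ (by simp [hyc, h])
    exact hyc (y.injective this)
  -- an element fixing `Δ` pointwise and moving `c`
  have : ∃ x ∈ H, (∀ z ∈ Δ, x z = z) ∧ x c ≠ c := by
    by_contra h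
    push Not at h
    apply hcE
    simp only [E, Finset.mem_filter, Finset.mem_univ, true_and]
    exact ⟨hc, h⟩
  obtain ⟨x, hxH, hxs, hxc⟩ := this
  refine ⟨y c, hycΔ, Or.inr ⟨x c, ?_⟩⟩
  have hcomm := comm_eq_cyc x y c (by
    intro z h1 h2
    by_contra hzc
    have h3 : z ∉ Δ := fun h => h1 (hxs z h)
    exact h2 (hys z (by simp [hzc, h3]))) hxc hyc
  have hxcΔ : x c ∉ Δ := by
    intro h
    have := hxs _ h
    exact hxc (x.injective this)
  refine ⟨hyc, ?_, hxc.symm, ?_⟩
  · intro h; rw [← h] at hxcΔ; exact hxcΔ hycΔ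
  · rw [← hcomm]
    exact H.mul_mem (H.mul_mem (H.mul_mem hxH hyH) (H.inv_mem hxH)) (H.inv_mem hyH)

theorem choose_le_index (H : Subgroup (Perm Ω)) (d : Ω) :
    (Fintype.card Ω - 1).choose ((ClF H d).card - 1) ≤ H.index := by
  classical
  set C := ClF H d with hC
  have hdC : d ∈ C := by rw [hC, mem_ClF]; exact Or.inl rfl
  have hpos : 1 ≤ C.card := Finset.card_pos.2 ⟨d, hdC⟩
  let 𝒮 := (Finset.univ.erase d).powersetCard (C.card - 1)
  have h𝒮 : 𝒮.card = (Fintype.card Ω - 1).choose (C.card - 1) := by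
    simp only [𝒮]
    rw [Finset.card_powersetCard, Finset.card_erase_of_mem (Finset.mem_univ _), Finset.card_univ]
  have hcardS : ∀ S : 𝒮, (insert d S.1).card = C.card := by
    intro S
    have h1 := Finset.mem_powersetCard.1 S.2
    have h2 : d ∉ S.1 := fun h => by simpa using h1.1 h
    rw [Finset.card_insert_of_notMem h2, h1.2]; omega
  let e : ∀ S : 𝒮, {x // x ∈ C} ≃ {x // x ∈ insert d S.1} := fun S =>
    Finset.equivOfCardEq (hcardS S).symm
  let π : 𝒮 → Perm Ω := fun S => (e S).extendSubtype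
  have hπ1 : ∀ S x, x ∈ C → π S x ∈ insert d S.1 := by
    intro S x hx
    exact (e S).extendSubtype_mem x hx
  have hπ2 : ∀ S y, y ∈ insert d S.1 → ∃ x ∈ C, π S x = y := by
    intro S y hy
    refine ⟨((e S).symm ⟨y, hy⟩).1, ((e S).symm ⟨y, hy⟩).2, ?_⟩
    simp only [π]
    rw [Equiv.extendSubtype_apply_of_mem _ _ ((e S).symm ⟨y, hy⟩).2]
    simp
  have hinj : Function.Injective (fun S : 𝒮 => ((π S : Perm Ω) : Perm Ω ⧸ H)) := by
    intro S S' hSS
    have h0 : (π S)⁻¹ * π S' ∈ H := QuotientGroup.eq.1 hSS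
    set h := (π S)⁻¹ * π S' with hh
    have hπ : ∀ x, π S' x = π S (h x) := by intro x; simp [hh]
    -- the image of the class under `h` meets the class
    obtain ⟨x, hxC, hx⟩ := hπ2 S' d (Finset.mem_insert_self _ _)
    obtain ⟨x', hxC', hx'⟩ := hπ2 S d (Finset.mem_insert_self _ _)
    have h1 : h x = x' := by
      apply (π S).injective
      rw [← hπ, hx, hx']
    rw [hC, mem_ClF] at hxC hxC'
    -- hence `h` preserves the class
    have h2 : ∀ z, z ∈ C → h z ∈ C := by
      intro z hz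
      rw [hC, mem_ClF] at hz ⊢
      have e1 : Cl H x z := cl_trans (cl_symm hxC) hz
      have e2 : Cl H (h x) (h z) := cl_conj e1 h0
      rw [h1] at e2
      exact cl_trans hxC' e2
    have h3 : ∀ S₁ S₂ : 𝒮, (∀ y ∈ insert d S₁.1, y ∈ insert d S₂.1) → S₁.1 ⊆ S₂.1 := by
      intro S₁ S₂ hy z hz
      have h1 := Finset.mem_powersetCard.1 S₁.2
      have h2 : d ∉ S₁.1 := fun h => by simpa using h1.1 h
      have h4 := hy z (Finset.mem_insert_of_mem hz)
      rcases Finset.mem_insert.1 h4 with h5 | h5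
      · exact absurd (h5 ▸ hz) h2
      · exact h5
    have h4 : S'.1 ⊆ S.1 := by
      apply h3
      intro y hy
      obtain ⟨z, hz, rfl⟩ := hπ2 S' y hy
      rw [hπ]
      exact hπ1 S _ (h2 z hz)
    have h5 : S'.1 = S.1 := by
      apply Finset.eq_of_subset_of_card_le h4
      rw [(Finset.mem_powersetCard.1 S.2).2, (Finset.mem_powersetCard.1 S'.2).2]
    exact Subtype.ext h5.symm
  have h1 := Nat.card_le_card_of_injective _ hinj
  rw [Nat.card_eq_fintype_card, Fintype.card_coe, h𝒮] at h1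
  exact h1

theorem choose_three_le {n k : ℕ} (h3 : 3 ≤ k) (hk : k + 3 ≤ n) : n.choose 3 ≤ n.choose k := by
  have key : ∀ j, 3 + j ≤ n / 2 → n.choose 3 ≤ n.choose (3 + j) := by
    intro j
    induction j with
    | zero => intro _; exact le_refl _
    | succ j ih =>
      intro hj
      exact (ih (by omega)).trans (Nat.choose_le_succ_of_lt_half_left (by omega))
  rcases Nat.lt_or_ge (n / 2) k with h | h
  · rw [← Nat.choose_symm (n := n) (k := k) (by omega)]
    have := key (n - k - 3) (by omega)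
    rwa [show 3 + (n - k - 3) = n - k by omega] at this
  · have := key (k - 3) (by omega)
    rwa [show 3 + (k - 3) = k by omega] at this

theorem choose_le_fact {d : ℕ} (hd : 7 ≤ d) : (4 * d - 1).choose 3 ≤ d.factorial := by
  induction d, hd using Nat.le_induction with
  | base => decide
  | succ d hd ih =>
    have h1 : (4 * (d + 1) - 1).choose 3 ≤ 8 * (4 * d - 1).choose 3 := by
      obtain ⟨e, rfl⟩ : ∃ e, d = e + 7 := ⟨d - 7, by omega⟩
      have a1 : 4 * (e + 7 + 1) - 1 = (4 * e + 28) + 3 := by omega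
      have a2 : 4 * (e + 7) - 1 = (4 * e + 24) + 3 := by omega
      rw [a1, a2]
      have b1 := Nat.add_one_mul_choose_eq (4 * e + 30) 2
      have b2 := Nat.add_one_mul_choose_eq (4 * e + 26) 2
      have b3 := Nat.add_one_mul_choose_eq (4 * e + 29) 1
      have b4 := Nat.add_one_mul_choose_eq (4 * e + 25) 1
      simp only [Nat.choose_one_right, Nat.succ_eq_add_one] at b1 b2 b3 b4
      simp only [show (4 * e + 28) + 3 = 4 * e + 30 + 1 by ring,
        show (4 * e + 24) + 3 = 4 * e + 26 + 1 by ring]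
      norm_num at b1 b2 b3 b4 ⊢
      set X := (4 * e + 30 + 1).choose 3
      set Y := (4 * e + 26 + 1).choose 3
      set U := (4 * e + 29 + 1).choose 2
      set W := (4 * e + 25 + 1).choose 2
      have x1 : 6 * X = (4 * e + 31) * ((4 * e + 30) * (4 * e + 29)) := by
        calc 6 * X = 2 * (X * 3) := by ring
          _ = 2 * ((4 * e + 30 + 1) * U) := by rw [b1]
          _ = (4 * e + 31) * (U * 2) := by ring
          _ = _ := by rw [← b3]
      have x2 : 6 * Y = (4 * e + 27) * ((4 * e + 26) * (4 * e + 25)) := by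
        calc 6 * Y = 2 * (Y * 3) := by ring
          _ = 2 * ((4 * e + 26 + 1) * W) := by rw [b2]
          _ = (4 * e + 27) * (W * 2) := by ring
          _ = _ := by rw [← b4]
      have x3 : (4 * e + 31) * ((4 * e + 30) * (4 * e + 29)) ≤
          8 * ((4 * e + 27) * ((4 * e + 26) * (4 * e + 25))) := by
        calc (4 * e + 31) * ((4 * e + 30) * (4 * e + 29))
            ≤ (2 * (4 * e + 27)) * ((2 * (4 * e + 26)) * (2 * (4 * e + 25))) := by
              apply Nat.mul_le_mul (by omega)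
              exact Nat.mul_le_mul (by omega) (by omega)
          _ = _ := by ring
      omega
    calc _ ≤ _ := h1
      _ ≤ 8 * d.factorial := Nat.mul_le_mul_left _ ih
      _ ≤ (d + 1) * d.factorial := Nat.mul_le_mul_right _ (by omega)
      _ = _ := (Nat.factorial_succ d).symm

/-- Subgroups of small index: one of the classes is very large. -/
theorem small_index_cl (H : Subgroup (Perm Ω)) (hm : 25 ≤ Fintype.card Ω)
    (hH : H.index < (Fintype.card Ω - 1).choose 3) :
    ∃ d : Ω, Fintype.card Ω ≤ (ClF H d).card + 2 := by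
  classical
  obtain ⟨Δ, E, hΔ, hE, hcov⟩ := exists_cover H
  set m := Fintype.card Ω with hmdef
  have small : ∀ d : ℕ, d.factorial ≤ H.index → 4 * d < m := by
    intro d hd
    by_contra hcon
    have h1 : 7 ≤ d := by omega
    have h2 := choose_le_fact h1
    have h3 : (m - 1).choose 3 ≤ (4 * d - 1).choose 3 := Nat.choose_le_choose 3 (by omega)
    omega
  have h1 := small _ hΔ
  have h2 := small _ hE
  have h3 : ∃ d ∈ Δ, 4 ≤ (ClF H d).card := by
    by_contra hcon
    push Not at hcon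
    have hsub : (Finset.univ : Finset Ω) ⊆ Δ ∪ E ∪ Δ.biUnion (fun d => (ClF H d).erase d) := by
      intro c _
      by_cases hc : c ∈ Δ
      · simp [hc]
      by_cases hcE : c ∈ E
      · simp [hcE]
      obtain ⟨d, hd, hdc⟩ := hcov c hc hcE
      apply Finset.mem_union_right
      rw [Finset.mem_biUnion]
      refine ⟨d, hd, ?_⟩
      rw [Finset.mem_erase, mem_ClF]
      exact ⟨fun h => hc (h ▸ hd), hdc⟩
    have hcard := Finset.card_le_card hsub
    rw [Finset.card_univ] at hcard
    have e1 := Finset.card_union_le (Δ ∪ E) (Δ.biUnion (fun d => (ClF H d).erase d))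
    have e2 := Finset.card_union_le Δ E
    have e3 : (Δ.biUnion (fun d => (ClF H d).erase d)).card ≤ Δ.card * 2 := by
      apply Finset.card_biUnion_le_card_mul
      intro d hd
      have e4 : d ∈ ClF H d := by rw [mem_ClF]; exact Or.inl rfl
      rw [Finset.card_erase_of_mem e4]
      have := hcon d hd
      omega
    omega
  obtain ⟨d, _, hd4⟩ := h3
  refine ⟨d, ?_⟩
  by_contra hcon
  have e1 := choose_le_index H d
  rw [← hmdef] at e1
  have e2 : (m - 1).choose 3 ≤ (m - 1).choose ((ClF H d).card - 1) :=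
    choose_three_le (by omega) (by omega)
  omega

/-- Subgroups of small index. -/
theorem small_index (H : Subgroup (Perm Ω)) (hm : 25 ≤ Fintype.card Ω)
    (hH : H.index < (Fintype.card Ω - 1).choose 3) :
    ∃ C : Finset Ω, Fintype.card Ω ≤ C.card + 2 ∧
      ∀ x ∈ C, ∀ y ∈ C, ∀ z ∈ C, x ≠ y → x ≠ z → y ≠ z → cyc x y z ∈ H := by
  obtain ⟨d, hd⟩ := small_index_cl H hm hH
  refine ⟨ClF H d, hd, ?_⟩
  intro x hx y hy z hz h1 h2 h3
  rw [mem_ClF] at hx hy hz
  exact (good_of_cl hx hy hz h1 h2 h3).2.2.2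

/-- A subgroup of index less than `|Ω| - 1` contains all 3-cycles. -/
theorem very_small_index (H : Subgroup (Perm Ω)) (hm : 25 ≤ Fintype.card Ω)
    (hH : H.index < Fintype.card Ω - 1) (x y z : Ω) (h1 : x ≠ y) (h2 : x ≠ z) (h3 : y ≠ z) :
    cyc x y z ∈ H := by
  set n := Fintype.card Ω with hn
  have e0 : n - 1 ≤ (n - 1).choose 3 := by
    calc n - 1 = (n - 1).choose 1 := (Nat.choose_one_right _).symm
      _ ≤ (n - 1).choose 2 := Nat.choose_le_succ_of_lt_half_left (by omega)
      _ ≤ (n - 1).choose 3 := Nat.choose_le_succ_of_lt_half_left (by omega)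
  obtain ⟨d, hd⟩ := small_index_cl H hm (hH.trans_le e0)
  have e1 := choose_le_index H d
  rw [← hn] at e1 hd
  have e2 : (ClF H d).card ≤ n := by rw [hn]; exact Finset.card_le_univ _
  have e3 : (ClF H d).card = n := by
    by_contra hne
    have e4 : (ClF H d).card = n - 1 ∨ (ClF H d).card = n - 2 := by omega
    rcases e4 with e4 | e4
    · rw [e4] at e1
      have : (n - 1).choose (n - 1 - 1) = n - 1 := by
        have := Nat.choose_symm (n := n - 1) (k := 1) (by omega)
        rw [Nat.choose_one_right] at this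
        exact this
      omega
    · rw [e4] at e1
      have e5 : (n - 1).choose (n - 2 - 1) = (n - 1).choose 2 := by
        have := Nat.choose_symm (n := n - 1) (k := 2) (by omega)
        rw [show n - 1 - 2 = n - 2 - 1 by omega] at this
        exact this
      have e6 : n - 1 ≤ (n - 1).choose 2 := by
        calc n - 1 = (n - 1).choose 1 := (Nat.choose_one_right _).symm
          _ ≤ (n - 1).choose 2 := Nat.choose_le_succ_of_lt_half_left (by omega)
      omega
  have e4 : ClF H d = Finset.univ := by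
    rw [← Finset.card_eq_iff_eq_univ, e3]
  have hx : Cl H d x := by rw [← mem_ClF, e4]; exact Finset.mem_univ _
  have hy : Cl H d y := by rw [← mem_ClF, e4]; exact Finset.mem_univ _
  have hz : Cl H d z := by rw [← mem_ClF, e4]; exact Finset.mem_univ _
  exact (good_of_cl hx hy hz h1 h2 h3).2.2.2

end Counting

end Pool.Agent.H522R2.SmallIndex
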