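import Mathlib
import Pool.Agent.H522R2.SmallIndex

namespace Pool.Agent.H522R2

open Equiv
open Pool.Agent.H522R2.SmallIndex

/-- A bilinear algorithm with `r` multiplications for the product of two `m × m` matrices over `F`:
the `p`-th multiplication is `(∑ u_p(i,k) a_ik) * (∑ v_p(k,j) b_kj)` and the entries of `A * B` are
the linear combinations of the results with coefficients `w_p(i,j)`. -/
def IsBilinearAlg {F : Type*} [Field F] {m r : ℕ} (u v w : Fin r → Matrix (Fin m) (Fin m) F) :
    Prop :=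
  ∀ (A B : Matrix (Fin m) (Fin m) F) (i j : Fin m),
    (A * B) i j = ∑ p, w p i j * ((∑ x, ∑ y, u p x y * A x y) * (∑ x, ∑ y, v p x y * B x y))

namespace Bilinear

variable {F : Type*} [Field F] {m r : ℕ} {u v w : Fin r → Matrix (Fin m) (Fin m) F}

/-- Brent equations -/
theorem brent (h : IsBilinearAlg u v w) (i k k' j i' j' : Fin m) :
    ∑ p, u p i k * v p k' j * w p i' j' =
      if k = k' ∧ i = i' ∧ j = j' then 1 else 0 := by
  have h1 := h (Matrix.single i k 1) (Matrix.single k' j 1) i' j'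
  have e1 : ∀ (M : Matrix (Fin m) (Fin m) F) (a b : Fin m),
      ∑ x, ∑ y, M x y * (Matrix.single a b (1 : F)) x y = M a b := by
    intro M a b
    rw [Finset.sum_eq_single a]
    · rw [Finset.sum_eq_single b]
      · simp
      · intro y _ hy; simp [Matrix.single, hy.symm]
      · simp
    · intro x _ hx
      apply Finset.sum_eq_zero
      intro y _; simp [Matrix.single, hx.symm]
    · simp
  simp only [e1] at h1
  have e2 : ∑ p, u p i k * v p k' j * w p i' j' = ∑ p, w p i' j' * (u p i k * v p k' j) := by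
    apply Finset.sum_congr rfl; intro p _; ring
  rw [e2, ← h1]
  by_cases hk : k = k'
  · subst hk
    rw [Matrix.single_mul_single_same]
    by_cases hi : i = i'
    · by_cases hj : j = j'
      · simp [hi, hj]
      · simp [Matrix.single, hi, hj]
    · simp [Matrix.single, hi]
  · rw [Matrix.single_mul_single_of_ne _ _ _ _ hk]
    simp [hk]

/-- the stabiliser of the rank-one tensor `p` -/
def stab (u v w : Fin r → Matrix (Fin m) (Fin m) F) (p : Fin r) : Subgroup (Perm (Fin m)) where
  carrier := {π | ∀ i k k' j i' j' : Fin m,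
    u p (π i) (π k) * v p (π k') (π j) * w p (π i') (π j') = u p i k * v p k' j * w p i' j'}
  mul_mem' := by
    intro a b ha hb i k k' j i' j'
    simp only [Set.mem_ofPred_eq, Perm.mul_apply] at *
    rw [ha, hb]
  one_mem' := by intro i k k' j i' j'; simp
  inv_mem' := by
    intro a ha i k k' j i' j'
    simp only [Set.mem_ofPred_eq] at *
    have := ha (a⁻¹ i) (a⁻¹ k) (a⁻¹ k') (a⁻¹ j) (a⁻¹ i') (a⁻¹ j')
    simp only [papply_inv] at this
    exact this.symm

theorem mem_stab (p : Fin r) (π : Perm (Fin m)) : π ∈ stab u v w p ↔ ∀ i k k' j i' j' : Fin m,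
    u p (π i) (π k) * v p (π k') (π j) * w p (π i') (π j') = u p i k * v p k' j * w p i' j' :=
  Iff.rfl

/-- A matrix is semi-invariant under the elements of `H`, acting through `φ`. -/
def Semi {G : Type*} [Group G] (φ : G →* Perm (Fin m)) (H : Subgroup G)
    (f : Matrix (Fin m) (Fin m) F) : Prop :=
  ∀ π ∈ H, ∃ c : F, c ≠ 0 ∧ ∀ a b, f (φ π a) (φ π b) = c * f a b

theorem Semi.comm {G : Type*} [Group G] {φ : G →* Perm (Fin m)} {H : Subgroup G}
    {f : Matrix (Fin m) (Fin m) F} (h : Semi φ H f)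
    {g k : G} (hg : g ∈ H) (hk : k ∈ H) (a b : Fin m) :
    f (φ (g * k * g⁻¹ * k⁻¹) a) (φ (g * k * g⁻¹ * k⁻¹) b) = f a b := by
  obtain ⟨c, hc, hgc⟩ := h g hg
  obtain ⟨d, hd, hkd⟩ := h k hk
  have hg' : ∀ a b, f ((φ g)⁻¹ a) ((φ g)⁻¹ b) = c⁻¹ * f a b := by
    intro a b
    have := hgc ((φ g)⁻¹ a) ((φ g)⁻¹ b)
    rw [papply_inv, papply_inv] at this
    rw [this]; field_simp
  have hk' : ∀ a b, f ((φ k)⁻¹ a) ((φ k)⁻¹ b) = d⁻¹ * f a b := by
    intro a b
    have := hkd ((φ k)⁻¹ a) ((φ k)⁻¹ b)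
    rw [papply_inv, papply_inv] at this
    rw [this]; field_simp
  simp only [map_mul, map_inv, Perm.mul_apply]
  rw [hgc, hkd, hg', hk']
  field_simp

theorem inv_of_semi {Ω : Type*} [DecidableEq Ω] [Fintype Ω] {φ : Perm Ω →* Perm (Fin m)}
    {H : Subgroup (Perm Ω)} {f : Matrix (Fin m) (Fin m) F} (h : Semi φ H f)
    {C : Finset Ω} (hC : 5 ≤ C.card)
    (hH : ∀ x ∈ C, ∀ y ∈ C, ∀ z ∈ C, x ≠ y → x ≠ z → y ≠ z → cyc x y z ∈ H)
    {x y z : Ω} (hx : x ∈ C) (hy : y ∈ C) (hz : z ∈ C) (hxy : x ≠ y) (hxz : x ≠ z)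
    (hyz : y ≠ z) (a b : Fin m) : f (φ (cyc x y z) a) (φ (cyc x y z) b) = f a b := by
  classical
  -- two further points of `C`
  obtain ⟨s, hs, hs'⟩ : ∃ s ∈ C, s ∉ ({x, y, z} : Finset Ω) := by
    by_contra hcon
    push Not at hcon
    have : C ⊆ {x, y, z} := hcon
    have := Finset.card_le_card this
    have h3 : ({x, y, z} : Finset Ω).card ≤ 3 := Finset.card_le_three
    omega
  obtain ⟨t, ht, ht'⟩ : ∃ t ∈ C, t ∉ ({x, y, z, s} : Finset Ω) := by
    by_contra hcon
    push Not at hcon
    have : C ⊆ {x, y, z, s} := hcon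
    have := Finset.card_le_card this
    have h3 : ({x, y, z, s} : Finset Ω).card ≤ 4 := Finset.card_le_four
    omega
  simp only [Finset.mem_insert, Finset.mem_singleton, not_or] at hs' ht'
  obtain ⟨hs1, hs2, hs3⟩ := hs'
  obtain ⟨ht1, ht2, ht3, ht4⟩ := ht'
  have hg : cyc y z t ∈ H := hH y hy z hz t ht hyz (Ne.symm ht2) (Ne.symm ht3)
  have hk : cyc y x s ∈ H := hH y hy x hx s hs hxy.symm (Ne.symm hs2) (Ne.symm hs1)
  have e1 : cyc y z t y = z := cyc_apply_fst hyz (Ne.symm ht2)
  have e2 : cyc y x s y = x := cyc_apply_fst hxy.symm (Ne.symm hs2)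
  have hcomm := comm_eq_cyc (cyc y z t) (cyc y x s) y (by
    intro q h1 h2
    by_contra hq
    have h3 : q = z ∨ q = t := by
      by_contra h4; push Not at h4
      exact h1 (cyc_apply_of_ne hq h4.1 h4.2)
    have h5 : q = x ∨ q = s := by
      by_contra h4; push Not at h4
      exact h2 (cyc_apply_of_ne hq h4.1 h4.2)
    rcases h3 with rfl | rfl <;> rcases h5 with h5 | h5
    · exact hxz h5.symm
    · exact hs3 h5.symm
    · exact ht1 h5
    · exact ht4 h5) (by rw [e1]; exact hyz.symm) (by rw [e2]; exact hxy)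
  rw [e1, e2] at hcomm
  rw [← hcomm]
  exact h.comm hg hk a b

theorem semi_of_stab {G : Type*} [Group G] (φ : G →* Perm (Fin m)) (p : Fin r)
    {i k k' j i' j' : Fin m} (hne : u p i k * v p k' j * w p i' j' ≠ 0) :
    Semi φ ((stab u v w p).comap φ) (u p) ∧ Semi φ ((stab u v w p).comap φ) (v p) ∧
    Semi φ ((stab u v w p).comap φ) (w p) := by
  have hu0 : u p i k ≠ 0 := fun h => hne (by rw [h]; ring)
  have hv0 : v p k' j ≠ 0 := fun h => hne (by rw [h]; ring)
  have hw0 : w p i' j' ≠ 0 := fun h => hne (by rw [h]; ring)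
  refine ⟨?_, ?_, ?_⟩
  · intro π hπ
    rw [Subgroup.mem_comap, mem_stab] at hπ
    have h0 := hπ i k k' j i' j'
    have h1 : v p (φ π k') (φ π j) ≠ 0 := fun h => hne (by rw [← h0, h]; ring)
    have h2 : w p (φ π i') (φ π j') ≠ 0 := fun h => hne (by rw [← h0, h]; ring)
    refine ⟨v p k' j * w p i' j' / (v p (φ π k') (φ π j) * w p (φ π i') (φ π j')),
      div_ne_zero (mul_ne_zero hv0 hw0) (mul_ne_zero h1 h2), ?_⟩
    intro a b
    have h3 := hπ a b k' j i' j'
    field_simp
    linear_combination h3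
  · intro π hπ
    rw [Subgroup.mem_comap, mem_stab] at hπ
    have h0 := hπ i k k' j i' j'
    have h1 : u p (φ π i) (φ π k) ≠ 0 := fun h => hne (by rw [← h0, h]; ring)
    have h2 : w p (φ π i') (φ π j') ≠ 0 := fun h => hne (by rw [← h0, h]; ring)
    refine ⟨u p i k * w p i' j' / (u p (φ π i) (φ π k) * w p (φ π i') (φ π j')),
      div_ne_zero (mul_ne_zero hu0 hw0) (mul_ne_zero h1 h2), ?_⟩
    intro a b
    have h3 := hπ i k a b i' j'
    field_simp
    linear_combination h3
  · intro π hπ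
    rw [Subgroup.mem_comap, mem_stab] at hπ
    have h0 := hπ i k k' j i' j'
    have h1 : u p (φ π i) (φ π k) ≠ 0 := fun h => hne (by rw [← h0, h]; ring)
    have h2 : v p (φ π k') (φ π j) ≠ 0 := fun h => hne (by rw [← h0, h]; ring)
    refine ⟨u p i k * v p k' j / (u p (φ π i) (φ π k) * v p (φ π k') (φ π j)),
      div_ne_zero (mul_ne_zero hu0 hv0) (mul_ne_zero h1 h2), ?_⟩
    intro a b
    have h3 := hπ i k k' j a b
    field_simp
    linear_combination h3

/-- every bilinear algorithm has at least `m²` multiplications -/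
theorem sq_le (hA : IsBilinearAlg u v w) : m * m ≤ r := by
  let Φ : (Fin m × Fin m → F) →ₗ[F] (Fin r → F) :=
    LinearMap.pi (fun p => ∑ x : Fin m × Fin m, v p x.1 x.2 • LinearMap.proj x)
  have hinj : Function.Injective Φ := by
    rw [← LinearMap.ker_eq_bot, LinearMap.ker_eq_bot']
    intro b hb
    have hb' : ∀ p, ∑ x : Fin m × Fin m, v p x.1 x.2 * b x = 0 := by
      intro p
      have := congrFun hb p
      simpa [Φ, LinearMap.sum_apply] using this
    funext x
    obtain ⟨k, j⟩ := x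
    have h1 := hA 1 (Matrix.of (fun x y => b (x, y))) k j
    rw [Matrix.one_mul] at h1
    simp only [Matrix.of_apply] at h1
    rw [h1]
    apply Finset.sum_eq_zero
    intro p _
    have h2 : ∑ x, ∑ y, v p x y * b (x, y) = 0 := by
      have := hb' p
      rw [Fintype.sum_prod_type] at this
      exact this
    rw [h2]; ring
  have := LinearMap.finrank_le_finrank_of_injective hinj
  simpa using this

/-- the class (under translation by a group acting through `φ`) of a rank-one tensor is large if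
its stabiliser has large index -/
theorem index_le_class {G : Type*} [Group G] (φ : G →* Perm (Fin m))
    (h : ∀ π : G, ∃ σ : Fin r → Fin r, ∀ p, ∀ i k k' j i' j' : Fin m,
      u (σ p) (φ π i) (φ π k) * v (σ p) (φ π k') (φ π j) * w (σ p) (φ π i') (φ π j') =
      u p i k * v p k' j * w p i' j') (p : Fin r) :
    ((stab u v w p).comap φ).index ≤ Nat.card {q : Fin r // ∃ π : G, ∀ i k k' j i' j' : Fin m,
      u q (φ π i) (φ π k) * v q (φ π k') (φ π j) * w q (φ π i') (φ π j') =
      u p i k * v p k' j * w p i' j'} := by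
  choose σ hσ using h
  have hinj : Function.Injective (fun q : G ⧸ ((stab u v w p).comap φ) =>
      (⟨σ q.out p, q.out, fun i k k' j i' j' => hσ q.out p i k k' j i' j'⟩ :
        {q : Fin r // ∃ π : G, ∀ i k k' j i' j' : Fin m,
      u q (φ π i) (φ π k) * v q (φ π k') (φ π j) * w q (φ π i') (φ π j') =
      u p i k * v p k' j * w p i' j'})) := by
    intro q q' hqq
    have hqq' : σ q.out p = σ q'.out p := congrArg Subtype.val hqq
    rw [← q.out_eq, ← q'.out_eq]
    apply QuotientGroup.eq.2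
    rw [Subgroup.mem_comap, mem_stab]
    intro i k k' j i' j'
    set π := q.out
    set π' := q'.out
    have h1 := hσ π' p i k k' j i' j'
    have h2 := hσ π p ((φ (π⁻¹ * π')) i) ((φ (π⁻¹ * π')) k) ((φ (π⁻¹ * π')) k')
      ((φ (π⁻¹ * π')) j) ((φ (π⁻¹ * π')) i') ((φ (π⁻¹ * π')) j')
    simp only [map_mul, map_inv, Perm.mul_apply, papply_inv] at h2
    rw [hqq'] at h2
    simp only [map_mul, map_inv, Perm.mul_apply]
    rw [← h2, h1]
  exact Nat.card_le_card_of_injective _ hinj

end Bilinear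

end Pool.Agent.H522R2
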