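import Mathlib

namespace Pool.Agent.H522R2

/-- The label of node number `k` of an arithmetic circuit over `F` in variables indexed by `V`:
an input labelled by a variable or by a constant of `F`, or a `+` gate or a `×` gate whose two
inputs are nodes with smaller numbers. -/
inductive Gate (F V : Type*) (k : ℕ) : Type _
  | var (x : V) : Gate F V k
  | const (c : F) : Gate F V k
  | add (i j : Fin k) : Gate F V k
  | mul (i j : Fin k) : Gate F V k

/-- An arithmetic circuit: finitely many nodes, listed in a topological order of the underlying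
directed acyclic graph (so the two inputs of a gate are earlier nodes). -/
structure Circuit (F V : Type*) : Type _ where
  /-- number of nodes -/
  nodes : ℕ
  /-- the label of each node -/
  gate : (k : Fin nodes) → Gate F V k

namespace Circuit

/-- an earlier node, seen as a node of the circuit -/
def up {F V : Type*} (C : Circuit F V) (k : Fin C.nodes) (i : Fin (k : ℕ)) : Fin C.nodes :=
  ⟨i, i.2.trans k.2⟩

/-- The polynomial computed at a node. -/
noncomputable def poly {F V : Type*} [CommSemiring F] (C : Circuit F V) (k : Fin C.nodes) :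
    MvPolynomial V F :=
  match C.gate k with
  | .var x => MvPolynomial.X x
  | .const c => MvPolynomial.C c
  | .add i j => C.poly (C.up k i) + C.poly (C.up k j)
  | .mul i j => C.poly (C.up k i) * C.poly (C.up k j)
termination_by (k : ℕ)
decreasing_by all_goals simp [up]

/-- The depth of a node: the largest number of gates on a directed path ending at it. -/
def depth {F V : Type*} (C : Circuit F V) (k : Fin C.nodes) : ℕ :=
  match C.gate k with
  | .var _ => 0
  | .const _ => 0
  | .add i j => max (C.depth (C.up k i)) (C.depth (C.up k j)) + 1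
  | .mul i j => max (C.depth (C.up k i)) (C.depth (C.up k j)) + 1
termination_by (k : ℕ)
decreasing_by all_goals simp [up]

/-- The number of multiplication gates. -/
noncomputable def mulCount {F V : Type*} (C : Circuit F V) : ℕ :=
  Nat.card {k : Fin C.nodes // ∃ i j, C.gate k = Gate.mul i j}

/-- A nonscalar multiplication gate: a multiplication gate neither of whose two inputs computes a
constant polynomial. -/
def IsNonscalar {F V : Type*} [CommSemiring F] (C : Circuit F V) (k : Fin C.nodes) : Prop :=
  ∃ i j, C.gate k = Gate.mul i j ∧ (∀ c : F, C.poly (C.up k i) ≠ MvPolynomial.C c) ∧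
    (∀ c : F, C.poly (C.up k j) ≠ MvPolynomial.C c)

/-- The number of nonscalar multiplication gates. -/
noncomputable def nonscalarCount {F V : Type*} [CommSemiring F] (C : Circuit F V) : ℕ :=
  Nat.card {k : Fin C.nodes // C.IsNonscalar k}

/-- The size of a circuit: the number of its gates (additions and multiplications). -/
noncomputable def size {F V : Type*} (C : Circuit F V) : ℕ :=
  Nat.card {k : Fin C.nodes //
    (∃ i j, C.gate k = Gate.add i j) ∨ ∃ i j, C.gate k = Gate.mul i j}

/-! Internal bookkeeping: constant term, linear parts and the bilinear part of the polynomial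
computed at a node, evaluated at matrices `A` and `B`. -/

section Internal

variable {F X Y : Type*} [Field F]

noncomputable def jc (C : Circuit F (X ⊕ Y)) (k : Fin C.nodes) : F :=
  match C.gate k with
  | .var _ => 0
  | .const c => c
  | .add i j => jc C (C.up k i) + jc C (C.up k j)
  | .mul i j => jc C (C.up k i) * jc C (C.up k j)
termination_by (k : ℕ)
decreasing_by all_goals simp [up]

noncomputable def jA (C : Circuit F (X ⊕ Y)) (k : Fin C.nodes) : (X → F) →ₗ[F] F :=
  match C.gate k with
  | .var (.inl x) => LinearMap.proj x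
  | .var (.inr _) => 0
  | .const _ => 0
  | .add i j => jA C (C.up k i) + jA C (C.up k j)
  | .mul i j => jc C (C.up k i) • jA C (C.up k j) + jc C (C.up k j) • jA C (C.up k i)
termination_by (k : ℕ)
decreasing_by all_goals simp [up]

noncomputable def jB (C : Circuit F (X ⊕ Y)) (k : Fin C.nodes) : (Y → F) →ₗ[F] F :=
  match C.gate k with
  | .var (.inr x) => LinearMap.proj x
  | .var (.inl _) => 0
  | .const _ => 0
  | .add i j => jB C (C.up k i) + jB C (C.up k j)
  | .mul i j => jc C (C.up k i) • jB C (C.up k j) + jc C (C.up k j) • jB C (C.up k i)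
termination_by (k : ℕ)
decreasing_by all_goals simp [up]

noncomputable def jQ (C : Circuit F (X ⊕ Y)) (a : X → F) (b : Y → F) (k : Fin C.nodes) : F :=
  match C.gate k with
  | .var _ => 0
  | .const _ => 0
  | .add i j => jQ C a b (C.up k i) + jQ C a b (C.up k j)
  | .mul i j => jc C (C.up k i) * jQ C a b (C.up k j) + jc C (C.up k j) * jQ C a b (C.up k i)
      + (jA C (C.up k i) a * jB C (C.up k j) b + jA C (C.up k j) a * jB C (C.up k i) b)
termination_by (k : ℕ)
decreasing_by all_goals simp [up]

/-- evaluation of polynomials at `ε a`, `η b` with `ε² = η² = 0` -/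
noncomputable def ev (a : X → F) (b : Y → F) :
    MvPolynomial (X ⊕ Y) F →ₐ[F] DualNumber (DualNumber F) :=
  MvPolynomial.aeval (Sum.elim
    (fun x => (TrivSqZeroExt.inl (TrivSqZeroExt.inr (a x)) : DualNumber (DualNumber F)))
    (fun y => (TrivSqZeroExt.inr (TrivSqZeroExt.inl (b y)) : DualNumber (DualNumber F))))

theorem ev_poly (C : Circuit F (X ⊕ Y)) (a : X → F) (b : Y → F) (k : Fin C.nodes) :
    (ev a b (C.poly k)).fst.fst = jc C k ∧ (ev a b (C.poly k)).fst.snd = jA C k a ∧
    (ev a b (C.poly k)).snd.fst = jB C k b ∧ (ev a b (C.poly k)).snd.snd = jQ C a b k := by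
  obtain ⟨k, hk⟩ := k
  induction k using Nat.strong_induction_on with
  | _ k ih =>
    rw [poly, jc, jA, jB, jQ]
    cases h : C.gate ⟨k, hk⟩ with
    | var x =>
      cases x <;> simp [ev]
    | const c =>
      have : (algebraMap F (DualNumber (DualNumber F))) c
          = TrivSqZeroExt.inl (TrivSqZeroExt.inl c) := rfl
      simp [ev, this]
    | add i j =>
      obtain ⟨h1, h2, h3, h4⟩ := ih i i.2 (i.2.trans hk)
      obtain ⟨g1, g2, g3, g4⟩ := ih j j.2 (j.2.trans hk)
      simp only [map_add, TrivSqZeroExt.fst_add, TrivSqZeroExt.snd_add, up]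
      simp [h1, h2, h3, h4, g1, g2, g3, g4]
    | mul i j =>
      obtain ⟨h1, h2, h3, h4⟩ := ih i i.2 (i.2.trans hk)
      obtain ⟨g1, g2, g3, g4⟩ := ih j j.2 (j.2.trans hk)
      simp only [map_mul, TrivSqZeroExt.fst_mul, TrivSqZeroExt.snd_mul, up]
      simp [h1, h2, h3, h4, g1, g2, g3, g4]
      refine ⟨?_, ?_, ?_⟩ <;> ring

theorem jA_eq_zero_of_const (C : Circuit F (X ⊕ Y)) (k : Fin C.nodes) (c : F)
    (h : C.poly k = MvPolynomial.C c) (a : X → F) : jA C k a = 0 := by
  rw [← (ev_poly C a (0 : Y → F) k).2.1, h]
  have : (algebraMap F (DualNumber (DualNumber F))) c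
      = TrivSqZeroExt.inl (TrivSqZeroExt.inl c) := rfl
  simp [ev, this]

theorem jB_eq_zero_of_const (C : Circuit F (X ⊕ Y)) (k : Fin C.nodes) (c : F)
    (h : C.poly k = MvPolynomial.C c) (b : Y → F) : jB C k b = 0 := by
  rw [← (ev_poly C (0 : X → F) b k).2.2.1, h]
  have : (algebraMap F (DualNumber (DualNumber F))) c
      = TrivSqZeroExt.inl (TrivSqZeroExt.inl c) := rfl
  simp [ev, this]

end Internal

theorem nonscalarCount_le_mulCount {F V : Type*} [CommSemiring F] (C : Circuit F V) :
    C.nonscalarCount ≤ C.mulCount := by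
  unfold nonscalarCount mulCount
  apply Nat.card_le_card_of_injective
    (fun k : {k : Fin C.nodes // C.IsNonscalar k} =>
      (⟨k.1, by obtain ⟨i, j, h, _⟩ := k.2; exact ⟨i, j, h⟩⟩ :
        {k : Fin C.nodes // ∃ i j, C.gate k = Gate.mul i j}))
  intro x y hxy
  have := congrArg Subtype.val hxy
  exact Subtype.ext this

theorem mulCount_le_size {F V : Type*} (C : Circuit F V) : C.mulCount ≤ C.size := by
  unfold size mulCount
  apply Nat.card_le_card_of_injective
    (fun k : {k : Fin C.nodes // ∃ i j, C.gate k = Gate.mul i j} =>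
      (⟨k.1, Or.inr k.2⟩ : {k : Fin C.nodes //
        (∃ i j, C.gate k = Gate.add i j) ∨ ∃ i j, C.gate k = Gate.mul i j}))
  intro x y hxy
  have := congrArg Subtype.val hxy
  exact Subtype.ext this

end Circuit

end Pool.Agent.H522R2
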