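import Mathlib

/-! A linear algebra lemma on commuting families of endomorphisms. -/

namespace Pool.Agent.H522R2.Commutant

open Module

variable {F V ι α β : Type*} [Field F] [AddCommGroup V] [Module F V] [FiniteDimensional F V]
  [Fintype ι] [Fintype α] [Fintype β] [DecidableEq α] [DecidableEq β]

/-- the block operator -/
def Phi (Q : α → β → Module.End F V) : (β → V) →ₗ[F] (α → V) :=
  LinearMap.pi (fun a => ∑ b, (Q a b) ∘ₗ LinearMap.proj b)

omit [FiniteDimensional F V] [Fintype α] [DecidableEq α] [DecidableEq β] in
theorem Phi_apply (Q : α → β → Module.End F V) (η : β → V) (a : α) :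
    Phi Q η a = ∑ b, Q a b (η b) := by
  simp [Phi, LinearMap.sum_apply]

def Stable (Q : ι → α → β → Module.End F V) (U : Submodule F V) : Prop :=
  ∀ X a b, ∀ x ∈ U, Q X a b x ∈ U

theorem step (Q : ι → α → β → Module.End F V)
    (w : ι → α → β → F)
    (hW : ∀ i j a b, ∑ X, w X i j • Q X a b = if i = a ∧ j = b then 1 else 0)
    (hcomm : ∀ X a b Y c d, Commute (Q X a b) (Q Y c d)) (d : ℕ) :
    ∀ U : Submodule F V, finrank F U ≤ d → Stable Q U →
      Fintype.card α * Fintype.card β * finrank F U ≤
        ∑ X, finrank F (Submodule.map (Phi (Q X)) (Submodule.pi Set.univ (fun _ => U))) := by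
  classical
  induction d with
  | zero =>
    intro U hU _
    have : finrank F U = 0 := by omega
    rw [this]; simp
  | succ d ih =>
    intro U hU hst
    by_cases hbot : U = ⊥
    · rw [hbot, finrank_bot]; simp
    obtain ⟨U', ⟨hlt, hst'⟩, hmax⟩ := wellFounded_gt.has_min
      {W : Submodule F V | W < U ∧ Stable Q W}
      ⟨⊥, bot_lt_iff_ne_bot.2 hbot, by intro X a b x hx; rw [Submodule.mem_bot] at hx ⊢; simp [hx]⟩
    have hfl : finrank F U' < finrank F U := Submodule.finrank_lt_finrank_of_lt hlt
    have hI := ih U' (by omega) hst'
    let Good : Finset ι := Finset.univ.filter (fun X => ∃ a b, ∃ x ∈ U, Q X a b x ∉ U')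
    have hmono : ∀ X, Submodule.map (Phi (Q X)) (Submodule.pi Set.univ (fun _ => U')) ≤
        Submodule.map (Phi (Q X)) (Submodule.pi Set.univ (fun _ => U)) := by
      intro X
      apply Submodule.map_mono
      intro η hη
      rw [Submodule.mem_pi] at hη ⊢
      intro b hb
      exact hlt.le (hη b hb)
    have hgood : ∀ X ∈ Good,
        finrank F (Submodule.map (Phi (Q X)) (Submodule.pi Set.univ (fun _ => U'))) +
          (finrank F U - finrank F U') ≤
        finrank F (Submodule.map (Phi (Q X)) (Submodule.pi Set.univ (fun _ => U))) := by
      intro X hX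
      obtain ⟨a, b, x, hx, hxn⟩ := (Finset.mem_filter.1 hX).2
      -- `Q U + U' = U`
      have hsup : Submodule.map (Q X a b) U ⊔ U' = U := by
        by_contra hne
        have hle : Submodule.map (Q X a b) U ⊔ U' ≤ U := by
          apply sup_le _ hlt.le
          rintro y ⟨z, hz, rfl⟩
          exact hst X a b z hz
        have hlt2 : Submodule.map (Q X a b) U ⊔ U' < U := lt_of_le_of_ne hle hne
        have hstab : Stable Q (Submodule.map (Q X a b) U ⊔ U') := by
          intro Y c e y hy
          obtain ⟨y1, hy1, y2, hy2, rfl⟩ := Submodule.mem_sup.1 hy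
          obtain ⟨z, hz, rfl⟩ := hy1
          rw [map_add]
          apply Submodule.add_mem_sup
          · refine ⟨Q Y c e z, hst Y c e z hz, ?_⟩
            have := hcomm X a b Y c e
            exact congrArg (fun f => f z) this.eq
          · exact hst' Y c e y2 hy2
        apply hmax _ ⟨hlt2, hstab⟩
        apply lt_of_le_of_ne le_sup_right
        intro h
        apply hxn
        rw [h]
        exact Submodule.mem_sup_left ⟨x, hx, rfl⟩
      let A := Submodule.map (Phi (Q X)) (Submodule.pi Set.univ (fun _ => U))
      let A' := Submodule.map (Phi (Q X)) (Submodule.pi Set.univ (fun _ => U'))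
      let ψ : A →ₗ[F] (V ⧸ U') := (U'.mkQ ∘ₗ LinearMap.proj a) ∘ₗ A.subtype
      have hrange : finrank F (LinearMap.range ψ) ≥ finrank F U - finrank F U' := by
        have h1 : Submodule.map U'.mkQ U ≤ LinearMap.range ψ := by
          rintro y ⟨z, hz, rfl⟩
          have hz' : z ∈ Submodule.map (Q X a b) U ⊔ U' := by rw [hsup]; exact hz
          obtain ⟨y1, ⟨t, ht, rfl⟩, y2, hy2, rfl⟩ := Submodule.mem_sup.1 hz'
          refine ⟨⟨Phi (Q X) (Pi.single b t), ⟨Pi.single b t, ?_, rfl⟩⟩, ?_⟩
          · intro c _
            by_cases hc : c = b
            · subst hc; simpa using ht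
            · simp [hc]
          · simp only [ψ, LinearMap.comp_apply, Submodule.subtype_apply, LinearMap.proj_apply]
            rw [Phi_apply, Finset.sum_eq_single b]
            · rw [Pi.single_eq_same, map_add]
              have : U'.mkQ y2 = 0 := by simpa using hy2
              rw [this, add_zero]
            · intro c _ hc
              rw [Pi.single_eq_of_ne hc, map_zero]
            · simp
        have h2 : finrank F (Submodule.map U'.mkQ U) = finrank F U - finrank F U' := by
          have h3 := LinearMap.finrank_range_add_finrank_ker (U'.mkQ ∘ₗ U.subtype)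
          have h4 : LinearMap.range (U'.mkQ ∘ₗ U.subtype) = Submodule.map U'.mkQ U := by
            rw [LinearMap.range_comp, Submodule.range_subtype]
          have h5 : finrank F (LinearMap.ker (U'.mkQ ∘ₗ U.subtype)) = finrank F U' := by
            rw [LinearMap.ker_comp, Submodule.ker_mkQ]
            exact (Submodule.comapSubtypeEquivOfLe hlt.le).finrank_eq
          rw [h4, h5] at h3
          omega
        rw [ge_iff_le, ← h2]
        exact Submodule.finrank_mono h1
      have hker : finrank F A' ≤ finrank F (LinearMap.ker ψ) := by
        have h1 : Submodule.comap A.subtype A' ≤ LinearMap.ker ψ := by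
          rintro ⟨y, hy⟩ hy'
          obtain ⟨η, hη, hηy⟩ := hy'
          rw [LinearMap.mem_ker]
          simp only [ψ, LinearMap.comp_apply, Submodule.subtype_apply, LinearMap.proj_apply] at hηy ⊢
          rw [← hηy, Phi_apply, Submodule.mkQ_apply, Submodule.Quotient.mk_eq_zero]
          apply Submodule.sum_mem
          intro c _
          exact hst' X a c _ (hη c (Set.mem_univ c))
        calc finrank F A' = finrank F (Submodule.comap A.subtype A') :=
              (Submodule.comapSubtypeEquivOfLe (hmono X)).finrank_eq.symm
          _ ≤ _ := Submodule.finrank_mono h1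
      have h3 := LinearMap.finrank_range_add_finrank_ker ψ
      show finrank F A' + (finrank F U - finrank F U') ≤ finrank F A
      omega
    have hcard : Fintype.card α * Fintype.card β ≤ Good.card := by
      let Θ : (α × β → F) →ₗ[F] ({X // X ∈ Good} → F) :=
        LinearMap.pi (fun X => ∑ i : α × β, w X.1 i.1 i.2 • LinearMap.proj i)
      have hinj : Function.Injective Θ := by
        rw [← LinearMap.ker_eq_bot, LinearMap.ker_eq_bot']
        intro x hx
        have hx' : ∀ X ∈ Good, ∑ i : α × β, w X i.1 i.2 * x i = 0 := by
          intro X hX
          have := congrFun hx ⟨X, hX⟩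
          simpa [Θ, LinearMap.sum_apply] using this
        obtain ⟨y, hyU, hyU'⟩ := SetLike.exists_of_lt hlt
        funext ab
        obtain ⟨a, b⟩ := ab
        have h1 : x (a, b) • y ∈ U' := by
          have h2 : x (a, b) • y = ∑ X, (∑ i : α × β, w X i.1 i.2 * x i) • Q X a b y := by
            have h3 : ∀ i : α × β, x i • (∑ X, w X i.1 i.2 • Q X a b y) =
                if i = (a, b) then x (a, b) • y else 0 := by
              intro i
              have h4 := congrArg (fun f => f y) (hW i.1 i.2 a b)
              simp only [LinearMap.sum_apply, LinearMap.smul_apply] at h4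
              rw [h4]
              by_cases hi : i = (a, b)
              · subst hi; simp
              · rw [if_neg hi, if_neg]
                · simp
                · rintro ⟨h5, h6⟩; exact hi (Prod.ext h5 h6)
            calc x (a, b) • y = ∑ i : α × β, x i • (∑ X, w X i.1 i.2 • Q X a b y) := by
                  simp only [h3]; simp
              _ = ∑ X, (∑ i : α × β, w X i.1 i.2 * x i) • Q X a b y := by
                  simp only [Finset.smul_sum, Finset.sum_smul]
                  rw [Finset.sum_comm]
                  apply Finset.sum_congr rfl; intro X _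
                  apply Finset.sum_congr rfl; intro i _
                  rw [smul_smul, mul_comm]
          rw [h2]
          apply Submodule.sum_mem
          intro X _
          by_cases hX : X ∈ Good
          · rw [hx' X hX, zero_smul]; exact Submodule.zero_mem _
          · apply Submodule.smul_mem
            by_contra hcon
            exact hX (Finset.mem_filter.2 ⟨Finset.mem_univ _, a, b, y, hyU, hcon⟩)
        by_contra hne
        apply hyU'
        have := U'.smul_mem (x (a, b))⁻¹ h1
        rwa [smul_smul, inv_mul_cancel₀ hne, one_smul] at this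
      have := LinearMap.finrank_le_finrank_of_injective hinj
      simpa using this
    calc Fintype.card α * Fintype.card β * finrank F U
        = Fintype.card α * Fintype.card β * finrank F U' +
          Fintype.card α * Fintype.card β * (finrank F U - finrank F U') := by
          rw [← Nat.mul_add]; congr 1; omega
      _ ≤ ∑ X, finrank F (Submodule.map (Phi (Q X)) (Submodule.pi Set.univ (fun _ => U'))) +
          Good.card * (finrank F U - finrank F U') :=
          Nat.add_le_add hI (Nat.mul_le_mul_right _ hcard)
      _ = ∑ X, (finrank F (Submodule.map (Phi (Q X)) (Submodule.pi Set.univ (fun _ => U'))) +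
          if X ∈ Good then (finrank F U - finrank F U') else 0) := by
          rw [Finset.sum_add_distrib]
          congr 1
          rw [← Finset.sum_filter, Finset.sum_const, smul_eq_mul]
          congr 2
          ext X; simp
      _ ≤ _ := by
          apply Finset.sum_le_sum
          intro X _
          by_cases hX : X ∈ Good
          · rw [if_pos hX]; exact hgood X hX
          · rw [if_neg hX, add_zero]; exact Submodule.finrank_mono (hmono X)

theorem card_mul_finrank_le (Q : ι → α → β → Module.End F V)
    (w : ι → α → β → F)
    (hW : ∀ i j a b, ∑ X, w X i j • Q X a b = if i = a ∧ j = b then 1 else 0)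
    (hcomm : ∀ X a b Y c d, Commute (Q X a b) (Q Y c d)) :
    Fintype.card α * Fintype.card β * finrank F V ≤ ∑ X, finrank F (LinearMap.range (Phi (Q X))) := by
  have h := step Q w hW hcomm (finrank F (⊤ : Submodule F V)) ⊤ le_rfl
    (fun X a b x _ => Submodule.mem_top)
  rw [finrank_top] at h
  refine h.trans (Finset.sum_le_sum (fun X _ => Submodule.finrank_mono ?_))
  exact LinearMap.map_le_range

end Pool.Agent.H522R2.Commutant
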