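import Mathlib

/-!
Abstract linear algebra behind the lower bound for equivariant branching programs:
a vector with zero sums along `k` commuting 'translations' of prime order `p`, which are permuted
by 'dilations' with factors in a group of order `q`, spans a space of dimension at least `q^k`.
-/

namespace H522R2.Eqv

open Finset BigOperators

set_option linter.unusedSectionVars false

variable {p : ℕ} [Fact p.Prime] {B : Type} [Fintype B] [DecidableEq B]

/-- the standard pairing of `(ZMod p)^B` with itself, with values in the `p`-th roots of unity -/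
noncomputable def ee (a t : B → ZMod p) : ℂ := ZMod.stdAddChar (∑ b, a b * t b)

lemma ee_add (a s t : B → ZMod p) : ee a (s + t) = ee a s * ee a t := by
  unfold ee
  rw [← AddChar.map_add_eq_mul]
  congr 1
  rw [← Finset.sum_add_distrib]
  exact Finset.sum_congr rfl (fun b _ => by simp [mul_add])

lemma ee_add_left (a a' t : B → ZMod p) : ee (a + a') t = ee a t * ee a' t := by
  unfold ee
  rw [← AddChar.map_add_eq_mul]
  congr 1
  rw [← Finset.sum_add_distrib]
  exact Finset.sum_congr rfl (fun b _ => by simp [add_mul])

lemma ee_comm (a t : B → ZMod p) : ee a t = ee t a := by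
  unfold ee
  congr 1
  exact Finset.sum_congr rfl (fun b _ => mul_comm _ _)

lemma ee_zero (a : B → ZMod p) : ee a 0 = 1 := by
  unfold ee; simp

lemma ee_neg_mul (a t : B → ZMod p) : ee a t * ee a (-t) = 1 := by
  rw [← ee_add]; simp [ee_zero]

lemma sum_ee (c : B → ZMod p) :
    ∑ t, ee c t = if c = 0 then (p : ℂ) ^ (Fintype.card B) else 0 := by
  split_ifs with h
  · subst h
    have : ∀ t : B → ZMod p, ee (0 : B → ZMod p) t = 1 := fun t => by unfold ee; simp
    simp [this, Finset.card_univ, ZMod.card]
  · obtain ⟨b, hb⟩ : ∃ b, c b ≠ 0 := by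
      by_contra hcon
      push Not at hcon
      exact h (funext hcon)
    let s : B → ZMod p := Pi.single b (c b)⁻¹
    have hs : ee c s = ZMod.stdAddChar (1 : ZMod p) := by
      unfold ee
      congr 1
      rw [Finset.sum_eq_single b]
      · simp [s, hb]
      · intro b' _ hb'
        simp [s, hb']
      · simp
    have hne : ee c s ≠ 1 := by
      rw [hs]
      intro h1
      have hp := ZMod.isPrimitive_stdAddChar p
      have h2 := hp (one_ne_zero : (1 : ZMod p) ≠ 0)
      apply h2
      ext x
      simp only [AddChar.mulShift_apply, one_mul, AddChar.one_apply]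
      have : x = x.val • (1 : ZMod p) := by simp
      rw [this, AddChar.map_nsmul_eq_pow, h1, one_pow]
    have key : ee c s * ∑ t, ee c t = ∑ t, ee c t := by
      rw [Finset.mul_sum]
      rw [← Equiv.sum_comp (Equiv.addLeft s) (fun t => ee c t)]
      exact Finset.sum_congr rfl (fun t _ => by simp [ee_add])
    have : (ee c s - 1) * ∑ t, ee c t = 0 := by
      rw [sub_mul, key]; simp
    rcases mul_eq_zero.mp this with h1 | h1
    · exact absurd (sub_eq_zero.mp h1) hne
    · exact h1

/-- **Abstract lower bound.**  `P : X → V` is a family of vectors, `τ` an action of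
`(ZMod p)^B` on `X` ('translations'), `δ` operators on `X` indexed by `H^B`, `H ⊆ (ZMod p)ˣ` ('dilations'),
with `δ h ∘ τ t = τ (h t) ∘ δ h`; both are realised on the family by linear maps of `V`.  If a weight `c` on
`X` has zero sum along each of the `|B|` translation directions but `∑ c(x) P(x) ≠ 0`, then
`dim V ≥ |H|^|B|`. -/
theorem abstract_bound {X : Type} [Fintype X] {V : Type} [AddCommGroup V] [Module ℂ V]
    [FiniteDimensional ℂ V] {H : Type} [Fintype H] (η : H → (ZMod p)ˣ) (hη : Function.Injective η)
    (P : X → V)
    (τ : (B → ZMod p) → Equiv.Perm X) (hτ0 : τ 0 = 1) (hτ : ∀ s t, τ (s + t) = τ s * τ t)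
    (δ : (B → H) → X → X)
    (hδ : ∀ h t x, δ h (τ t x) = τ (fun b => (η (h b) : ZMod p) * t b) (δ h x))
    (N : (B → ZMod p) → (V →ₗ[ℂ] V)) (hN : ∀ t x, P (τ t x) = N t (P x))
    (D : (B → H) → (V →ₗ[ℂ] V)) (hD : ∀ h x, P (δ h x) = D h (P x))
    (hDinj : ∀ h, Function.Injective (D h))
    (c : X → ℂ) (hc : ∀ b : B, ∀ x, ∑ s : ZMod p, c (τ (Pi.single b s) x) = 0)
    (hz : ∑ x, c x • P x ≠ 0) :
    (Fintype.card H) ^ (Fintype.card B) ≤ Module.finrank ℂ V := by
  classical
  have hp : p.Prime := Fact.out
  -- the span of the family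
  set Z : Submodule ℂ V := Submodule.span ℂ (Set.range P) with hZ
  have hNZ : ∀ t, ∀ z ∈ Z, N t z ∈ Z := by
    intro t z hz
    induction hz using Submodule.span_induction with
    | mem x hx =>
      obtain ⟨y, rfl⟩ := hx
      rw [← hN]; exact Submodule.subset_span ⟨_, rfl⟩
    | zero => simp
    | add x y _ _ hx hy => rw [map_add]; exact Z.add_mem hx hy
    | smul a x _ hx => rw [map_smul]; exact Z.smul_mem a hx
  have hNN : ∀ s t, ∀ z ∈ Z, N s (N t z) = N (s + t) z := by
    intro s t z hz
    induction hz using Submodule.span_induction with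
    | mem x hx =>
      obtain ⟨y, rfl⟩ := hx
      rw [← hN, ← hN, ← hN, hτ]; rfl
    | zero => simp
    | add x y _ _ hx hy => simp only [map_add, hx, hy]
    | smul a x _ hx => simp only [map_smul, hx]
  have hN0 : ∀ z ∈ Z, N 0 z = z := by
    intro z hz
    induction hz using Submodule.span_induction with
    | mem x hx =>
      obtain ⟨y, rfl⟩ := hx
      rw [← hN, hτ0]; rfl
    | zero => simp
    | add x y _ _ hx hy => simp only [map_add, hx, hy]
    | smul a x _ hx => simp only [map_smul, hx]
  have hND : ∀ h t, ∀ z ∈ Z, D h (N t z) = N (fun b => (η (h b) : ZMod p) * t b) (D h z) := by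
    intro h t z hz
    induction hz using Submodule.span_induction with
    | mem x hx =>
      obtain ⟨y, rfl⟩ := hx
      rw [← hN, ← hD, ← hD, ← hN, hδ]
    | zero => simp
    | add x y _ _ hx hy => simp only [map_add, hx, hy]
    | smul a x _ hx => simp only [map_smul, hx]
  set z : V := ∑ x, c x • P x with hzdef
  have hzZ : z ∈ Z := Z.sum_mem (fun x _ => Z.smul_mem _ (Submodule.subset_span ⟨_, rfl⟩))
  have hNz : ∀ t, N t z = ∑ x, c x • P (τ t x) := by
    intro t
    rw [hzdef, map_sum]
    exact Finset.sum_congr rfl (fun x _ => by rw [map_smul, hN])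
  -- zero sums along the coordinate directions
  have hzero : ∀ b : B, ∑ s : ZMod p, N (Pi.single b s) z = 0 := by
    intro b
    simp only [hNz]
    have h1 : ∀ s : ZMod p, ∑ x, c x • P (τ (Pi.single b s) x)
        = ∑ x, c (τ (Pi.single b (-s)) x) • P x := by
      intro s
      rw [← Equiv.sum_comp (τ (Pi.single b s)) (fun x => c (τ (Pi.single b (-s)) x) • P x)]
      refine Finset.sum_congr rfl (fun x _ => ?_)
      have : τ (Pi.single b (-s)) (τ (Pi.single b s) x) = x := by
        rw [← Equiv.Perm.mul_apply, ← hτ, ← Pi.single_add]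
        simp [hτ0]
      rw [this]
    simp only [h1]
    rw [Finset.sum_comm]
    refine Finset.sum_eq_zero (fun x _ => ?_)
    rw [← Finset.sum_smul]
    have : ∑ s : ZMod p, c (τ (Pi.single b (-s)) x) = 0 := by
      rw [← hc b x]
      exact Equiv.sum_comp (Equiv.neg (ZMod p)) (fun s => c (τ (Pi.single b s) x))
    rw [this, zero_smul]
  -- the Fourier components
  let za : (B → ZMod p) → V := fun a => ∑ t, ee a t • N t z
  have hzaZ : ∀ a, za a ∈ Z := fun a => Z.sum_mem (fun t _ => Z.smul_mem _ (hNZ t z hzZ))
  have hsum : ∑ a, za a = ((p : ℂ) ^ (Fintype.card B)) • z := by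
    simp only [za]
    rw [Finset.sum_comm]
    have : ∀ t : B → ZMod p, ∑ a, ee a t • N t z
        = (if t = 0 then (p : ℂ) ^ (Fintype.card B) else 0) • N t z := by
      intro t
      rw [← Finset.sum_smul, ← sum_ee t]
      congr 1
      exact Finset.sum_congr rfl (fun a _ => ee_comm a t)
    simp only [this, ite_smul, zero_smul, Finset.sum_ite_eq', Finset.mem_univ, if_true]
    rw [hN0 z hzZ]
  have hpne : (p : ℂ) ≠ 0 := by exact_mod_cast hp.ne_zero
  obtain ⟨a, ha⟩ : ∃ a, za a ≠ 0 := by
    by_contra hcon
    push Not at hcon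
    have : ((p : ℂ) ^ (Fintype.card B)) • z = 0 := by
      rw [← hsum]; exact Finset.sum_eq_zero (fun a _ => hcon a)
    rcases smul_eq_zero.mp this with h1 | h1
    · exact pow_ne_zero _ hpne h1
    · exact hz h1
  -- translation acts on `za a` by a character
  have heig : ∀ a s, N s (za a) = ee a (-s) • za a := by
    intro a s
    simp only [za, map_sum, map_smul]
    have h1 : ∀ t, ee a t • N s (N t z) = ee a (-s) • (ee a (s + t) • N (s + t) z) := by
      intro t
      rw [hNN s t z hzZ, smul_smul]
      congr 1
      rw [← ee_add]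
      congr 1
      abel
    simp only [h1]
    rw [← Finset.smul_sum]
    congr 1
    exact Equiv.sum_comp (Equiv.addLeft s) (fun t => ee a t • N t z)
  -- all coordinates of `a` are nonzero
  have hanz : ∀ b, a b ≠ 0 := by
    intro b hb
    apply ha
    have h1 : ∀ s : ZMod p, za a = ∑ t, ee a t • N t (N (Pi.single b s) z) := by
      intro s
      simp only [za]
      rw [← Equiv.sum_comp (Equiv.addRight (Pi.single b s)) (fun t => ee a t • N t z)]
      refine Finset.sum_congr rfl (fun t _ => ?_)
      rw [hNN _ _ z hzZ]
      have : ee a ((Equiv.addRight (Pi.single b s)) t) = ee a t := by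
        rw [Equiv.coe_addRight, ee_add]
        have : ee a (Pi.single b s) = 1 := by
          unfold ee
          rw [Finset.sum_eq_single b]
          · simp [hb]
          · intro b' _ hb'
            simp [hb']
          · simp
        rw [this, mul_one]
      rw [this]
      rfl
    have h2 : (p : ℂ) • za a = 0 := by
      have : (p : ℂ) • za a = ∑ s : ZMod p, za a := by
        rw [Finset.sum_const, Finset.card_univ, ZMod.card, Nat.cast_smul_eq_nsmul]
      rw [this]
      rw [Finset.sum_congr rfl (fun s _ => h1 s), Finset.sum_comm]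
      refine Finset.sum_eq_zero (fun t _ => ?_)
      rw [← Finset.smul_sum, ← map_sum, hzero b, map_zero, smul_zero]
    rcases smul_eq_zero.mp h2 with h3 | h3
    · exact absurd h3 hpne
    · exact h3
  -- the translates by dilations
  let w : (B → H) → V := fun h => D h (za a)
  have hw0 : ∀ h, w h ≠ 0 := by
    intro h hw
    exact ha (hDinj h (by rw [map_zero]; exact hw))
  let ai : (B → H) → (B → ZMod p) := fun h b => a b * ((η (h b))⁻¹ : (ZMod p)ˣ)
  have hweig : ∀ h s, N s (w h) = ee (ai h) (-s) • w h := by
    intro h s
    have h1 := hND h (fun b => ((η (h b))⁻¹ : (ZMod p)ˣ) * s b) (za a) (hzaZ a)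
    have h2 : (fun b => ((η (h b) : (ZMod p)ˣ) : ZMod p) * ((((η (h b))⁻¹ : (ZMod p)ˣ) : ZMod p) * s b))
        = s := by
      funext b
      rw [← mul_assoc, Units.mul_inv, one_mul]
    rw [h2] at h1
    show N s (D h (za a)) = _
    rw [← h1, heig, map_smul]
    congr 1
    unfold ee
    congr 1
    refine Finset.sum_congr rfl (fun b _ => ?_)
    simp only [Pi.neg_apply, ai]
    ring
  have hai : Function.Injective ai := by
    intro h h' hh
    funext b
    have h1 := congrFun hh b
    simp only [ai] at h1
    have h2 := mul_left_cancel₀ (hanz b) h1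
    exact hη (inv_injective (Units.ext h2))
  have hli : LinearIndependent ℂ w := by
    rw [Fintype.linearIndependent_iff]
    intro k hk h0
    have h1 : ∑ s, ee (ai h0) s • N s (∑ h, k h • w h) = 0 := by
      rw [hk]; simp
    have h2 : ∑ s, ee (ai h0) s • N s (∑ h, k h • w h)
        = ((p : ℂ) ^ (Fintype.card B)) • (k h0 • w h0) := by
      simp only [map_sum, map_smul, hweig, Finset.smul_sum, smul_smul]
      rw [Finset.sum_comm]
      rw [Finset.sum_eq_single h0]
      · rw [← Finset.sum_smul]
        congr 1
        have : ∀ s : B → ZMod p, ee (ai h0) s * (k h0 * ee (ai h0) (-s)) = k h0 := by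
          intro s
          rw [mul_left_comm, ee_neg_mul, mul_one]
        simp only [this]
        simp [ZMod.card]
      · intro h _ hh
        rw [← Finset.sum_smul]
        have h3 : ∀ s : B → ZMod p, ee (ai h0) s * (k h * ee (ai h) (-s))
            = k h * ee (ai h0 - ai h) s := by
          intro s
          rw [mul_left_comm]
          congr 1
          have h4 : ee (ai h) (-s) = ee (-ai h) s := by
            unfold ee
            congr 1
            exact Finset.sum_congr rfl (fun b _ => by simp)
          rw [h4, ← ee_add_left, sub_eq_add_neg]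
        simp only [h3]
        rw [← Finset.mul_sum, sum_ee, if_neg, mul_zero, zero_smul]
        intro h5
        exact hh (hai (sub_eq_zero.mp h5).symm)
      · simp
    rw [h1] at h2
    rcases smul_eq_zero.mp h2.symm with h3 | h3
    · exact absurd h3 (pow_ne_zero _ hpne)
    · rcases smul_eq_zero.mp h3 with h4 | h4
      · exact h4
      · exact absurd h4 (hw0 h0)
  have hcard := hli.fintype_card_le_finrank
  rw [Fintype.card_fun] at hcard
  exact hcard

end H522R2.Eqv
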