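import Pool.Agent.H522R2.EqvTree

/-!
Symmetric arithmetic circuits of linear size for the tree networks.
-/

namespace H522R2.Eqv

open Finset BigOperators

set_option linter.unusedSectionVars false

variable {σ : Type}

lemma Circuit.val_sum (C : Circuit σ) (g : C.G) (h : C.kind g = Kind.sum) :
    C.val g = ∑ h ∈ C.args g, C.val h := by
  rw [Circuit.val, h]
  simp only
  rw [Finset.sum_coe_sort (C.args g) (fun h => C.val h)]

lemma Circuit.val_prod (C : Circuit σ) (g : C.G) (h : C.kind g = Kind.prod) :
    C.val g = ∏ h ∈ C.args g, C.val h := by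
  rw [Circuit.val, h]
  simp only
  rw [Finset.prod_coe_sort (C.args g) (fun h => C.val h)]

lemma Circuit.val_var (C : Circuit σ) (g : C.G) (x : σ) (h : C.kind g = Kind.var x) :
    C.val g = MvPolynomial.X x := by
  rw [Circuit.val, h]

/-! ### the circuits for the trees -/

/-- height of a vertex -/
def ht : (d : ℕ) → TW d → ℕ
  | _, TW.leaf => 0
  | _, TW.top d => d + 1
  | _, TW.sub d _ v => ht d v

lemma ht_root (d : ℕ) : ht d (troot d) = d := by cases d <;> rfl

lemma ht_le (d : ℕ) (v : TW d) : ht d v ≤ d := by
  induction v with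
  | leaf => exact le_refl _
  | top d => exact le_refl _
  | sub d i v ih => exact le_trans ih (Nat.le_succ _)

lemma ht_child (d : ℕ) (v : TW d) (i : Fin 3) (c : TW d) (h : tchild d v i = some c) :
    ht d c < ht d v := by
  induction v with
  | leaf => simp [tchild] at h
  | top d =>
    simp only [tchild, Option.some.injEq] at h
    subst h
    simp [ht, ht_root]
  | sub d j v ih =>
    simp only [tchild, Option.map_eq_some_iff] at h
    obtain ⟨c', hc', rfl⟩ := h
    exact ih c' hc'

/-- the gates of the tree circuit -/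
inductive TG (d p : ℕ)
  | var (w : TW d) (γ : Option (Fin 3) → ZMod p)
  | prod (w : TW d) (γ : Option (Fin 3) → ZMod p)
  | sum (w : TW d) (a : ZMod p)
  | out
  deriving DecidableEq

def TG.equiv (d p : ℕ) : ((TW d × (Option (Fin 3) → ZMod p)) ⊕ (TW d × (Option (Fin 3) → ZMod p))) ⊕
    ((TW d × ZMod p) ⊕ Unit) ≃ TG d p where
  toFun x := match x with
    | Sum.inl (Sum.inl (w, γ)) => TG.var w γ
    | Sum.inl (Sum.inr (w, γ)) => TG.prod w γ
    | Sum.inr (Sum.inl (w, a)) => TG.sum w a
    | Sum.inr (Sum.inr _) => TG.out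
  invFun x := match x with
    | TG.var w γ => Sum.inl (Sum.inl (w, γ))
    | TG.prod w γ => Sum.inl (Sum.inr (w, γ))
    | TG.sum w a => Sum.inr (Sum.inl (w, a))
    | TG.out => Sum.inr (Sum.inr ())
  left_inv x := by rcases x with (⟨w, γ⟩ | ⟨w, γ⟩) | (⟨w, a⟩ | _) <;> rfl
  right_inv x := by cases x <;> rfl

variable {p : ℕ} [Fact p.Prime]

instance instFTG (d : ℕ) : Fintype (TG d p) := Fintype.ofEquiv _ (TG.equiv d p)

/-- the argument gates coming from the `i`-th child -/
def kidArg {d : ℕ} (w : TW d) (γ : Option (Fin 3) → ZMod p) (i : Fin 3) : Finset (TG d p) :=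
  match tchild d w i with
  | none => ∅
  | some c => {TG.sum c (γ (some i))}

/-- the arguments of a gate -/
def targs (d : ℕ) : TG d p → Finset (TG d p)
  | TG.var _ _ => ∅
  | TG.prod w γ => insert (TG.var w γ) (univ.biUnion (kidArg w γ))
  | TG.sum w a => (univ.filter (fun γ : Option (Fin 3) → ZMod p => γ none = a)).image (TG.prod w)
  | TG.out => univ.image (fun a : ZMod p => TG.sum (troot d) a)

/-- rank of a gate -/
def trk (d : ℕ) : TG d p → ℕ
  | TG.var _ _ => 0
  | TG.prod w _ => 2 * ht d w + 1
  | TG.sum w _ => 2 * ht d w + 2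
  | TG.out => 2 * d + 3

/-- the kind of a gate -/
def tkind (d : ℕ) : TG d p → Kind ((tree d).Var p)
  | TG.var w γ => Kind.var (w, γ)
  | TG.prod _ _ => Kind.prod
  | TG.sum _ _ => Kind.sum
  | TG.out => Kind.sum

lemma mem_kidArg {d : ℕ} (w : TW d) (γ : Option (Fin 3) → ZMod p) (i : Fin 3) (h : TG d p) :
    h ∈ kidArg w γ i ↔ ∃ c, tchild d w i = some c ∧ h = TG.sum c (γ (some i)) := by
  unfold kidArg
  rcases hc : tchild d w i with _ | c
  · simp
  · simp only [Finset.mem_singleton, Option.some.injEq]
    constructor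
    · intro h; exact ⟨c, rfl, h⟩
    · rintro ⟨c', rfl, h⟩; exact h

/-- the circuit of the tree network -/
abbrev treeCircuit (d p : ℕ) [Fact p.Prime] : Circuit ((tree d).Var p) where
  G := TG d p
  kind := tkind d
  args := targs d
  rk := trk d
  rk_lt := by
    intro g h hh
    cases g with
    | var w γ => simp [targs] at hh
    | prod w γ =>
      simp only [targs, Finset.mem_insert, Finset.mem_biUnion, Finset.mem_univ, true_and] at hh
      rcases hh with rfl | ⟨i, hi⟩
      · simp [trk]
      · obtain ⟨c, hc, rfl⟩ := (mem_kidArg w γ i h).mp hi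
        have := ht_child d w i c hc
        simp only [trk]; omega
    | sum w a =>
      simp only [targs, Finset.mem_image] at hh
      obtain ⟨γ, _, rfl⟩ := hh
      simp [trk]
    | out =>
      simp only [targs, Finset.mem_image] at hh
      obtain ⟨a, _, rfl⟩ := hh
      simp [trk, ht_root]
  out := TG.out

/-! ### size -/

lemma card_TW : ∀ d : ℕ, 2 * Fintype.card (TW d) + 1 = 3 ^ (d + 1)
  | 0 => by
    rw [← Fintype.card_congr TW.equiv0]; simp
  | d + 1 => by
    rw [← Fintype.card_congr (TW.equiv d), Fintype.card_option, Fintype.card_prod, Fintype.card_fin]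
    have := card_TW d
    rw [pow_succ]
    omega

lemma sum_TG {M : Type} [AddCommMonoid M] (d : ℕ) (f : TG d p → M) :
    ∑ g, f g = (∑ w, ∑ γ, f (TG.var w γ)) + (∑ w, ∑ γ, f (TG.prod w γ)) +
      ((∑ w, ∑ a, f (TG.sum w a)) + f TG.out) := by
  rw [← Equiv.sum_comp (TG.equiv d p) f, Fintype.sum_sum_type, Fintype.sum_sum_type,
    Fintype.sum_sum_type, Fintype.sum_prod_type, Fintype.sum_prod_type, Fintype.sum_prod_type]
  simp [TG.equiv]

lemma treeCircuit_size (d : ℕ) : (treeCircuit d p).size ≤ 10 * (Fintype.card (TW d) * p ^ 4) := by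
  have hp := (Fact.out : p.Prime).two_le
  unfold Circuit.size
  have h := sum_TG (p := p) d (fun g => 1 + (targs d g).card)
  have hle : (∑ g : (treeCircuit d p).G, (1 + ((treeCircuit d p).args g).card))
      = ∑ g : TG d p, (1 + (targs d g).card) := rfl
  rw [hle, h]
  have hc4 : Fintype.card (Option (Fin 3) → ZMod p) = p ^ 4 := by
    rw [Fintype.card_fun, ZMod.card]; rfl
  have h1 : (∑ w : TW d, ∑ γ : Option (Fin 3) → ZMod p, (1 + (targs d (TG.var w γ)).card))
      = Fintype.card (TW d) * p ^ 4 := by
    simp [targs, hc4]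
  have h2 : (∑ w : TW d, ∑ γ : Option (Fin 3) → ZMod p, (1 + (targs d (TG.prod w γ)).card))
      ≤ 5 * (Fintype.card (TW d) * p ^ 4) := by
    have : ∀ (w : TW d) (γ : Option (Fin 3) → ZMod p), 1 + (targs d (TG.prod w γ)).card ≤ 5 := by
      intro w γ
      have hb : (univ.biUnion (kidArg w γ)).card ≤ 3 := by
        calc _ ≤ ∑ i : Fin 3, (kidArg w γ i).card := Finset.card_biUnion_le
          _ ≤ ∑ _i : Fin 3, 1 := Finset.sum_le_sum (fun i _ => by
            unfold kidArg
            rcases tchild d w i with _ | c <;> simp)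
          _ = 3 := by simp
      have := Finset.card_insert_le (TG.var w γ) (univ.biUnion (kidArg w γ))
      simp only [targs]
      omega
    calc _ ≤ ∑ w : TW d, ∑ γ : Option (Fin 3) → ZMod p, 5 :=
          Finset.sum_le_sum (fun w _ => Finset.sum_le_sum (fun γ _ => this w γ))
      _ = 5 * (Fintype.card (TW d) * p ^ 4) := by
        simp only [Finset.sum_const, Finset.card_univ, hc4, smul_eq_mul]; ring
  have h3 : (∑ w : TW d, ∑ a : ZMod p, (1 + (targs d (TG.sum w a)).card))
      ≤ 2 * (Fintype.card (TW d) * p ^ 4) := by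
    have : ∀ w : TW d, ∑ a : ZMod p, (1 + (targs d (TG.sum w a)).card) ≤ 2 * p ^ 4 := by
      intro w
      rw [Finset.sum_add_distrib]
      have e1 : ∑ _a : ZMod p, 1 = p := by simp [ZMod.card]
      have e2 : ∑ a : ZMod p, (targs d (TG.sum w a)).card ≤ p ^ 4 := by
        calc _ ≤ ∑ a : ZMod p, (univ.filter (fun γ : Option (Fin 3) → ZMod p => γ none = a)).card :=
              Finset.sum_le_sum (fun a _ => Finset.card_image_le)
          _ = (univ : Finset (Option (Fin 3) → ZMod p)).card := by
            rw [Finset.card_eq_sum_card_fiberwise (f := fun γ : Option (Fin 3) → ZMod p => γ none)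
              (t := univ) (fun _ _ => Finset.mem_univ _)]
          _ = p ^ 4 := by rw [Finset.card_univ, hc4]
      rw [e1]
      have : p ≤ p ^ 4 := Nat.le_self_pow (by norm_num) p
      omega
    calc _ ≤ ∑ _w : TW d, 2 * p ^ 4 := Finset.sum_le_sum (fun w _ => this w)
      _ = _ := by simp only [Finset.sum_const, Finset.card_univ, smul_eq_mul]; ring
  have h4 : (1 + (targs d (TG.out : TG d p)).card) ≤ 2 * (Fintype.card (TW d) * p ^ 4) := by
    have e1 : (targs d (TG.out : TG d p)).card ≤ p := by
      simp only [targs]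
      exact le_trans Finset.card_image_le (by simp [ZMod.card])
    have e2 : 1 ≤ Fintype.card (TW d) := Fintype.card_pos_iff.mpr ⟨troot d⟩
    have e3 : p ≤ p ^ 4 := Nat.le_self_pow (by norm_num) p
    nlinarith [Nat.mul_le_mul e2 e3]
  rw [h1]
  omega

/-! ### value -/

/-- the inclusion of the variables of the `i`-th subtree -/
def inc (d : ℕ) (p : ℕ) (i : Fin 3) (x : (tree d).Var p) : (tree (d + 1)).Var p := (TW.sub d i x.1, x.2)

/-- the polynomials of the rooted subtrees -/
noncomputable def SP : (d : ℕ) → TW d → ZMod p → MvPolynomial ((tree d).Var p) ℂ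
  | _, TW.leaf, a => ∑ γ : Option (Fin 3) → ZMod p, if γ none = a then
      MvPolynomial.X ((TW.leaf, γ) : (tree 0).Var p) else 0
  | _, TW.top d, a => ∑ γ : Option (Fin 3) → ZMod p, if γ none = a then
      MvPolynomial.X ((TW.top d, γ) : (tree (d+1)).Var p) *
        ∏ i, MvPolynomial.rename (inc d p i) (SP d (troot d) (γ (some i))) else 0
  | _, TW.sub d i v, a => MvPolynomial.rename (inc d p i) (SP d v a)

/-- factor coming from the `i`-th child -/
noncomputable def fac (d : ℕ) (w : TW d) (γ : Option (Fin 3) → ZMod p) (i : Fin 3) :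
    MvPolynomial ((tree d).Var p) ℂ :=
  match tchild d w i with
  | none => 1
  | some c => SP d c (γ (some i))

lemma fac_sub (d : ℕ) (j : Fin 3) (v : TW d) (γ : Option (Fin 3) → ZMod p) (i : Fin 3) :
    fac (d + 1) (TW.sub d j v) γ i = MvPolynomial.rename (inc d p j) (fac d v γ i) := by
  unfold fac
  rcases hc : tchild d v i with _ | c
  · have : tchild (d + 1) (TW.sub d j v) i = none := by simp [tchild, hc]
    rw [this]; simp
  · have : tchild (d + 1) (TW.sub d j v) i = some (TW.sub d j c) := by simp [tchild, hc]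
    rw [this]
    simp only [SP]

lemma fac_top (d : ℕ) (γ : Option (Fin 3) → ZMod p) (i : Fin 3) :
    fac (d + 1) (TW.top d) γ i = MvPolynomial.rename (inc d p i) (SP d (troot d) (γ (some i))) := by
  unfold fac
  have : tchild (d + 1) (TW.top d) i = some (TW.sub d i (troot d)) := rfl
  rw [this]
  simp only [SP]

lemma SP_rec (d : ℕ) (w : TW d) (a : ZMod p) : SP d w a = ∑ γ : Option (Fin 3) → ZMod p,
    if γ none = a then MvPolynomial.X ((w, γ) : (tree d).Var p) * ∏ i, fac d w γ i else 0 := by
  induction w with
  | leaf => simp [SP, fac, tchild]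
  | top d =>
    simp only [fac_top]
    rw [SP]
  | sub d j v ih =>
    rw [SP, ih, map_sum]
    refine Finset.sum_congr rfl (fun γ _ => ?_)
    by_cases h : γ none = a
    · rw [if_pos h, if_pos h, map_mul, MvPolynomial.rename_X, map_prod]
      have h1 : inc d p j (v, γ) = (TW.sub d j v, γ) := rfl
      rw [h1]
      simp only [fac_sub]
    · rw [if_neg h, if_neg h, map_zero]

lemma val_prod_sum (d : ℕ) : ∀ (n : ℕ) (w : TW d), ht d w = n →
    (∀ a : ZMod p, (treeCircuit d p).val (TG.sum w a) = SP d w a) := by
  intro n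
  induction n using Nat.strong_induction_on with
  | _ n ih =>
    intro w hw a
    have hprod : ∀ γ : Option (Fin 3) → ZMod p, (treeCircuit d p).val (TG.prod w γ)
        = MvPolynomial.X ((w, γ) : (tree d).Var p) * ∏ i, fac d w γ i := by
      intro γ
      rw [(treeCircuit d p).val_prod (TG.prod w γ) rfl]
      have ha : (treeCircuit d p).args (TG.prod w γ)
          = insert (TG.var w γ) (univ.biUnion (kidArg w γ)) := rfl
      rw [ha, Finset.prod_insert]
      · rw [(treeCircuit d p).val_var (TG.var w γ) (w, γ) rfl]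
        congr 1
        rw [Finset.prod_biUnion]
        · refine Finset.prod_congr rfl (fun i _ => ?_)
          unfold kidArg fac
          rcases hc : tchild d w i with _ | c
          · simp
          · simp only [Finset.prod_singleton]
            exact ih (ht d c) (by rw [← hw]; exact ht_child d w i c hc) c rfl (γ (some i))
        · intro i _ j _ hij
          rw [Function.onFun, Finset.disjoint_left]
          intro x hx hx'
          obtain ⟨c, hc, rfl⟩ := (mem_kidArg w γ i x).mp hx
          obtain ⟨c', hc', hcc⟩ := (mem_kidArg w γ j _).mp hx'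
          have h1 := (TG.sum.inj hcc).1
          subst h1
          have h2 := (tchild_ne_root d w i c hc).2
          have h3 := (tchild_ne_root d w j c hc').2
          rw [h2] at h3
          have h4 := (Prod.mk.inj h3).2
          exact hij (Option.some.inj h4)
      · rw [Finset.mem_biUnion]
        rintro ⟨i, _, hi⟩
        obtain ⟨c, _, hc⟩ := (mem_kidArg w γ i _).mp hi
        exact absurd hc (by simp)
    rw [(treeCircuit d p).val_sum (TG.sum w a) rfl]
    have ha : (treeCircuit d p).args (TG.sum w a)
        = (univ.filter (fun γ : Option (Fin 3) → ZMod p => γ none = a)).image (TG.prod w) := rfl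
    rw [ha, Finset.sum_image (fun γ _ γ' _ h => (TG.prod.inj h).2), Finset.sum_filter, SP_rec]
    refine Finset.sum_congr rfl (fun γ _ => ?_)
    rw [hprod]

/-- splitting an assignment -/
def labEquiv (d p : ℕ) : ((Option (Fin 3) → ZMod p) × (Fin 3 → (tree d).Lab p)) ≃ (tree (d + 1)).Lab p where
  toFun x := fun w => match w with
    | TW.top _ => x.1
    | TW.sub _ i v => x.2 i v
  invFun α := (α (TW.top d), fun i v => α (TW.sub d i v))
  left_inv x := rfl
  right_inv α := by
    funext w
    cases w <;> rfl

lemma cons_succ (d : ℕ) (x : (Option (Fin 3) → ZMod p) × (Fin 3 → (tree d).Lab p)) :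
    (tree (d + 1)).Cons (labEquiv d p x) ↔
      ∀ i, (tree d).Cons (x.2 i) ∧ x.2 i (troot d) none = x.1 (some i) := by
  constructor
  · intro h i
    constructor
    · intro v
      show x.2 i (tup d v).1 (tup d v).2 = x.2 i v none
      by_cases hv : v = troot d
      · subst hv; rw [tup_root]
      · have h1 := h (TW.sub d i v)
        simp only [tup, if_neg hv] at h1
        exact h1
    · have h1 := h (TW.sub d i (troot d))
      simp only [tup, if_true] at h1
      exact h1.symm
  · intro h w
    cases w with
    | top _ => rfl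
    | sub _ i v =>
      by_cases hv : v = troot d
      · subst hv
        simp only [tup, if_true]
        exact (h i).2.symm
      · simp only [tup, if_neg hv]
        exact (h i).1 v

lemma prod_TW (d : ℕ) {M : Type} [CommMonoid M] (f : TW (d + 1) → M) :
    ∏ w, f w = f (TW.top d) * ∏ i, ∏ v, f (TW.sub d i v) := by
  rw [← Equiv.prod_comp (TW.equiv d) f, Fintype.prod_option, Fintype.prod_prod_type]
  rfl

lemma SP_root : ∀ (d : ℕ) (a : ZMod p), SP d (troot d) a = ∑ α : (tree d).Lab p,
    if (tree d).Cons α ∧ α (troot d) none = a then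
      ∏ w, MvPolynomial.X ((w, α w) : (tree d).Var p) else 0
  | 0, a => by
    have hcons : ∀ α : (tree 0).Lab p, (tree 0).Cons α := by
      intro α w
      cases w
      rfl
    let he : (Option (Fin 3) → ZMod p) ≃ (tree 0).Lab p :=
      { toFun := fun γ _ => γ
        invFun := fun α => α TW.leaf
        left_inv := fun _ => rfl
        right_inv := fun α => by funext w; cases w; rfl }
    rw [← Equiv.sum_comp he]
    show SP 0 TW.leaf a = _
    rw [SP]
    refine Finset.sum_congr rfl (fun γ _ => ?_)
    have h1 : ((tree 0).Cons (he γ) ∧ he γ (troot 0) none = a) ↔ γ none = a := by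
      constructor
      · exact fun h => h.2
      · exact fun h => ⟨hcons _, h⟩
    have h2 : (∏ w, MvPolynomial.X ((w, he γ w) : (tree 0).Var p) : MvPolynomial ((tree 0).Var p) ℂ)
        = MvPolynomial.X ((TW.leaf, γ) : (tree 0).Var p) := by
      rw [← Equiv.prod_comp TW.equiv0]
      simp [he, TW.equiv0]
    rw [h2]
    simp only [h1]
  | d + 1, a => by
    have ih := SP_root d
    show SP (d + 1) (TW.top d) a = _
    rw [SP, ← Equiv.sum_comp (labEquiv d p), Fintype.sum_prod_type]
    refine Finset.sum_congr rfl (fun γ _ => ?_)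
    have h1 : ∀ y : Fin 3 → (tree d).Lab p,
        (if (tree (d + 1)).Cons (labEquiv d p (γ, y)) ∧ (labEquiv d p (γ, y)) (troot (d + 1)) none = a then
          (∏ w, MvPolynomial.X ((w, labEquiv d p (γ, y) w) : (tree (d + 1)).Var p) :
            MvPolynomial ((tree (d + 1)).Var p) ℂ) else 0)
        = if γ none = a then MvPolynomial.X ((TW.top d, γ) : (tree (d + 1)).Var p) *
            ∏ i, (if (tree d).Cons (y i) ∧ y i (troot d) none = γ (some i) then
              ∏ v, MvPolynomial.X ((TW.sub d i v, y i v) : (tree (d + 1)).Var p) else 0) else 0 := by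
      intro y
      have hcs := cons_succ d (γ, y)
      have e1 : (labEquiv d p (γ, y)) (troot (d + 1)) none = γ none := rfl
      by_cases ha : γ none = a
      · rw [if_pos ha]
        by_cases hc : ∀ i, (tree d).Cons (y i) ∧ y i (troot d) none = γ (some i)
        · rw [if_pos ⟨hcs.mpr hc, ha⟩]
          have e2 := prod_TW d (fun w => (MvPolynomial.X ((w, labEquiv d p (γ, y) w) :
            (tree (d + 1)).Var p) : MvPolynomial ((tree (d + 1)).Var p) ℂ))
          have e3 : (∏ i, (if (tree d).Cons (y i) ∧ y i (troot d) none = γ (some i) then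
              (∏ v, MvPolynomial.X ((TW.sub d i v, y i v) : (tree (d + 1)).Var p) :
                MvPolynomial ((tree (d + 1)).Var p) ℂ) else 0))
              = ∏ i, ∏ v, MvPolynomial.X ((TW.sub d i v, y i v) : (tree (d + 1)).Var p) :=
            Finset.prod_congr rfl (fun i _ => if_pos (hc i))
          rw [e3]
          exact e2
        · rw [if_neg (fun h => hc (hcs.mp h.1))]
          push Not at hc
          obtain ⟨i, hi⟩ := hc
          rw [Finset.prod_eq_zero (Finset.mem_univ i), mul_zero]
          rw [if_neg]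
          rintro ⟨h1, h2⟩
          exact hi h1 h2
      · rw [if_neg ha, if_neg (fun h => ha h.2)]
    simp only [h1]
    by_cases ha : γ none = a
    · simp only [if_pos ha]
      rw [← Finset.mul_sum]
      congr 1
      have h2 : ∀ i : Fin 3, MvPolynomial.rename (inc d p i) (SP d (troot d) (γ (some i)))
          = ∑ z : (tree d).Lab p, (if (tree d).Cons z ∧ z (troot d) none = γ (some i) then
              ∏ v, MvPolynomial.X ((TW.sub d i v, z v) : (tree (d + 1)).Var p) else 0) := by
        intro i
        rw [ih, map_sum]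
        refine Finset.sum_congr rfl (fun z _ => ?_)
        split_ifs
        · rw [map_prod]
          refine Finset.prod_congr rfl (fun v _ => ?_)
          rw [MvPolynomial.rename_X]
          rfl
        · rw [map_zero]
      simp only [h2]
      rw [Finset.prod_univ_sum]
      rw [Fintype.piFinset_univ]
    · simp only [if_neg ha, Finset.sum_const_zero]

/-- the tree circuit computes the network polynomial -/
theorem treeCircuit_val (d : ℕ) : (treeCircuit d p).val (treeCircuit d p).out = (tree d).poly p := by
  rw [(treeCircuit d p).val_sum _ rfl]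
  have ha : (treeCircuit d p).args (treeCircuit d p).out
      = univ.image (fun a : ZMod p => (TG.sum (troot d) a : TG d p)) := rfl
  rw [ha, Finset.sum_image (fun a _ a' _ h => (TG.sum.inj h).2)]
  have h1 : ∀ a : ZMod p, (treeCircuit d p).val (TG.sum (troot d) a) = SP d (troot d) a :=
    fun a => val_prod_sum d _ (troot d) rfl a
  simp only [h1, SP_root]
  rw [Finset.sum_comm]
  unfold Net.poly
  refine Finset.sum_congr rfl (fun α _ => ?_)
  by_cases hc : (tree d).Cons α
  · rw [if_pos hc]
    simp only [hc, true_and]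
    rw [Finset.sum_ite_eq]
    simp
  · rw [if_neg hc]
    simp only [hc, false_and, if_false, Finset.sum_const_zero]

/-! ### symmetry -/

/-- the affine permutation `x ↦ u x + t` -/
def aff (g : (ZMod p)ˣ × ZMod p) : Equiv.Perm (ZMod p) where
  toFun x := (g.1 : ZMod p) * x + g.2
  invFun x := ((g.1⁻¹ : (ZMod p)ˣ) : ZMod p) * (x - g.2)
  left_inv x := by
    show ((g.1⁻¹ : (ZMod p)ˣ) : ZMod p) * (((g.1 : ZMod p) * x + g.2) - g.2) = x
    rw [add_sub_cancel_right, ← mul_assoc, Units.inv_mul, one_mul]
  right_inv x := by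
    show (g.1 : ZMod p) * (((g.1⁻¹ : (ZMod p)ˣ) : ZMod p) * (x - g.2)) + g.2 = x
    rw [← mul_assoc, Units.mul_inv, one_mul, sub_add_cancel]

/-- the action on the values at a slot -/
def slot (N : Net) (g : N.E → (ZMod p)ˣ × ZMod p) (w : N.W) (s : N.S) : Equiv.Perm (ZMod p) :=
  match N.edge w s with
  | none => 1
  | some e => aff (g e)

lemma act_eq (N : Net) (g : N.E → (ZMod p)ˣ × ZMod p) (w : N.W) (γ : N.S → ZMod p) :
    N.act g (w, γ) = (w, fun s => slot N g w s (γ s)) := by
  unfold Net.act slot
  simp only
  congr 1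
  funext s
  rcases N.edge w s with _ | e
  · rfl
  · rfl

/-- the automorphism of the tree circuit -/
def tperm (d : ℕ) (g : TW d → (ZMod p)ˣ × ZMod p) : Equiv.Perm (TG d p) where
  toFun x := match x with
    | TG.var w γ => TG.var w (fun s => slot (tree d) g w s (γ s))
    | TG.prod w γ => TG.prod w (fun s => slot (tree d) g w s (γ s))
    | TG.sum w a => TG.sum w (aff (g w) a)
    | TG.out => TG.out
  invFun x := match x with
    | TG.var w γ => TG.var w (fun s => (slot (tree d) g w s).symm (γ s))
    | TG.prod w γ => TG.prod w (fun s => (slot (tree d) g w s).symm (γ s))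
    | TG.sum w a => TG.sum w ((aff (g w)).symm a)
    | TG.out => TG.out
  left_inv x := by
    cases x with
    | var w γ => exact congrArg (TG.var w) (funext fun s => Equiv.symm_apply_apply _ _)
    | prod w γ => exact congrArg (TG.prod w) (funext fun s => Equiv.symm_apply_apply _ _)
    | sum w a => exact congrArg (TG.sum w) (Equiv.symm_apply_apply _ _)
    | out => rfl
  right_inv x := by
    cases x with
    | var w γ => exact congrArg (TG.var w) (funext fun s => Equiv.apply_symm_apply _ _)
    | prod w γ => exact congrArg (TG.prod w) (funext fun s => Equiv.apply_symm_apply _ _)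
    | sum w a => exact congrArg (TG.sum w) (Equiv.apply_symm_apply _ _)
    | out => rfl

theorem treeCircuit_symm (d : ℕ) (g : TW d → (ZMod p)ˣ × ZMod p) :
    (treeCircuit d p).SymmUnder ((tree d).act g) := by
  refine ⟨tperm d g, rfl, ?_⟩
  intro x
  cases x with
  | var w γ =>
    refine ⟨rfl, ?_⟩
    show Kind.var _ = Kind.var _
    rw [act_eq]
  | prod w γ =>
    refine ⟨?_, rfl⟩
    show insert _ (univ.biUnion _) = (insert _ (univ.biUnion _)).map _
    rw [Finset.map_insert]
    congr 1
    ext h
    rw [Finset.mem_map, Finset.mem_biUnion]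
    constructor
    · rintro ⟨i, _, hi⟩
      obtain ⟨c, hc, rfl⟩ := (mem_kidArg _ _ _ _).mp hi
      refine ⟨TG.sum c (γ (some i)), ?_, ?_⟩
      · rw [Finset.mem_biUnion]
        exact ⟨i, Finset.mem_univ _, (mem_kidArg _ _ _ _).mpr ⟨c, hc, rfl⟩⟩
      · show TG.sum c (aff (g c) (γ (some i))) = TG.sum c (slot (tree d) g w (some i) (γ (some i)))
        congr 1
        unfold slot
        have : (tree d).edge w (some i) = some c := hc
        rw [this]
    · rintro ⟨h', hh', rfl⟩
      rw [Finset.mem_biUnion] at hh'
      obtain ⟨i, _, hi⟩ := hh'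
      obtain ⟨c, hc, rfl⟩ := (mem_kidArg _ _ _ _).mp hi
      refine ⟨i, Finset.mem_univ _, (mem_kidArg _ _ _ _).mpr ⟨c, hc, ?_⟩⟩
      show TG.sum c (aff (g c) (γ (some i))) = TG.sum c (slot (tree d) g w (some i) (γ (some i)))
      congr 1
      unfold slot
      have : (tree d).edge w (some i) = some c := hc
      rw [this]
  | sum w a =>
    refine ⟨?_, rfl⟩
    show (univ.filter _).image _ = ((univ.filter _).image _).map _
    ext h
    simp only [Finset.mem_image, Finset.mem_map, Finset.mem_filter, Finset.mem_univ, true_and]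
    have hnone : slot (tree d) g w none = aff (g w) := rfl
    constructor
    · rintro ⟨γ, hγ, rfl⟩
      refine ⟨TG.prod w (fun s => (slot (tree d) g w s).symm (γ s)), ⟨_, ?_, rfl⟩, ?_⟩
      · rw [hnone, hγ, Equiv.symm_apply_apply]
      · show TG.prod w _ = TG.prod w γ
        congr 1
        funext s
        simp
    · rintro ⟨_, ⟨γ, hγ, rfl⟩, rfl⟩
      refine ⟨fun s => slot (tree d) g w s (γ s), ?_, rfl⟩
      show slot (tree d) g w none (γ none) = _
      rw [hnone, hγ]
  | out =>
    refine ⟨?_, rfl⟩
    show univ.image _ = (univ.image _).map _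
    ext h
    simp only [Finset.mem_image, Finset.mem_map, Finset.mem_univ, true_and]
    constructor
    · rintro ⟨a, rfl⟩
      refine ⟨TG.sum (troot d) ((aff (g (troot d))).symm a), ⟨_, rfl⟩, ?_⟩
      show TG.sum _ _ = TG.sum _ _
      congr 1
      simp
    · rintro ⟨_, ⟨a, rfl⟩, rfl⟩
      exact ⟨aff (g (troot d)) a, rfl⟩

end H522R2.Eqv
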