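import Mathlib

/-!
Definitions: tensor networks and their polynomials, algebraic branching programs, arithmetic circuits and
determinantal representations with symmetries, the ternary tree networks.
-/

namespace H522R2.Eqv

open Finset BigOperators

set_option linter.unusedSectionVars false

/-! ### tensor networks and branching programs -/

/-- A tensor network: `W` is the set of vertices ('blocks'), every vertex has the slots `S`; a slot may be
dangling (`edge w s = none`) or belong to an edge; each edge `e` joins the two slots `a e` and `b e`
(if `a e = b e`, the edge is a single dangling slot that is nevertheless named). -/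
structure Net where
  W : Type
  S : Type
  E : Type
  [fW : Fintype W]
  [dW : DecidableEq W]
  [fS : Fintype S]
  [dS : DecidableEq S]
  [fE : Fintype E]
  [dE : DecidableEq E]
  edge : W → S → Option E
  a : E → W × S
  b : E → W × S
  edge_a : ∀ e, edge (a e).1 (a e).2 = some e
  edge_b : ∀ e, edge (b e).1 (b e).2 = some e
  edge_eq : ∀ w s e, edge w s = some e → (w, s) = a e ∨ (w, s) = b e

attribute [instance] Net.fW Net.dW Net.fS Net.dS Net.fE Net.dE

/-- the variables of the network polynomial: one variable for each vertex and each assignment of elements of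
`ZMod p` to its slots -/
abbrev Net.Var (N : Net) (p : ℕ) : Type := N.W × (N.S → ZMod p)

/-- assignments of elements of `ZMod p` to all slots of all vertices -/
abbrev Net.Lab (N : Net) (p : ℕ) : Type := N.W → N.S → ZMod p

/-- the two slots of every edge carry the same value -/
def Net.Cons (N : Net) {p : ℕ} (α : N.Lab p) : Prop :=
  ∀ e, α (N.a e).1 (N.a e).2 = α (N.b e).1 (N.b e).2

instance (N : Net) {p : ℕ} (α : N.Lab p) : Decidable (N.Cons α) := by
  unfold Net.Cons; infer_instance

variable {p : ℕ} [Fact p.Prime]

/-- The network polynomial `∑_α ∏_w X_(w, α w)`, the sum over all assignments which agree on the two slots of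
every edge. -/
noncomputable def Net.poly (N : Net) (p : ℕ) [Fact p.Prime] : MvPolynomial (N.Var p) ℂ :=
  ∑ α : N.Lab p, if N.Cons α then ∏ w, MvPolynomial.X (w, α w) else 0

/-- An element of the group `AGL(1,p)^E`, given by a slope (unit) and a translation for each edge, acts on the
variables by acting on the index values at the two slots of each edge. -/
def Net.act (N : Net) (g : N.E → (ZMod p)ˣ × ZMod p) (x : N.Var p) : N.Var p :=
  (x.1, fun s => match N.edge x.1 s with
    | none => x.2 s
    | some e => ((g e).1 : ZMod p) * x.2 s + (g e).2)

/-- An algebraic branching program with vertex set `V`: the edge from `i` to `j` carries the affine form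
`A0 i j + ∑ x, A x i j * X x`; the function `rk` certifies that the graph has no directed cycles. -/
structure ABP (σ : Type) (V : Type) where
  A0 : Matrix V V ℂ
  A : σ → Matrix V V ℂ
  rk : V → ℕ
  acyc0 : ∀ i j, rk j ≤ rk i → A0 i j = 0
  acyc : ∀ x i j, rk j ≤ rk i → A x i j = 0
  s : V
  t : V

variable {σ : Type} [Fintype σ] [DecidableEq σ] {V : Type} [Fintype V] [DecidableEq V]

/-- the matrix of edge labels -/
noncomputable def ABP.mat (B : ABP σ V) : Matrix V V (MvPolynomial σ ℂ) :=
  fun i j => MvPolynomial.C (B.A0 i j) + ∑ x, MvPolynomial.C (B.A x i j) * MvPolynomial.X x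

/-- an upper bound for the lengths of directed paths, plus one -/
def ABP.len (B : ABP σ V) : ℕ := univ.sup B.rk + 1

/-- the polynomial computed: the sum over all directed paths (of any length) from `s` to `t` of the product of
the edge labels -/
noncomputable def ABP.value (B : ABP σ V) : MvPolynomial σ ℂ :=
  (∑ k ∈ range B.len, B.mat ^ k) B.s B.t

/-- `B` is symmetric under the permutation `f` of the variables: there is an invertible matrix `R` fixing the
source (row) vector and the target (column) vector with `R A_x R⁻¹ = A_(f x)` for each variable `x` and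
`R A_0 R⁻¹ = A_0`.  (An automorphism of the labelled graph fixing `s` and `t` is the case of a permutation
matrix `R`.) -/
def ABP.SymmUnder (B : ABP σ V) (f : σ → σ) : Prop :=
  ∃ R : Matrix V V ℂ, IsUnit R ∧
    (∀ j, R B.s j = if j = B.s then 1 else 0) ∧
    (∀ i, R i B.t = if i = B.t then 1 else 0) ∧
    R * B.A0 = B.A0 * R ∧ ∀ x, R * B.A x = B.A (f x) * R

/-! ### boundaries and cutwidth -/

/-- edges with exactly one endpoint in `A` -/
def Net.bd (N : Net) (A : Finset N.W) : Finset N.E :=
  univ.filter (fun e => ¬ ((N.a e).1 ∈ A ↔ (N.b e).1 ∈ A))

/-- `Good N k A`: the vertices outside `A` can be added one at a time so that all sets on the way, `A` and the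
full set included, have fewer than `k` boundary edges. -/
inductive Good (N : Net) (k : ℕ) : Finset N.W → Prop
  | top : (N.bd univ).card < k → Good N k univ
  | step (A : Finset N.W) (w : N.W) : w ∉ A → (N.bd A).card < k → Good N k (insert w A) → Good N k A

/-! ### circuits -/

section circuits

/-- kinds of gates -/
inductive Kind (σ : Type)
  | var (x : σ)
  | const (c : ℂ)
  | sum
  | prod

/-- renaming the variables -/
def Kind.map {σ : Type} (f : σ → σ) : Kind σ → Kind σ
  | Kind.var x => Kind.var (f x)
  | Kind.const c => Kind.const c
  | Kind.sum => Kind.sum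
  | Kind.prod => Kind.prod

/-- An arithmetic circuit with sum and product gates of arbitrary fan-in: a finite set `G` of gates, `args g` is
the set of the gates feeding `g`; `rk` certifies that the circuit has no directed cycles. -/
structure Circuit (σ : Type) where
  G : Type
  [fG : Fintype G]
  [dG : DecidableEq G]
  kind : G → Kind σ
  args : G → Finset G
  rk : G → ℕ
  rk_lt : ∀ g, ∀ h ∈ args g, rk h < rk g
  out : G

attribute [instance] Circuit.fG Circuit.dG

variable {σ : Type}

/-- the polynomial computed at a gate -/
noncomputable def Circuit.val (C : Circuit σ) (g : C.G) : MvPolynomial σ ℂ :=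
  match C.kind g with
  | Kind.var x => MvPolynomial.X x
  | Kind.const c => MvPolynomial.C c
  | Kind.sum => ∑ h : {h // h ∈ C.args g}, C.val h.1
  | Kind.prod => ∏ h : {h // h ∈ C.args g}, C.val h.1
termination_by C.rk g
decreasing_by
  all_goals exact C.rk_lt g h.1 h.2

/-- number of gates plus number of wires -/
def Circuit.size (C : Circuit σ) : ℕ := ∑ g, (1 + (C.args g).card)

/-- the permutation (or map) `f` of the variables extends to an automorphism of the circuit fixing the output
gate -/
def Circuit.SymmUnder (C : Circuit σ) (f : σ → σ) : Prop :=
  ∃ π : Equiv.Perm C.G, π C.out = C.out ∧ ∀ g, C.args (π g) = (C.args g).map π.toEmbedding ∧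
    C.kind (π g) = (C.kind g).map f

/-- input gates -/
def Kind.isIn : Kind σ → Bool
  | Kind.var _ => true
  | Kind.const _ => true
  | Kind.sum => false
  | Kind.prod => false

/-- A circuit is skew if every product gate has exactly two arguments, at least one of which is an input gate
(a variable or a constant). -/
def Circuit.Skew (C : Circuit σ) : Prop :=
  ∀ g, C.kind g = Kind.prod → ∃ h h', h ≠ h' ∧ C.args g = {h, h'} ∧ (C.kind h').isIn = true

end circuits

/-! ### determinantal representations -/

variable {m : ℕ}

/-- A determinantal representation of size `m`: the `m × m` matrix `A0 + ∑ x, A x * X x` of affine forms. -/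
structure DetRep (σ : Type) (m : ℕ) where
  A0 : Matrix (Fin m) (Fin m) ℂ
  A : σ → Matrix (Fin m) (Fin m) ℂ

/-- the matrix of affine forms -/
noncomputable def DetRep.mat (D : DetRep σ m) : Matrix (Fin m) (Fin m) (MvPolynomial σ ℂ) :=
  fun i j => MvPolynomial.C (D.A0 i j) + ∑ x, MvPolynomial.C (D.A x i j) * MvPolynomial.X x

/-- the polynomial represented -/
noncomputable def DetRep.value (D : DetRep σ m) : MvPolynomial σ ℂ := D.mat.det

/-- The representation respects the permutation `f` of the variables (Landsberg–Ressayre): substituting `f` in
the matrix `M` of affine forms gives `B M C` or `B Mᵀ C` with invertible scalar matrices `B`, `C`. -/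
def DetRep.Respects (D : DetRep σ m) (f : σ → σ) : Prop :=
  ∃ B C : Matrix (Fin m) (Fin m) ℂ, IsUnit B ∧ IsUnit C ∧
    ((B * D.A0 * C = D.A0 ∧ ∀ x, B * D.A x * C = D.A (f x)) ∨
     (B * D.A0.transpose * C = D.A0 ∧ ∀ x, B * (D.A x).transpose * C = D.A (f x)))

/-! ### ternary trees -/

/-- The vertices of the complete ternary tree of depth `d`: a single leaf for `d = 0`, otherwise the root
`top` and the vertices `sub i v` of the three subtrees. -/
inductive TW : ℕ → Type
  | leaf : TW 0
  | top (d : ℕ) : TW (d + 1)
  | sub (d : ℕ) (i : Fin 3) (v : TW d) : TW (d + 1)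
  deriving DecidableEq

/-- the recursion for the vertex set -/
def TW.equiv (d : ℕ) : Option (Fin 3 × TW d) ≃ TW (d + 1) where
  toFun x := match x with
    | none => TW.top d
    | some (i, v) => TW.sub d i v
  invFun x := match x with
    | TW.top _ => none
    | TW.sub _ i v => some (i, v)
  left_inv x := by rcases x with _ | ⟨i, v⟩ <;> rfl
  right_inv x := by cases x <;> rfl

def TW.equiv0 : Unit ≃ TW 0 where
  toFun _ := TW.leaf
  invFun _ := ()
  left_inv _ := rfl
  right_inv x := by cases x; rfl

instance instFTW : (d : ℕ) → Fintype (TW d)
  | 0 => Fintype.ofEquiv Unit TW.equiv0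
  | d + 1 =>
    have := instFTW d
    Fintype.ofEquiv (Option (Fin 3 × TW d)) (TW.equiv d)

/-- the root -/
def troot : (d : ℕ) → TW d
  | 0 => TW.leaf
  | d + 1 => TW.top d

/-- children: `tchild d v i` is the `i`-th child of `v`, if `v` is not a leaf -/
def tchild : (d : ℕ) → TW d → Fin 3 → Option (TW d)
  | _, TW.leaf, _ => none
  | _, TW.top d, i => some (TW.sub d i (troot d))
  | _, TW.sub d j v, i => (tchild d v i).map (fun c => TW.sub d j c)

/-- The slots of a vertex are `none` (towards the parent) and `some i` (towards the `i`-th child).  The edge
from a vertex to its parent is named by the vertex. -/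
def tedge (d : ℕ) (v : TW d) : Option (Fin 3) → Option (TW d)
  | none => some v
  | some i => tchild d v i

/-- the parent side of the edge named by `v` (for the root: the same slot as the child side) -/
def tup : (d : ℕ) → TW d → TW d × Option (Fin 3)
  | _, TW.leaf => (TW.leaf, none)
  | _, TW.top d => (TW.top d, none)
  | _, TW.sub d i v => if v = troot d then (TW.top d, some i) else
      (TW.sub d i (tup d v).1, (tup d v).2)

lemma tup_root (d : ℕ) : tup d (troot d) = (troot d, none) := by
  cases d <;> rfl

lemma sub_ne_root (d : ℕ) (i : Fin 3) (v : TW d) : TW.sub d i v ≠ troot (d + 1) := by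
  simp [troot]

lemma tedge_tup (d : ℕ) (v : TW d) : tedge d (tup d v).1 (tup d v).2 = some v := by
  induction v with
  | leaf => rfl
  | top d => rfl
  | sub d i v ih =>
    simp only [tup]
    split_ifs with h
    · subst h; rfl
    · rcases hs : (tup d v).2 with _ | q
      · rw [hs] at ih
        simp only [tedge, Option.some.injEq] at ih ⊢
        rw [ih]
      · rw [hs] at ih
        simp only [tedge] at ih ⊢
        simp only [tchild, ih, Option.map_some]

lemma tchild_ne_root (d : ℕ) (v : TW d) (i : Fin 3) (c : TW d) (h : tchild d v i = some c) :
    c ≠ troot d ∧ tup d c = (v, some i) := by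
  induction v with
  | leaf => simp [tchild] at h
  | top d =>
    simp only [tchild, Option.some.injEq] at h
    subst h
    exact ⟨sub_ne_root _ _ _, by simp [tup]⟩
  | sub d j v ih =>
    simp only [tchild, Option.map_eq_some_iff] at h
    obtain ⟨c', hc', rfl⟩ := h
    obtain ⟨h1, h2⟩ := ih c' hc'
    exact ⟨sub_ne_root _ _ _, by simp [tup, h1, h2]⟩

/-- the network of the complete ternary tree of depth `d` -/
abbrev tree (d : ℕ) : Net where
  W := TW d
  S := Option (Fin 3)
  E := TW d
  edge := tedge d
  a := tup d
  b := fun v => (v, none)
  edge_a := tedge_tup d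
  edge_b := fun _ => rfl
  edge_eq := by
    intro w s e h
    rcases s with _ | i
    · right
      simp only [tedge, Option.some.injEq] at h
      rw [h]
    · left
      rw [(tchild_ne_root d w i e h).2]

end H522R2.Eqv
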