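import Pool.Agent.H522R2.EqvAbs
import Pool.Agent.H522R2.EqvDefs

/-!
Tensor networks, their polynomials, algebraic branching programs with linear symmetries, and the lower
bound `(p-1)^k` for symmetric branching programs, where `k` is the cutwidth of the network.
-/

namespace H522R2.Eqv

open Finset BigOperators

set_option linter.unusedSectionVars false

variable {p : ℕ} [Fact p.Prime]

variable {σ : Type} [Fintype σ] [DecidableEq σ] {V : Type} [Fintype V] [DecidableEq V]

/-! ### nilpotency -/

lemma pow_upper {R : Type} [CommRing R] (M : Matrix V V R) (rk : V → ℕ)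
    (hM : ∀ i j, rk j ≤ rk i → M i j = 0) (k : ℕ) (i j : V) (h : rk j < rk i + k) :
    (M ^ k) i j = 0 := by
  induction k generalizing j with
  | zero =>
    rw [pow_zero, Matrix.one_apply_ne]
    intro hij
    rw [hij] at h
    simp at h
  | succ k ih =>
    rw [pow_succ, Matrix.mul_apply]
    refine Finset.sum_eq_zero (fun l _ => ?_)
    by_cases hl : rk l < rk i + k
    · rw [ih l hl, zero_mul]
    · rw [hM l j, mul_zero]
      omega

lemma pow_m_zero {R : Type} [CommRing R] (M : Matrix V V R) (rk : V → ℕ)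
    (hM : ∀ i j, rk j ≤ rk i → M i j = 0) : M ^ (univ.sup rk + 1) = 0 := by
  ext i j
  have := Finset.le_sup (f := rk) (Finset.mem_univ j)
  rw [pow_upper M rk hM _ i j (by omega)]
  rfl

lemma ABP.mat_upper (B : ABP σ V) (i j : V) (h : B.rk j ≤ B.rk i) : B.mat i j = 0 := by
  simp [ABP.mat, B.acyc0 i j h, B.acyc _ i j h]

/-- the vector of polynomials computed at the vertices -/
noncomputable def ABP.vec (B : ABP σ V) (j : V) : MvPolynomial σ ℂ :=
  (∑ k ∈ range B.len, B.mat ^ k) B.s j

lemma ABP.vec_eq (B : ABP σ V) (j : V) :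
    B.vec j = (if B.s = j then 1 else 0) + ∑ i, B.vec i * B.mat i j := by
  have h := geom_sum_mul B.mat B.len
  rw [ABP.len, pow_m_zero B.mat B.rk B.mat_upper, zero_sub, mul_sub, mul_one, sub_eq_iff_eq_add] at h
  have h2 : (∑ k ∈ range B.len, B.mat ^ k) = 1 + (∑ k ∈ range B.len, B.mat ^ k) * B.mat := by
    rw [ABP.len, h]; abel
  unfold ABP.vec
  conv_lhs => rw [h2]
  rw [Matrix.add_apply, Matrix.mul_apply, Matrix.one_apply]

/-- the resolvent of the constant part -/
noncomputable def ABP.R0 (B : ABP σ V) : Matrix V V ℂ := ∑ k ∈ range B.len, B.A0 ^ k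

lemma ABP.R0_spec (B : ABP σ V) : (1 - B.A0) * B.R0 = 1 := by
  unfold ABP.R0
  rw [mul_neg_geom_sum, ABP.len, pow_m_zero B.A0 B.rk B.acyc0, sub_zero]

lemma ABP.R0_comm (B : ABP σ V) (R : Matrix V V ℂ) (h : R * B.A0 = B.A0 * R) :
    R * B.R0 = B.R0 * R := by
  unfold ABP.R0
  rw [Finset.mul_sum, Finset.sum_mul]
  refine Finset.sum_congr rfl (fun k _ => ?_)
  exact (Commute.pow_right (show Commute R B.A0 from h) k)

/-! ### coefficients -/

variable (N : Net)

/-- the monomial `∏_{w ∈ A} X_(w, α w)` -/
noncomputable def mono {N : Net} (A : Finset N.W) (α : N.Lab p) : (N.Var p) →₀ ℕ :=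
  ∑ w ∈ A, Finsupp.single (w, α w) 1

lemma mono_apply {N : Net} (A : Finset N.W) (α : N.Lab p) (x : N.Var p) :
    mono A α x = if x.1 ∈ A ∧ x.2 = α x.1 then 1 else 0 := by
  unfold mono
  rw [Finsupp.finsetSum_apply]
  split_ifs with h
  · rw [Finset.sum_eq_single x.1]
    · rw [← h.2]; simp
    · intro w _ hw
      rw [Finsupp.single_apply, if_neg]
      intro h1; apply hw; rw [← h1]
    · intro h1; exact absurd h.1 h1
  · refine Finset.sum_eq_zero (fun w hw => ?_)
    rw [Finsupp.single_apply, if_neg]
    intro h1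
    apply h
    rw [← h1]
    exact ⟨hw, rfl⟩

lemma mono_erase {N : Net} (A : Finset N.W) (α : N.Lab p) (w : N.W) (hw : w ∈ A) :
    mono A α - Finsupp.single (w, α w) 1 = mono (A.erase w) α := by
  have : mono A α = mono (A.erase w) α + Finsupp.single (w, α w) 1 := by
    unfold mono
    rw [Finset.sum_erase_add _ _ hw]
  rw [this, add_tsub_cancel_right]

lemma mono_congr {N : Net} (A : Finset N.W) (α β : N.Lab p) (h : ∀ w ∈ A, α w = β w) :
    mono A α = mono A β := by
  unfold mono
  exact Finset.sum_congr rfl (fun w hw => by rw [h w hw])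

/-- coefficient vectors -/
noncomputable def pc {N : Net} (B : ABP (N.Var p) V) (A : Finset N.W) (α : N.Lab p) : V → ℂ :=
  fun j => MvPolynomial.coeff (mono A α) (B.vec j)

lemma pc_congr {N : Net} (B : ABP (N.Var p) V) (A : Finset N.W) (α β : N.Lab p)
    (h : ∀ w ∈ A, α w = β w) : pc B A α = pc B A β := by
  unfold pc
  rw [mono_congr A α β h]

lemma pc_rec {N : Net} (B : ABP (N.Var p) V) (A : Finset N.W) (α : N.Lab p) :
    pc B A α = (if A = ∅ then Pi.single B.s (1:ℂ) else 0) + Matrix.vecMul (pc B A α) B.A0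
      + ∑ w ∈ A, Matrix.vecMul (pc B (A.erase w) α) (B.A (w, α w)) := by
  funext j
  have h1 : pc B A α j = MvPolynomial.coeff (mono A α) (B.vec j) := rfl
  rw [h1, B.vec_eq j, MvPolynomial.coeff_add, MvPolynomial.coeff_sum]
  have h2 : ∀ i, MvPolynomial.coeff (mono A α) (B.vec i * B.mat i j)
      = pc B A α i * B.A0 i j + ∑ w ∈ A, pc B (A.erase w) α i * B.A (w, α w) i j := by
    intro i
    unfold ABP.mat
    rw [mul_add, MvPolynomial.coeff_add, Finset.mul_sum, MvPolynomial.coeff_sum, mul_comm,
      MvPolynomial.coeff_C_mul, mul_comm]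
    congr 1
    have h3 : ∀ x : N.Var p, MvPolynomial.coeff (mono A α)
        (B.vec i * (MvPolynomial.C (B.A x i j) * MvPolynomial.X x))
        = if x ∈ A.image (fun w => (w, α w)) then
            B.A x i j * MvPolynomial.coeff (mono A α - Finsupp.single x 1) (B.vec i) else 0 := by
      intro x
      have : B.vec i * (MvPolynomial.C (B.A x i j) * MvPolynomial.X x)
          = MvPolynomial.C (B.A x i j) * (B.vec i * MvPolynomial.X x) := by ring
      rw [this, MvPolynomial.coeff_C_mul, MvPolynomial.coeff_mul_X']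
      have hs : x ∈ (mono A α).support ↔ x ∈ A.image (fun w => (w, α w)) := by
        rw [Finsupp.mem_support_iff, mono_apply, Finset.mem_image]
        constructor
        · intro h
          by_cases h' : x.1 ∈ A ∧ x.2 = α x.1
          · exact ⟨x.1, h'.1, by rw [← h'.2]⟩
          · rw [if_neg h'] at h; exact absurd rfl h
        · rintro ⟨w, hw, rfl⟩
          simp [hw]
      by_cases hx : x ∈ A.image (fun w => (w, α w))
      · rw [if_pos (hs.mpr hx), if_pos hx]
      · rw [if_neg (fun h => hx (hs.mp h)), if_neg hx, mul_zero]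
    rw [Finset.sum_congr rfl (fun x _ => h3 x), Finset.sum_ite_mem, Finset.univ_inter,
      Finset.sum_image]
    · refine Finset.sum_congr rfl (fun w hw => ?_)
      rw [mono_erase A α w hw, mul_comm]
      rfl
    · intro w _ w' _ h
      exact (Prod.mk.inj h).1
  rw [Finset.sum_congr rfl (fun i _ => h2 i), Finset.sum_add_distrib]
  simp only [Pi.add_apply, Finset.sum_apply, Matrix.vecMul, dotProduct]
  rw [← add_assoc]
  congr 1
  · congr 1
    by_cases hA : A = ∅
    · subst hA
      rw [if_pos rfl]
      have : mono (∅ : Finset N.W) α = 0 := by unfold mono; simp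
      rw [this]
      by_cases hj : B.s = j
      · subst hj; simp
      · rw [if_neg hj, Pi.single_apply, if_neg (fun h => hj h.symm)]
        simp
    · rw [if_neg hA]
      have hne : mono A α ≠ 0 := by
        intro h
        obtain ⟨w, hw⟩ := Finset.nonempty_iff_ne_empty.mpr hA
        have h4 := DFunLike.congr_fun h (w, α w)
        rw [mono_apply] at h4
        simp [hw] at h4
      split_ifs
      · rw [MvPolynomial.coeff_one, if_neg (fun h => hne h.symm)]; rfl
      · simp
  · rw [Finset.sum_comm]

lemma pc_eq {N : Net} (B : ABP (N.Var p) V) (A : Finset N.W) (α : N.Lab p) :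
    pc B A α = Matrix.vecMul ((if A = ∅ then Pi.single B.s (1:ℂ) else 0)
      + ∑ w ∈ A, Matrix.vecMul (pc B (A.erase w) α) (B.A (w, α w))) B.R0 := by
  have h := pc_rec B A α
  have h1 : Matrix.vecMul (pc B A α) (1 - B.A0) = (if A = ∅ then Pi.single B.s (1:ℂ) else 0)
      + ∑ w ∈ A, Matrix.vecMul (pc B (A.erase w) α) (B.A (w, α w)) := by
    rw [Matrix.vecMul_sub, Matrix.vecMul_one]
    nth_rewrite 1 [h]
    abel
  rw [← h1, Matrix.vecMul_vecMul, B.R0_spec, Matrix.vecMul_one]

/-- the action on assignments -/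
def Net.actLab (N : Net) (g : N.E → (ZMod p)ˣ × ZMod p) (α : N.Lab p) : N.Lab p :=
  fun w => (N.act g (w, α w)).2

lemma act_mk (N : Net) (g : N.E → (ZMod p)ˣ × ZMod p) (α : N.Lab p) (w : N.W) :
    N.act g (w, α w) = (w, N.actLab g α w) := rfl

/-- symmetry of the coefficient vectors -/
lemma pc_equiv {N : Net} (B : ABP (N.Var p) V) (g : N.E → (ZMod p)ˣ × ZMod p)
    (R : Matrix V V ℂ) (hs : ∀ j, R B.s j = if j = B.s then 1 else 0)
    (h0 : R * B.A0 = B.A0 * R) (hR : ∀ x, R * B.A x = B.A (N.act g x) * R) :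
    ∀ (A : Finset N.W) (α : N.Lab p), Matrix.vecMul (pc B A (N.actLab g α)) R = pc B A α := by
  intro A
  induction A using Finset.strongInduction with
  | H A ih =>
    intro α
    rw [pc_eq B A (N.actLab g α), pc_eq B A α, Matrix.vecMul_vecMul, ← B.R0_comm R h0,
      ← Matrix.vecMul_vecMul]
    congr 1
    rw [Matrix.add_vecMul, Matrix.sum_vecMul]
    congr 1
    · split_ifs
      · funext j
        rw [Matrix.single_one_vecMul]
        rw [Matrix.row_apply, hs j, Pi.single_apply]
      · simp
    · refine Finset.sum_congr rfl (fun w hw => ?_)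
      rw [Matrix.vecMul_vecMul, ← act_mk, ← hR, ← Matrix.vecMul_vecMul,
        ih _ (Finset.erase_ssubset hw)]


/-! ### the linear functional -/

/-- the edge weight `δ_{xy} - 1/p` -/
noncomputable def lam (x y : ZMod p) : ℂ := (if x = y then 1 else 0) - 1 / (p : ℂ)

lemma lam_sum_left (x y : ZMod p) : ∑ s : ZMod p, lam (x + s) y = 0 := by
  have hp : (p : ℂ) ≠ 0 := by exact_mod_cast (Fact.out : p.Prime).ne_zero
  unfold lam
  rw [Finset.sum_sub_distrib, Finset.sum_const, Finset.card_univ, ZMod.card]
  have : ∀ s : ZMod p, (if x + s = y then (1:ℂ) else 0) = if s = y - x then 1 else 0 := by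
    intro s
    congr 1
    apply propext
    constructor
    · intro h; rw [← h]; ring
    · intro h; rw [h]; ring
  simp only [this, Finset.sum_ite_eq', Finset.mem_univ, if_true]
  rw [nsmul_eq_mul, mul_one_div_cancel hp, sub_self]

lemma lam_comm (x y : ZMod p) : lam x y = lam y x := by
  unfold lam
  congr 1
  simp only [eq_comm]

lemma lam_sum_right (x y : ZMod p) : ∑ s : ZMod p, lam x (y + s) = 0 := by
  simp only [lam_comm x]
  exact lam_sum_left y x

/-- the product weight -/
noncomputable def Lam {N : Net} (α : N.Lab p) : ℂ :=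
  ∏ e, lam (α (N.a e).1 (N.a e).2) (α (N.b e).1 (N.b e).2)

/-- restriction to the complement of `A` -/
def outp {N : Net} (A : Finset N.W) (α : N.Lab p) : N.Lab p := fun w => if w ∈ A then 0 else α w

/-- the shift of the slots of `A` on boundary edges -/
def sh {N : Net} (A : Finset N.W) (t : {e // e ∈ N.bd A} → ZMod p) : N.Lab p :=
  fun w s => if w ∈ A then
    (match N.edge w s with
      | none => 0
      | some e => if he : e ∈ N.bd A then t ⟨e, he⟩ else 0) else 0

lemma sh_add {N : Net} (A : Finset N.W) (s t : {e // e ∈ N.bd A} → ZMod p) :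
    sh A (s + t) = sh A s + sh A t := by
  funext w q
  simp only [sh, Pi.add_apply]
  split_ifs
  · rcases N.edge w q with _ | e
    · simp
    · simp only
      split_ifs
      · rfl
      · simp
  · simp

lemma sh_zero {N : Net} (A : Finset N.W) : sh A (0 : {e // e ∈ N.bd A} → ZMod p) = 0 := by
  funext w q
  simp only [sh, Pi.zero_apply]
  split_ifs
  · rcases N.edge w q with _ | e
    · simp
    · simp
  · rfl

/-- dilation factor -/
def dl {N : Net} (A : Finset N.W) (h : {e // e ∈ N.bd A} → (ZMod p)ˣ) : N.Lab p :=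
  fun w s => if w ∈ A then
    (match N.edge w s with
      | none => 1
      | some e => if he : e ∈ N.bd A then (h ⟨e, he⟩ : ZMod p) else 1) else 1

lemma dl_sh {N : Net} (A : Finset N.W) (h : {e // e ∈ N.bd A} → (ZMod p)ˣ)
    (t : {e // e ∈ N.bd A} → ZMod p) :
    dl A h * sh A t = sh A (fun b => (h b : ZMod p) * t b) := by
  funext w q
  simp only [sh, dl, Pi.mul_apply]
  split_ifs
  · rcases N.edge w q with _ | e
    · simp
    · simp only
      split_ifs
      · rfl
      · simp
  · simp

lemma Lam_shift {N : Net} (A : Finset N.W) (b : {e // e ∈ N.bd A}) (α : N.Lab p) :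
    ∑ s : ZMod p, Lam (α + sh A (Pi.single b s)) = 0 := by
  classical
  -- the weight factors over the edges; only the factor of `b` changes
  have hval : ∀ (s : ZMod p) (w : N.W) (q : N.S), (α + sh A (Pi.single b s)) w q
      = α w q + (if w ∈ A ∧ N.edge w q = some b.1 then s else 0) := by
    intro s w q
    simp only [Pi.add_apply]
    congr 1
    simp only [sh]
    by_cases hw : w ∈ A
    · rw [if_pos hw]
      rcases h : N.edge w q with _ | e
      · simp
      · simp only [Option.some.injEq]
        by_cases he : e ∈ N.bd A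
        · rw [dif_pos he]
          by_cases heb : e = b.1
          · subst heb
            simp [hw]
          · rw [Pi.single_apply, if_neg (fun h1 => heb (by rw [← h1])), if_neg (fun h1 => heb h1.2)]
        · rw [dif_neg he, if_neg]
          rintro ⟨_, h2⟩
          exact he (h2 ▸ b.2)
    · rw [if_neg hw, if_neg (fun h => hw h.1)]
  have hother : ∀ (s : ZMod p) (e : N.E), e ≠ b.1 →
      lam ((α + sh A (Pi.single b s)) (N.a e).1 (N.a e).2)
        ((α + sh A (Pi.single b s)) (N.b e).1 (N.b e).2)
      = lam (α (N.a e).1 (N.a e).2) (α (N.b e).1 (N.b e).2) := by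
    intro s e he
    rw [hval, hval, N.edge_a, N.edge_b]
    have h1 : ¬ (some e = some b.1) := fun h => he (Option.some.inj h)
    rw [if_neg (fun h => h1 h.2), if_neg (fun h => h1 h.2), add_zero, add_zero]
  have hfac : ∀ s : ZMod p, Lam (α + sh A (Pi.single b s))
      = lam ((α + sh A (Pi.single b s)) (N.a b.1).1 (N.a b.1).2)
        ((α + sh A (Pi.single b s)) (N.b b.1).1 (N.b b.1).2)
        * ∏ e ∈ univ.erase b.1, lam (α (N.a e).1 (N.a e).2) (α (N.b e).1 (N.b e).2) := by
    intro s
    unfold Lam
    rw [← Finset.mul_prod_erase univ _ (Finset.mem_univ b.1)]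
    congr 1
    exact Finset.prod_congr rfl (fun e he => hother s e (Finset.ne_of_mem_erase he))
  simp only [hfac]
  rw [← Finset.sum_mul]
  have hb : ¬ ((N.a b.1).1 ∈ A ↔ (N.b b.1).1 ∈ A) := (Finset.mem_filter.mp b.2).2
  have hz : ∑ s : ZMod p, lam ((α + sh A (Pi.single b s)) (N.a b.1).1 (N.a b.1).2)
        ((α + sh A (Pi.single b s)) (N.b b.1).1 (N.b b.1).2) = 0 := by
    simp only [hval, N.edge_a, N.edge_b]
    by_cases h1 : (N.a b.1).1 ∈ A
    · have h2 : (N.b b.1).1 ∉ A := fun h => hb ⟨fun _ => h, fun _ => h1⟩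
      simp only [h1, h2, true_and, if_true, false_and, if_false, add_zero]
      exact lam_sum_left _ _
    · have h2 : (N.b b.1).1 ∈ A := by
        by_contra h; exact hb ⟨fun h' => absurd h' h1, fun h' => absurd h' h⟩
      simp only [h1, h2, true_and, if_true, false_and, if_false, add_zero]
      exact lam_sum_right _ _
  rw [hz, zero_mul]

/-- **Key lemma.** -/
theorem key {N : Net} (B : ABP (N.Var p) V) (H : Subgroup (ZMod p)ˣ)
    (hB : ∀ g : N.E → (ZMod p)ˣ × ZMod p, (∀ e, (g e).1 ∈ H) → B.SymmUnder (N.act g))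
    (A : Finset N.W) (hm : Fintype.card V < (Nat.card H) ^ (N.bd A).card) (β : N.Lab p) :
    ∑ α : N.Lab p, (if outp A α = β then Lam α else 0) • pc B A α = 0 := by
  classical
  by_contra hne
  have hR : ∀ g : N.E → (ZMod p)ˣ × ZMod p, ∃ R : Matrix V V ℂ, (∀ e, (g e).1 ∈ H) → IsUnit R ∧
      ∀ α : N.Lab p, Matrix.vecMul (pc B A (N.actLab g α)) R = pc B A α := by
    intro g
    by_cases hg : ∀ e, (g e).1 ∈ H
    · obtain ⟨R, hu, hs, _, h0, h1⟩ := hB g hg
      exact ⟨R, fun _ => ⟨hu, pc_equiv B g R hs h0 h1 A⟩⟩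
    · exact ⟨0, fun h => absurd h hg⟩
  choose R hR1 using hR
  have hRu : ∀ g : N.E → (ZMod p)ˣ × ZMod p, (∀ e, (g e).1 ∈ H) → IsUnit (R g) := fun g hg => (hR1 g hg).1
  have hR' : ∀ g : N.E → (ZMod p)ˣ × ZMod p, (∀ e, (g e).1 ∈ H) → ∀ α,
      pc B A (N.actLab g α) = Matrix.vecMul (pc B A α) (R g)⁻¹ := by
    intro g hg α
    rw [← (hR1 g hg).2 α, Matrix.vecMul_vecMul, Matrix.mul_nonsing_inv _
      ((Matrix.isUnit_iff_isUnit_det _).mp (hRu g hg)), Matrix.vecMul_one]
  let gt : ({e // e ∈ N.bd A} → ZMod p) → N.E → (ZMod p)ˣ × ZMod p :=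
    fun t e => (1, if he : e ∈ N.bd A then t ⟨e, he⟩ else 0)
  let gh : ({e // e ∈ N.bd A} → H) → N.E → (ZMod p)ˣ × ZMod p :=
    fun h e => (if he : e ∈ N.bd A then (h ⟨e, he⟩ : (ZMod p)ˣ) else 1, 0)
  have hgtH : ∀ t, ∀ e, (gt t e).1 ∈ H := fun t e => H.one_mem
  have hghH : ∀ h, ∀ e, (gh h e).1 ∈ H := by
    intro h e
    simp only [gh]
    split_ifs
    · exact (h _).2
    · exact H.one_mem
  have hgt : ∀ t α, pc B A (N.actLab (gt t) α) = pc B A (α + sh A t) := by
    intro t α
    apply pc_congr
    intro w hw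
    funext q
    simp only [Net.actLab, Net.act, Pi.add_apply, sh, if_pos hw, gt]
    rcases N.edge w q with _ | e
    · simp
    · simp
  have hgh : ∀ h α, pc B A (N.actLab (gh h) α)
      = pc B A (dl A (fun e => (h e : (ZMod p)ˣ)) * α) := by
    intro h α
    apply pc_congr
    intro w hw
    funext q
    simp only [Net.actLab, Net.act, Pi.mul_apply, dl, if_pos hw, gh]
    rcases N.edge w q with _ | e
    · simp
    · simp only [add_zero]
      split_ifs
      · rfl
      · simp
  have hmain := abstract_bound (p := p) (B := {e // e ∈ N.bd A}) (X := N.Lab p) (V := V → ℂ)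
    (H := H) (fun h => (h : (ZMod p)ˣ)) Subtype.val_injective (pc B A) (fun t => Equiv.addRight (sh A t))
    (by rw [sh_zero]; ext; simp) (by
      intro s t
      rw [sh_add]
      ext α w q
      simp [add_comm, add_left_comm, add_assoc])
    (fun h α => dl A (fun e => (h e : (ZMod p)ˣ)) * α)
    (by
      intro h t α
      simp only [Equiv.coe_addRight]
      rw [mul_add, dl_sh])
    (fun t => Matrix.vecMulLinear (R (gt t))⁻¹)
    (by
      intro t α
      simp only [Equiv.coe_addRight, Matrix.vecMulLinear_apply]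
      rw [← hgt, hR' _ (hgtH t)])
    (fun h => Matrix.vecMulLinear (R (gh h))⁻¹)
    (by
      intro h α
      simp only [Matrix.vecMulLinear_apply]
      rw [← hgh, hR' _ (hghH h)])
    (by
      intro h v v' hv
      simp only [Matrix.vecMulLinear_apply] at hv
      have h1 := congrArg (fun u => Matrix.vecMul u (R (gh h))) hv
      simp only [Matrix.vecMul_vecMul] at h1
      rw [Matrix.nonsing_inv_mul _ ((Matrix.isUnit_iff_isUnit_det _).mp (hRu _ (hghH h))),
        Matrix.vecMul_one, Matrix.vecMul_one] at h1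
      exact h1)
    (fun α => if outp A α = β then Lam α else 0)
    (by
      intro b α
      have hout : ∀ s : ZMod p, outp A ((Equiv.addRight (sh A (Pi.single b s))) α) = outp A α := by
        intro s
        funext w
        simp only [outp, Equiv.coe_addRight]
        split_ifs with hw
        · rfl
        · funext q
          simp [sh, hw]
      simp only [hout]
      split_ifs
      · simp only [Equiv.coe_addRight]
        exact Lam_shift A b α
      · simp)
    hne
  rw [Fintype.card_coe, Module.finrank_fintype_fun_eq_card, ← Nat.card_eq_fintype_card] at hmain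
  omega

/-- the vanishing statement at a set with many boundary edges -/
theorem key2 {N : Net} (B : ABP (N.Var p) V) (H : Subgroup (ZMod p)ˣ)
    (hB : ∀ g : N.E → (ZMod p)ˣ × ZMod p, (∀ e, (g e).1 ∈ H) → B.SymmUnder (N.act g))
    (A : Finset N.W) (hm : Fintype.card V < (Nat.card H) ^ (N.bd A).card)
    (Q : N.Lab p → V → ℂ) (hQ : ∀ α β : N.Lab p, (∀ w ∉ A, α w = β w) → Q α = Q β) :
    ∑ α : N.Lab p, Lam α * (pc B A α ⬝ᵥ Q α) = 0 := by
  classical
  rw [← Finset.sum_fiberwise univ (outp A) (fun α => Lam α * (pc B A α ⬝ᵥ Q α))]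
  refine Finset.sum_eq_zero (fun β _ => ?_)
  have h1 : ∀ α ∈ univ.filter (fun α => outp A α = β),
      Lam α * (pc B A α ⬝ᵥ Q α) = (Lam α • pc B A α) ⬝ᵥ Q β := by
    intro α hα
    rw [Finset.mem_filter] at hα
    have : Q α = Q β := by
      apply hQ
      intro w hw
      rw [← hα.2]
      simp [outp, hw]
    rw [this, smul_dotProduct, smul_eq_mul]
  rw [Finset.sum_congr rfl h1]
  have h2 := key B H hB A hm β
  rw [← sum_dotProduct, Finset.sum_filter]
  have h3 : (∑ α : N.Lab p, if outp A α = β then Lam α • pc B A α else 0)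
      = ∑ α : N.Lab p, (if outp A α = β then Lam α else 0) • pc B A α := by
    refine Finset.sum_congr rfl (fun α _ => ?_)
    split_ifs
    · rfl
    · simp
  rw [h3, h2, zero_dotProduct]

theorem main_ind {N : Net} (B : ABP (N.Var p) V) (H : Subgroup (ZMod p)ˣ)
    (hB : ∀ g : N.E → (ZMod p)ˣ × ZMod p, (∀ e, (g e).1 ∈ H) → B.SymmUnder (N.act g)) (k : ℕ)
    (hm : Fintype.card V < (Nat.card H) ^ k)
    (hcut : ¬ Good N k ∅) :
    ∀ (A : Finset N.W), ((N.bd A).card < k → Good N k A) →
    ∀ (Q : N.Lab p → V → ℂ), (∀ α β : N.Lab p, (∀ w ∉ A, α w = β w) → Q α = Q β) →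
    ∑ α : N.Lab p, Lam α * (pc B A α ⬝ᵥ Q α) = 0 := by
  intro A
  induction A using Finset.strongInduction with
  | H A ih =>
    intro hA Q hQ
    by_cases hk : (N.bd A).card < k
    · have hg := hA hk
      by_cases hAe : A = ∅
      · exact absurd (hAe ▸ hg) hcut
      · -- expand
        have h1 : ∀ α : N.Lab p, pc B A α ⬝ᵥ Q α
            = ∑ w ∈ A, pc B (A.erase w) α ⬝ᵥ (B.A (w, α w)).mulVec (B.R0.mulVec (Q α)) := by
          intro α
          rw [pc_eq B A α, if_neg hAe, zero_add, ← Matrix.dotProduct_mulVec, sum_dotProduct]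
          exact Finset.sum_congr rfl (fun w _ => (Matrix.dotProduct_mulVec _ _ _).symm)
        simp only [h1, Finset.mul_sum]
        rw [Finset.sum_comm]
        refine Finset.sum_eq_zero (fun w hw => ?_)
        refine ih (A.erase w) (Finset.erase_ssubset hw) ?_
          (fun α => (B.A (w, α w)).mulVec (B.R0.mulVec (Q α))) ?_
        · intro hlt
          refine Good.step (A.erase w) w (Finset.notMem_erase w A) hlt ?_
          rw [Finset.insert_erase hw]
          exact hg
        · intro α β hαβ
          have h2 : α w = β w := hαβ w (Finset.notMem_erase w A)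
          have h3 : Q α = Q β := hQ α β (fun w' hw' => hαβ w' (fun h => hw' (Finset.mem_of_mem_erase h)))
          simp only [h2, h3]
    · exact key2 B H hB A (lt_of_lt_of_le hm (Nat.pow_le_pow_right Nat.card_pos (not_lt.mp hk))) Q hQ

/-- the functional is nonzero on the network polynomial -/
lemma functional_poly (N : Net) :
    ∑ α : N.Lab p, Lam α * MvPolynomial.coeff (mono univ α) (N.poly p) ≠ 0 := by
  classical
  have hp2 := (Fact.out : p.Prime).two_le
  have hmono : ∀ β : N.Lab p, (∏ w, MvPolynomial.X (w, β w) : MvPolynomial (N.Var p) ℂ)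
      = MvPolynomial.monomial (mono univ β) 1 := by
    intro β
    unfold mono
    rw [MvPolynomial.monomial_sum_one]
    rfl
  have hinj : ∀ α β : N.Lab p, mono univ α = mono univ β → α = β := by
    intro α β h
    funext w
    have h1 := DFunLike.congr_fun h (w, α w)
    rw [mono_apply, mono_apply] at h1
    by_contra hne
    simp [hne] at h1
  have hcoef : ∀ α : N.Lab p, MvPolynomial.coeff (mono univ α) (N.poly p)
      = if N.Cons α then 1 else 0 := by
    intro α
    unfold Net.poly
    rw [MvPolynomial.coeff_sum]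
    have : ∀ β : N.Lab p, MvPolynomial.coeff (mono univ α)
        (if N.Cons β then (∏ w, MvPolynomial.X (w, β w) : MvPolynomial (N.Var p) ℂ) else 0)
        = if β = α then (if N.Cons α then 1 else 0) else 0 := by
      intro β
      by_cases hβ : β = α
      · subst hβ
        rw [if_pos rfl]
        split_ifs
        · rw [hmono, MvPolynomial.coeff_monomial, if_pos rfl]
        · simp
      · rw [if_neg hβ]
        split_ifs
        · rw [hmono, MvPolynomial.coeff_monomial, if_neg (fun h => hβ (hinj _ _ h))]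
        · simp
    rw [Finset.sum_congr rfl (fun β _ => this β), Finset.sum_ite_eq' univ α, if_pos (Finset.mem_univ _)]
  simp only [hcoef, mul_ite, mul_one, mul_zero]
  have hL : ∀ α : N.Lab p, (if N.Cons α then Lam α else 0)
      = if N.Cons α then (1 - 1 / (p:ℂ)) ^ (Fintype.card N.E) else 0 := by
    intro α
    split_ifs with h
    · unfold Lam
      have : ∀ e : N.E, lam (α (N.a e).1 (N.a e).2) (α (N.b e).1 (N.b e).2) = 1 - 1 / (p:ℂ) := by
        intro e
        rw [h e]
        unfold lam
        simp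
      rw [Finset.prod_congr rfl (fun e _ => this e)]
      simp [Finset.card_univ]
    · rfl
  rw [Finset.sum_congr rfl (fun α _ => hL α), ← Finset.sum_filter, Finset.sum_const, nsmul_eq_mul]
  refine mul_ne_zero ?_ (pow_ne_zero _ ?_)
  · rw [Nat.cast_ne_zero, Finset.card_ne_zero]
    exact ⟨fun _ _ => 0, Finset.mem_filter.mpr ⟨Finset.mem_univ _, fun _ => rfl⟩⟩
  · intro h
    have hpne : (p : ℂ) ≠ 0 := by exact_mod_cast (Fact.out : p.Prime).ne_zero
    have h1 : (p : ℂ) = 1 := by
      field_simp at h
      exact sub_eq_zero.mp (by simpa using h)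
    have h2 : p = 1 := by exact_mod_cast h1
    omega

/-- **Lower bound for symmetric branching programs.**  If no order of the vertices of `N` has all its initial
sets with fewer than `k` boundary edges, then every algebraic branching program that computes the
network polynomial and is symmetric under the maps `x ↦ u x + t`, `u ∈ H`, of the values of each edge, has at
least `|H|^k` vertices. -/
theorem symmetric_lower_sub (N : Net) (k : ℕ) (hcut : ¬ Good N k ∅) (B : ABP (N.Var p) V)
    (H : Subgroup (ZMod p)ˣ)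
    (hB : ∀ g : N.E → (ZMod p)ˣ × ZMod p, (∀ e, (g e).1 ∈ H) → B.SymmUnder (N.act g))
    (hval : B.value = N.poly p) :
    (Nat.card H) ^ k ≤ Fintype.card V := by
  classical
  by_contra hlt
  push Not at hlt
  apply functional_poly (p := p) N
  rw [← hval]
  have hpos : 0 < k := by
    by_contra hk
    have hk0 : k = 0 := by omega
    subst hk0
    have : Fintype.card V < 1 := by simpa using hlt
    have h1 : 0 < Fintype.card V := Fintype.card_pos_iff.mpr ⟨B.s⟩
    omega
  have hbu : (N.bd univ).card < k := by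
    have : N.bd univ = ∅ := by
      unfold Net.bd
      simp
    rw [this]; simpa using hpos
  have h := main_ind B H hB k hlt hcut univ (fun _ => Good.top hbu)
    (fun _ => Pi.single B.t 1) (fun _ _ _ => rfl)
  have h2 : ∀ α : N.Lab p, pc B univ α ⬝ᵥ (Pi.single B.t (1:ℂ) : V → ℂ)
      = MvPolynomial.coeff (mono univ α) B.value := by
    intro α
    rw [dotProduct_single, mul_one]
    rfl
  simp only [h2] at h
  exact h

/-- the full group `AGL(1,p)^E` -/
theorem symmetric_lower (N : Net) (k : ℕ) (hcut : ¬ Good N k ∅) (B : ABP (N.Var p) V)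
    (hB : ∀ g : N.E → (ZMod p)ˣ × ZMod p, B.SymmUnder (N.act g)) (hval : B.value = N.poly p) :
    (p - 1) ^ k ≤ Fintype.card V := by
  have h := symmetric_lower_sub N k hcut B ⊤ (fun g _ => hB g) hval
  rw [Subgroup.card_top, Nat.card_eq_fintype_card, ZMod.card_units_eq_totient,
    Nat.totient_prime (Fact.out : p.Prime)] at h
  exact h

end H522R2.Eqv
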