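import Pool.Agent.H522R2.EqvFL
import Pool.Agent.H522R2.EqvNet

/-!
Equivariant determinantal representations give symmetric branching programs (Faddeev–LeVerrier).
-/

namespace H522R2.Eqv

open Finset BigOperators

set_option linter.unusedSectionVars false

variable {σ : Type} [Fintype σ] [DecidableEq σ] {m : ℕ}

/-- a lift which does not use the transposition -/
def DetRep.Direct (D : DetRep σ m) (f : σ → σ) : Prop :=
  ∃ B C : Matrix (Fin m) (Fin m) ℂ, IsUnit B ∧ IsUnit C ∧
    B * D.A0 * C = D.A0 ∧ ∀ x, B * D.A x * C = D.A (f x)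

lemma isUnit_transpose {M : Matrix (Fin m) (Fin m) ℂ} (h : IsUnit M) : IsUnit M.transpose := by
  rw [Matrix.isUnit_iff_isUnit_det] at h ⊢
  rwa [Matrix.det_transpose]

lemma DetRep.direct_sq (D : DetRep σ m) (f : σ → σ) (h : D.Respects f) : D.Direct (f ∘ f) := by
  obtain ⟨B, C, hB, hC, h | h⟩ := h
  · refine ⟨B * B, C * C, hB.mul hB, hC.mul hC, ?_, ?_⟩
    · calc B * B * D.A0 * (C * C) = B * (B * D.A0 * C) * C := by simp only [Matrix.mul_assoc]
        _ = D.A0 := by rw [h.1, h.1]
    · intro x
      calc B * B * D.A x * (C * C) = B * (B * D.A x * C) * C := by simp only [Matrix.mul_assoc]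
        _ = D.A (f (f x)) := by rw [h.2, h.2]
  · refine ⟨B * C.transpose, B.transpose * C, hB.mul (isUnit_transpose hC),
      (isUnit_transpose hB).mul hC, ?_, ?_⟩
    · calc B * C.transpose * D.A0 * (B.transpose * C)
          = B * (B * D.A0.transpose * C).transpose * C := by
            simp only [Matrix.transpose_mul, Matrix.transpose_transpose, Matrix.mul_assoc]
        _ = D.A0 := by rw [h.1, h.1]
    · intro x
      calc B * C.transpose * D.A x * (B.transpose * C)
          = B * (B * (D.A x).transpose * C).transpose * C := by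
            simp only [Matrix.transpose_mul, Matrix.transpose_transpose, Matrix.mul_assoc]
        _ = D.A (f (f x)) := by rw [h.2, h.2]

/-! ### the branching program -/

/-- states of the Faddeev–LeVerrier program: `none` is the source, `some none` the target -/
abbrev DV (m : ℕ) : Type := Option (Option (Fin m × Fin m × Fin m))

section step

variable {R : Type} [CommRing R] [Algebra ℂ R]

/-- the transitions, linear in `T` -/
noncomputable def stepM (c : R) (T : Matrix (Fin m) (Fin m) R) : Matrix (DV m) (DV m) R :=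
  fun u v => match u, v with
    | some (some (k, i, j)), some (some (k', i', j')) =>
        if k'.val = k.val + 1 then
          (if j = j' then T i' i else 0) - (if i' = j' then rc R k.val * T j i else 0) else 0
    | some (some (k, i, j)), some none => if k.val + 1 = m then c * T j i else 0
    | _, _ => 0

/-- the edges leaving the source -/
def iniM (m : ℕ) : Matrix (DV m) (DV m) ℂ :=
  fun u v => match u, v with
    | none, some (some (k, i, j)) => if k.val = 0 ∧ i = j then 1 else 0
    | _, _ => 0

/-- the symmetry of the states -/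
noncomputable def symM (S : Matrix (Fin m) (Fin m) ℂ) : Matrix (DV m) (DV m) ℂ :=
  fun u v => match u, v with
    | none, none => 1
    | some none, some none => 1
    | some (some (k, i, j)), some (some (k', i', j')) => if k = k' then S⁻¹ i' i * S j j' else 0
    | _, _ => 0

end step

lemma symM_mul (S : Matrix (Fin m) (Fin m) ℂ) (hS : IsUnit S) : symM S * symM S⁻¹ = 1 := by
  have hdet := (Matrix.isUnit_iff_isUnit_det _).mp hS
  have h1 : S * S⁻¹ = 1 := Matrix.mul_nonsing_inv _ hdet
  have h2 : S⁻¹⁻¹ = S := Matrix.nonsing_inv_nonsing_inv S hdet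
  ext u v
  rw [Matrix.mul_apply, Fintype.sum_option, Fintype.sum_option]
  rcases u with _ | _ | ⟨k, i, j⟩ <;> rcases v with _ | _ | ⟨k', i', j'⟩
  all_goals try simp [symM, Matrix.one_apply]
  rw [Fintype.sum_prod_type, Finset.sum_eq_single k]
  · simp only [if_true]
    by_cases hk : k = k'
    · subst hk
      simp only [if_true, h2, true_and]
      rw [Fintype.sum_prod_type]
      have h3 : ∀ a : Fin m, ∑ b : Fin m, S⁻¹ a i * S j b * (S i' a * S⁻¹ b j')
          = (S i' a * S⁻¹ a i) * ∑ b : Fin m, S j b * S⁻¹ b j' := by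
        intro a
        rw [Finset.mul_sum]
        exact Finset.sum_congr rfl (fun b _ => by ring)
      simp only [h3]
      rw [← Finset.sum_mul, ← Matrix.mul_apply, ← Matrix.mul_apply, h1, Matrix.one_apply,
        Matrix.one_apply]
      by_cases hi : i = i'
      · subst hi
        by_cases hj : j = j'
        · simp [hj]
        · simp [hj]
      · simp [hi, Ne.symm hi]
    · simp [hk]
  · intro b _ hb
    exact Finset.sum_eq_zero (fun x _ => by simp [Ne.symm hb])
  · simp

lemma symM_isUnit (S : Matrix (Fin m) (Fin m) ℂ) (hS : IsUnit S) : IsUnit (symM S) := by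
  rw [Matrix.isUnit_iff_isUnit_det]
  have h := congrArg Matrix.det (symM_mul S hS)
  rw [Matrix.det_mul, Matrix.det_one] at h
  exact IsUnit.of_mul_eq_one _ h

lemma symM_ini (S : Matrix (Fin m) (Fin m) ℂ) (hS : IsUnit S) : symM S * iniM m = iniM m * symM S := by
  have hdet := (Matrix.isUnit_iff_isUnit_det _).mp hS
  have h1 : S⁻¹ * S = 1 := Matrix.nonsing_inv_mul _ hdet
  ext u v
  rw [Matrix.mul_apply, Matrix.mul_apply, Fintype.sum_option, Fintype.sum_option, Fintype.sum_option,
    Fintype.sum_option]
  rcases u with _ | _ | ⟨k, i, j⟩ <;> rcases v with _ | _ | ⟨k', i', j'⟩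
  all_goals try simp [symM, iniM]
  rw [Fintype.sum_prod_type, Finset.sum_eq_single k']
  · by_cases hk : k'.val = 0
    · simp only [hk, true_and, if_true]
      rw [Fintype.sum_prod_type]
      have h3 : ∀ a : Fin m, ∑ b : Fin m, (if a = b then S⁻¹ i' a * S b j' else 0)
          = S⁻¹ i' a * S a j' := by
        intro a
        rw [Finset.sum_ite_eq]
        simp
      simp only [h3]
      rw [← Matrix.mul_apply, h1, Matrix.one_apply]
    · simp [hk]
  · intro b _ hb
    exact Finset.sum_eq_zero (fun x _ => by simp [hb])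
  · simp

lemma symM_step (c : ℂ) (S T T' : Matrix (Fin m) (Fin m) ℂ) (hS : IsUnit S) (h : S * T = T' * S) :
    symM S * stepM c T = stepM c T' * symM S := by
  have hdet := (Matrix.isUnit_iff_isUnit_det _).mp hS
  have h1 : S⁻¹ * S = 1 := Matrix.nonsing_inv_mul _ hdet
  have h2 : S * S⁻¹ = 1 := Matrix.mul_nonsing_inv _ hdet
  have h3 : T * S⁻¹ = S⁻¹ * T' := by
    calc T * S⁻¹ = S⁻¹ * S * T * S⁻¹ := by rw [h1, Matrix.one_mul]
      _ = S⁻¹ * (S * T) * S⁻¹ := by simp only [Matrix.mul_assoc]
      _ = S⁻¹ * T' * (S * S⁻¹) := by rw [h]; simp only [Matrix.mul_assoc]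
      _ = S⁻¹ * T' := by rw [h2, Matrix.mul_one]
  have h4 : S * (T * S⁻¹) = T' := by
    rw [h3, ← Matrix.mul_assoc, h2, Matrix.one_mul]
  have hconj : ∀ i j : Fin m, ∑ a, ∑ b, S⁻¹ a i * S j b * T b a = T' j i := by
    intro i j
    rw [← h4, Matrix.mul_apply, Finset.sum_comm]
    refine Finset.sum_congr rfl (fun b _ => ?_)
    rw [Matrix.mul_apply, Finset.mul_sum]
    exact Finset.sum_congr rfl (fun a _ => by ring)
  have hid : ∀ i' j' : Fin m, ∑ a, S⁻¹ i' a * S a j' = if i' = j' then 1 else 0 := by
    intro i' j'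
    rw [← Matrix.mul_apply, h1, Matrix.one_apply]
  ext u v
  rw [Matrix.mul_apply, Matrix.mul_apply]
  by_cases hu : ∃ k i j, u = some (some (k, i, j))
  · obtain ⟨k, i, j, rfl⟩ := hu
    have z1 : symM S (some (some (k, i, j))) none = 0 := rfl
    have z2 : symM S (some (some (k, i, j))) (some none) = 0 := rfl
    have z3 : ∀ b, k ≠ b → ∀ x, symM S (some (some (k, i, j))) (some (some (b, x))) = 0 := by
      intro b hb x
      simp [symM, hb]
    have z4 : ∀ a b, symM S (some (some (k, i, j))) (some (some (k, a, b))) = S⁻¹ a i * S j b := by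
      intro a b
      simp [symM]
    have L : ∑ w, symM S (some (some (k, i, j))) w * stepM c T w v
        = ∑ a, ∑ b, S⁻¹ a i * S j b * stepM c T (some (some (k, a, b))) v := by
      rw [Fintype.sum_option, Fintype.sum_option, z1, z2, zero_mul, zero_mul, zero_add, zero_add,
        Fintype.sum_prod_type, Finset.sum_eq_single k]
      · rw [Fintype.sum_prod_type]
        exact Finset.sum_congr rfl (fun a _ => Finset.sum_congr rfl (fun b _ => by rw [z4]))
      · intro b _ hb
        exact Finset.sum_eq_zero (fun x _ => by rw [z3 b (Ne.symm hb) x, zero_mul])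
      · intro h'
        exact absurd (Finset.mem_univ _) h'
    rw [L]
    rcases v with _ | _ | ⟨k', i', j'⟩
    · -- source
      have e1 : ∀ a b, stepM c T (some (some (k, a, b))) none = 0 := fun _ _ => rfl
      have e2 : ∀ w, stepM c T' (some (some (k, i, j))) w * symM S w none = 0 := by
        intro w
        rcases w with _ | _ | ⟨k', i', j'⟩
        · show (0 : ℂ) * _ = 0
          rw [zero_mul]
        · show _ * (0 : ℂ) = 0
          rw [mul_zero]
        · show _ * (0 : ℂ) = 0
          rw [mul_zero]
      simp only [e1, e2, mul_zero, Finset.sum_const_zero]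
    · -- target
      have e2 : ∀ w, w ≠ some none → stepM c T' (some (some (k, i, j))) w * symM S w (some none) = 0 := by
        intro w hw
        rcases w with _ | _ | ⟨k', i', j'⟩
        · show (0 : ℂ) * _ = 0
          rw [zero_mul]
        · exact absurd rfl hw
        · show _ * (0 : ℂ) = 0
          rw [mul_zero]
      rw [Finset.sum_eq_single (some none) (fun w _ hw => e2 w hw) (fun h' => absurd (Finset.mem_univ _) h')]
      have e3 : symM S (some none : DV m) (some none) = 1 := rfl
      rw [e3, mul_one]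
      simp only [stepM]
      by_cases hk : k.val + 1 = m
      · simp only [if_pos hk]
        rw [← hconj i j, Finset.mul_sum]
        refine Finset.sum_congr rfl (fun a _ => ?_)
        rw [Finset.mul_sum]
        exact Finset.sum_congr rfl (fun b _ => by ring)
      · simp only [if_neg hk, mul_zero, Finset.sum_const_zero]
    · -- inner
      have y3 : ∀ b, b ≠ k' → ∀ x, symM S (some (some (b, x))) (some (some (k', i', j'))) = 0 := by
        intro b hb x
        simp [symM, hb]
      have y4 : ∀ a b, symM S (some (some (k', a, b))) (some (some (k', i', j'))) = S⁻¹ i' a * S b j' := by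
        intro a b
        simp [symM]
      have y1 : symM S (some none) (some (some (k', i', j'))) = 0 := rfl
      have y2 : symM S none (some (some (k', i', j'))) = 0 := rfl
      have L2 : ∑ w, stepM c T' (some (some (k, i, j))) w * symM S w (some (some (k', i', j')))
          = ∑ a, ∑ b, stepM c T' (some (some (k, i, j))) (some (some (k', a, b)))
            * (S⁻¹ i' a * S b j') := by
        rw [Fintype.sum_option, Fintype.sum_option, y1, y2, mul_zero, mul_zero, zero_add, zero_add,
          Fintype.sum_prod_type, Finset.sum_eq_single k']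
        · rw [Fintype.sum_prod_type]
          exact Finset.sum_congr rfl (fun a _ => Finset.sum_congr rfl (fun b _ => by rw [y4]))
        · intro b _ hb
          exact Finset.sum_eq_zero (fun x _ => by rw [y3 b hb x, mul_zero])
        · intro h'
          exact absurd (Finset.mem_univ _) h'
      rw [L2]
      simp only [stepM]
      by_cases hk : k'.val = k.val + 1
      · simp only [if_pos hk]
        simp only [mul_sub, sub_mul, Finset.sum_sub_distrib]
        congr 1
        · have e1 : ∀ a : Fin m, ∑ b : Fin m, S⁻¹ a i * S j b * (if b = j' then T i' a else 0)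
              = (T i' a * S⁻¹ a i) * S j j' := by
            intro a
            simp only [mul_ite, mul_zero, Finset.sum_ite_eq', Finset.mem_univ, if_true]
            ring
          have e2 : ∀ a : Fin m, ∑ b : Fin m, (if j = b then T' a i else 0) * (S⁻¹ i' a * S b j')
              = (S⁻¹ i' a * T' a i) * S j j' := by
            intro a
            simp only [ite_mul, zero_mul, Finset.sum_ite_eq, Finset.mem_univ, if_true]
            ring
          simp only [e1, e2]
          rw [← Finset.sum_mul, ← Finset.sum_mul, ← Matrix.mul_apply, ← Matrix.mul_apply, h3]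
        · have e1 : ∀ a : Fin m, ∑ b : Fin m, S⁻¹ a i * S j b *
              (if i' = j' then rc ℂ k.val * T b a else 0)
              = (if i' = j' then rc ℂ k.val else 0) * ∑ b : Fin m, S⁻¹ a i * S j b * T b a := by
            intro a
            rw [Finset.mul_sum]
            refine Finset.sum_congr rfl (fun b _ => ?_)
            split_ifs
            · ring
            · ring
          have e2 : ∀ a : Fin m, ∑ b : Fin m, (if a = b then rc ℂ k.val * T' j i else 0)
              * (S⁻¹ i' a * S b j')
              = (rc ℂ k.val * T' j i) * (S⁻¹ i' a * S a j') := by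
            intro a
            simp only [ite_mul, zero_mul, Finset.sum_ite_eq, Finset.mem_univ, if_true]
          simp only [e1, e2]
          rw [← Finset.mul_sum, ← Finset.mul_sum, hconj, hid]
          split_ifs
          · ring
          · ring
      · simp only [if_neg hk, mul_zero, zero_mul, Finset.sum_const_zero]
  · -- source and target rows
    have hz : ∀ (M : Matrix (Fin m) (Fin m) ℂ) (u' : DV m), (¬ ∃ k i j, u' = some (some (k, i, j))) →
        ∀ w, stepM c M u' w = 0 := by
      intro M u' hu' w
      rcases u' with _ | _ | ⟨k, i, j⟩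
      · rfl
      · rfl
      · exact absurd ⟨k, i, j, rfl⟩ hu'
    have hs : ∀ w, (∃ k i j, w = some (some (k, i, j))) → symM S u w = 0 := by
      rintro w ⟨k, i, j, rfl⟩
      rcases u with _ | _ | ⟨k', i', j'⟩
      · rfl
      · rfl
      · exact absurd ⟨k', i', j', rfl⟩ hu
    rw [Finset.sum_eq_zero, Finset.sum_eq_zero]
    · intro w _
      rw [hz T' u hu w, zero_mul]
    · intro w _
      by_cases hw : ∃ k i j, w = some (some (k, i, j))
      · rw [hs w hw, zero_mul]
      · rw [hz T w hw v, mul_zero]

/-- the branching program of a matrix of affine forms `T0 + ∑ x, T x * X x` -/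
noncomputable def flABP (c : ℂ) (T0 : Matrix (Fin m) (Fin m) ℂ) (T : σ → Matrix (Fin m) (Fin m) ℂ) :
    ABP σ (DV m) where
  A0 := iniM m + stepM c T0
  A x := stepM c (T x)
  rk u := match u with
    | none => 0
    | some none => m + 1
    | some (some (k, _, _)) => k.val + 1
  acyc0 u v h := by
    rcases u with _ | _ | ⟨k, i, j⟩ <;> rcases v with _ | _ | ⟨k', i', j'⟩
    all_goals try simp [iniM, stepM]
    all_goals simp at h
    · have := k.2
      omega
    · intro h1
      have : (k' : ℕ) ≤ k := h
      omega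
  acyc x u v h := by
    rcases u with _ | _ | ⟨k, i, j⟩ <;> rcases v with _ | _ | ⟨k', i', j'⟩
    all_goals try simp [stepM]
    all_goals simp at h
    · have := k.2
      omega
    · intro h1
      have : (k' : ℕ) ≤ k := h
      omega
  s := none
  t := some none

/-! ### its value -/

/-- the matrix of affine forms of `T0`, `T` -/
noncomputable def pm (T0 : Matrix (Fin m) (Fin m) ℂ) (T : σ → Matrix (Fin m) (Fin m) ℂ) :
    Matrix (Fin m) (Fin m) (MvPolynomial σ ℂ) :=
  fun i j => MvPolynomial.C (T0 i j) + ∑ x, MvPolynomial.C (T x i j) * MvPolynomial.X x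

lemma rc_C (k : ℕ) : rc (MvPolynomial σ ℂ) k = MvPolynomial.C (rc ℂ k) := rfl

lemma flABP_mat (c : ℂ) (T0 : Matrix (Fin m) (Fin m) ℂ) (T : σ → Matrix (Fin m) (Fin m) ℂ)
    (u v : DV m) : (flABP c T0 T).mat u v
      = MvPolynomial.C (iniM m u v) + stepM (MvPolynomial.C c) (pm T0 T) u v := by
  have h0 : (flABP c T0 T).mat u v = MvPolynomial.C ((iniM m + stepM c T0) u v)
      + ∑ x, MvPolynomial.C (stepM c (T x) u v) * MvPolynomial.X x := rfl
  rw [h0, Matrix.add_apply, MvPolynomial.C_add, add_assoc]
  congr 1
  rcases u with _ | _ | ⟨k, i, j⟩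
  · simp [stepM]
  · simp [stepM]
  · rcases v with _ | _ | ⟨k', i', j'⟩
    · simp [stepM]
    · simp only [stepM]
      split_ifs
      · simp only [pm, MvPolynomial.C_mul, mul_add, Finset.mul_sum, mul_assoc]
      · simp
    · simp only [stepM]
      by_cases hk : k'.val = k.val + 1
      · simp only [if_pos hk]
        simp only [MvPolynomial.C_sub, sub_mul, Finset.sum_sub_distrib]
        have e1 : (MvPolynomial.C (if j = j' then T0 i' i else 0) : MvPolynomial σ ℂ)
            + ∑ x, MvPolynomial.C (if j = j' then T x i' i else 0) * MvPolynomial.X x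
            = if j = j' then pm T0 T i' i else 0 := by
          split_ifs
          · rfl
          · simp
        have e2 : (MvPolynomial.C (if i' = j' then rc ℂ k.val * T0 j i else 0) : MvPolynomial σ ℂ)
            + ∑ x, MvPolynomial.C (if i' = j' then rc ℂ k.val * T x j i else 0) * MvPolynomial.X x
            = if i' = j' then rc (MvPolynomial σ ℂ) k.val * pm T0 T j i else 0 := by
          split_ifs
          · simp only [pm, rc_C, MvPolynomial.C_mul, mul_add, Finset.mul_sum, mul_assoc]
          · simp
        rw [← e1, ← e2]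
        ring
      · simp [hk]

lemma flABP_vec_src (c : ℂ) (T0 : Matrix (Fin m) (Fin m) ℂ) (T : σ → Matrix (Fin m) (Fin m) ℂ) :
    (flABP c T0 T).vec none = 1 := by
  rw [ABP.vec_eq]
  have h : ∀ u, (flABP c T0 T).vec u * (flABP c T0 T).mat u none = 0 := by
    intro u
    rw [flABP_mat]
    rcases u with _ | _ | ⟨k, i, j⟩
    · simp [stepM, iniM]
    · simp [stepM, iniM]
    · simp [stepM, iniM]
  rw [Finset.sum_eq_zero (fun u _ => h u)]
  simp [flABP]

lemma flABP_vec (c : ℂ) (T0 : Matrix (Fin m) (Fin m) ℂ) (T : σ → Matrix (Fin m) (Fin m) ℂ)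
    (k : ℕ) : ∀ (hk : k < m) (i j : Fin m),
    (flABP c T0 T).vec (some (some (⟨k, hk⟩, i, j))) = flN (pm T0 T) k i j := by
  induction k with
  | zero =>
    intro hk i j
    rw [ABP.vec_eq, Finset.sum_eq_single none]
    · rw [flABP_vec_src, flABP_mat]
      simp [flABP, iniM, stepM, flN, Matrix.one_apply]
    · intro u _ hu
      rw [flABP_mat]
      rcases u with _ | _ | ⟨k', i', j'⟩
      · exact absurd rfl hu
      · simp [stepM, iniM]
      · simp [stepM, iniM]
    · intro h; exact absurd (Finset.mem_univ _) h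
  | succ k ih =>
    intro hk i j
    have hk' : k < m := by omega
    rw [ABP.vec_eq, Fintype.sum_option, Fintype.sum_option]
    have z1 : (flABP c T0 T).mat none (some (some (⟨k + 1, hk⟩, i, j))) = 0 := by
      rw [flABP_mat]; simp [stepM, iniM]
    have z2 : (flABP c T0 T).mat (some none) (some (some (⟨k + 1, hk⟩, i, j))) = 0 := by
      rw [flABP_mat]; simp [stepM, iniM]
    have z0 : ¬ ((flABP c T0 T).s = some (some (⟨k + 1, hk⟩, i, j))) := by
      simp [flABP]
    rw [z1, z2, if_neg z0, mul_zero, mul_zero, zero_add, zero_add, zero_add, Fintype.sum_prod_type,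
      Finset.sum_eq_single ⟨k, hk'⟩]
    · rw [Fintype.sum_prod_type]
      have e : ∀ a b : Fin m, (flABP c T0 T).vec (some (some (⟨k, hk'⟩, a, b)))
          * (flABP c T0 T).mat (some (some (⟨k, hk'⟩, a, b))) (some (some (⟨k + 1, hk⟩, i, j)))
          = (if b = j then pm T0 T i a * flN (pm T0 T) k a b else 0)
            - (if i = j then rc (MvPolynomial σ ℂ) k else 0) * (pm T0 T b a * flN (pm T0 T) k a b) := by
        intro a b
        rw [ih hk' a b, flABP_mat]
        simp only [iniM, stepM, map_zero, zero_add, if_true]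
        split_ifs
        · ring
        · ring
        · ring
        · ring
      simp only [e]
      simp only [Finset.sum_sub_distrib, Finset.sum_ite_eq', Finset.mem_univ, if_true]
      rw [flN, Matrix.sub_apply, Matrix.smul_apply, Matrix.one_apply, Matrix.mul_apply]
      congr 1
      simp only [← Finset.mul_sum]
      rw [Matrix.trace]
      simp only [Matrix.diag_apply, Matrix.mul_apply]
      rw [Finset.sum_comm]
      split_ifs
      · simp
      · simp
    · intro b _ hb
      refine Finset.sum_eq_zero (fun x _ => ?_)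
      rw [flABP_mat]
      have : ¬ (k + 1 = b.val + 1) := by
        intro h
        apply hb
        apply Fin.ext
        simp only
        omega
      simp only [iniM, stepM, if_neg this, map_zero, add_zero, mul_zero]
    · intro h; exact absurd (Finset.mem_univ _) h

lemma flABP_value (c : ℂ) (T0 : Matrix (Fin (m + 1)) (Fin (m + 1)) ℂ)
    (T : σ → Matrix (Fin (m + 1)) (Fin (m + 1)) ℂ) :
    (flABP c T0 T).value = MvPolynomial.C c * Matrix.trace (pm T0 T * flN (pm T0 T) m) := by
  have h0 : (flABP c T0 T).value = (flABP c T0 T).vec (some none) := rfl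
  rw [h0, ABP.vec_eq, Fintype.sum_option, Fintype.sum_option]
  have z1 : (flABP c T0 T).mat none (some none) = 0 := by
    rw [flABP_mat]; simp [stepM, iniM]
  have z2 : (flABP c T0 T).mat (some none) (some none) = 0 := by
    rw [flABP_mat]; simp [stepM, iniM]
  have z0 : ¬ ((flABP c T0 T).s = some none) := by simp [flABP]
  rw [z1, z2, if_neg z0, mul_zero, mul_zero, zero_add, zero_add, zero_add, Fintype.sum_prod_type,
    Finset.sum_eq_single ⟨m, by omega⟩]
  · rw [Fintype.sum_prod_type, Matrix.trace]
    simp only [Matrix.diag_apply, Matrix.mul_apply]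
    rw [Finset.mul_sum, Finset.sum_comm]
    refine Finset.sum_congr rfl (fun b _ => ?_)
    rw [Finset.mul_sum]
    refine Finset.sum_congr rfl (fun a _ => ?_)
    rw [flABP_vec c T0 T m (by omega), flABP_mat]
    simp only [iniM, stepM, map_zero, zero_add, if_true]
    ring
  · intro b _ hb
    refine Finset.sum_eq_zero (fun x _ => ?_)
    rw [flABP_mat]
    have : ¬ (b.val + 1 = m + 1) := by
      intro h
      apply hb
      apply Fin.ext
      simp only
      omega
    simp only [iniM, stepM, if_neg this, map_zero, add_zero, mul_zero]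
  · intro h; exact absurd (Finset.mem_univ _) h

/-! ### from determinantal representations to branching programs -/

/-- the value of the matrix of affine forms at the point `(1, …, 1)` -/
noncomputable def DetRep.one (D : DetRep σ m) : Matrix (Fin m) (Fin m) ℂ := D.A0 + ∑ x, D.A x

/-- the branching program of a determinantal representation -/
noncomputable def DetRep.toABP (D : DetRep σ (m + 1)) : ABP σ (DV (m + 1)) :=
  flABP (-(rc ℂ m * D.one.det)) (-(D.one⁻¹ * D.A0)) (fun x => -(D.one⁻¹ * D.A x))

lemma DetRep.toABP_value (D : DetRep σ (m + 1)) (h1 : D.one.det ≠ 0) : D.toABP.value = D.value := by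
  rw [DetRep.toABP, flABP_value]
  set T := pm (-(D.one⁻¹ * D.A0)) (fun x => -(D.one⁻¹ * D.A x)) with hT
  have hTm : -T = (D.one⁻¹).map MvPolynomial.C * D.mat := by
    ext1 i j
    rw [hT, Matrix.neg_apply, Matrix.mul_apply]
    simp only [pm, DetRep.mat, Matrix.neg_apply, Matrix.mul_apply, Matrix.map_apply, mul_add,
      Finset.sum_add_distrib]
    rw [neg_add]
    congr 1
    · rw [map_neg, neg_neg, map_sum]
      exact Finset.sum_congr rfl (fun a _ => by rw [MvPolynomial.C_mul])
    · rw [← Finset.sum_neg_distrib]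
      simp only [Finset.mul_sum]
      rw [Finset.sum_comm]
      refine Finset.sum_congr rfl (fun x _ => ?_)
      rw [map_neg, neg_mul, neg_neg, map_sum, Finset.sum_mul]
      exact Finset.sum_congr rfl (fun a _ => by rw [MvPolynomial.C_mul]; ring)
  have hdet := det_eq_flN (-T)
  rw [neg_neg] at hdet
  have hu : IsUnit D.one.det := isUnit_iff_ne_zero.mpr h1
  have h2 : (MvPolynomial.C D.one.det : MvPolynomial σ ℂ) * ((D.one⁻¹).map MvPolynomial.C).det = 1 := by
    have h3 : ((D.one⁻¹).map (MvPolynomial.C : ℂ →+* MvPolynomial σ ℂ)).det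
        = MvPolynomial.C (D.one⁻¹).det := by
      rw [← RingHom.mapMatrix_apply, ← RingHom.map_det]
    rw [h3, ← MvPolynomial.C_mul, ← Matrix.det_mul, Matrix.mul_nonsing_inv _ hu, Matrix.det_one,
      MvPolynomial.C_1]
  have h4 : (-T).det = ((D.one⁻¹).map MvPolynomial.C).det * D.value := by
    rw [hTm, Matrix.det_mul]; rfl
  calc MvPolynomial.C (-(rc ℂ m * D.one.det)) * Matrix.trace (T * flN T m)
      = MvPolynomial.C D.one.det * (-(rc (MvPolynomial σ ℂ) m * Matrix.trace (T * flN T m))) := by
        rw [rc_C, map_neg, MvPolynomial.C_mul]; ring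
    _ = (MvPolynomial.C D.one.det * ((D.one⁻¹).map MvPolynomial.C).det) * D.value := by
        rw [hdet, h4, mul_assoc]
    _ = D.value := by rw [h2, one_mul]

lemma DetRep.toABP_symm (D : DetRep σ (m + 1)) (h1 : D.one.det ≠ 0) (f : σ → σ)
    (hf : Function.Bijective f) (h : D.Direct f) : D.toABP.SymmUnder f := by
  obtain ⟨B, C, hB, hC, h0, hx⟩ := h
  have hu : IsUnit D.one.det := isUnit_iff_ne_zero.mpr h1
  have hCd := (Matrix.isUnit_iff_isUnit_det _).mp hC
  have hone : B * D.one * C = D.one := by
    unfold DetRep.one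
    rw [Matrix.mul_add, Matrix.add_mul, h0, Finset.mul_sum, Finset.sum_mul]
    congr 1
    rw [← hf.sum_comp (fun x => D.A x)]
    exact Finset.sum_congr rfl (fun x _ => hx x)
  have hkey : C⁻¹ * D.one⁻¹ = D.one⁻¹ * B := by
    have e1 : D.one⁻¹ * B * (D.one * C) = 1 := by
      calc D.one⁻¹ * B * (D.one * C) = D.one⁻¹ * (B * D.one * C) := by simp only [Matrix.mul_assoc]
        _ = 1 := by rw [hone, Matrix.nonsing_inv_mul _ hu]
    have e2 : D.one * C * (C⁻¹ * D.one⁻¹) = 1 := by
      calc D.one * C * (C⁻¹ * D.one⁻¹) = D.one * (C * C⁻¹) * D.one⁻¹ := by simp only [Matrix.mul_assoc]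
        _ = 1 := by rw [Matrix.mul_nonsing_inv _ hCd, Matrix.mul_one, Matrix.mul_nonsing_inv _ hu]
    calc C⁻¹ * D.one⁻¹ = (D.one⁻¹ * B * (D.one * C)) * (C⁻¹ * D.one⁻¹) := by rw [e1, Matrix.one_mul]
      _ = D.one⁻¹ * B * (D.one * C * (C⁻¹ * D.one⁻¹)) := by simp only [Matrix.mul_assoc]
      _ = D.one⁻¹ * B := by rw [e2, Matrix.mul_one]
  have hCi : IsUnit C⁻¹ := by
    rw [Matrix.isUnit_iff_isUnit_det]
    exact Matrix.isUnit_nonsing_inv_det _ hCd
  have hgen : ∀ M M' : Matrix (Fin (m + 1)) (Fin (m + 1)) ℂ, B * M * C = M' →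
      C⁻¹ * (-(D.one⁻¹ * M)) = (-(D.one⁻¹ * M')) * C⁻¹ := by
    intro M M' hM
    rw [← hM, Matrix.mul_neg, Matrix.neg_mul, ← Matrix.mul_assoc, hkey]
    congr 1
    calc D.one⁻¹ * B * M = D.one⁻¹ * B * M * (C * C⁻¹) := by
          rw [Matrix.mul_nonsing_inv _ hCd, Matrix.mul_one]
      _ = D.one⁻¹ * (B * M * C) * C⁻¹ := by simp only [Matrix.mul_assoc]
  refine ⟨symM C⁻¹, symM_isUnit _ hCi, ?_, ?_, ?_, ?_⟩
  · intro j
    show symM C⁻¹ none j = if j = none then 1 else 0
    rcases j with _ | _ | ⟨k, i, j⟩
    · simp [symM]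
    · simp [symM]
    · simp [symM]
  · intro i
    show symM C⁻¹ i (some none) = if i = some none then 1 else 0
    rcases i with _ | _ | ⟨k, i, j⟩
    · simp [symM]
    · simp [symM]
    · simp [symM]
  · show symM C⁻¹ * (iniM (m + 1) + stepM _ (-(D.one⁻¹ * D.A0)))
      = (iniM (m + 1) + stepM _ (-(D.one⁻¹ * D.A0))) * symM C⁻¹
    rw [Matrix.mul_add, Matrix.add_mul, symM_ini _ hCi, symM_step _ _ _ _ hCi (hgen _ _ h0)]
  · intro x
    exact symM_step _ _ _ _ hCi (hgen _ _ (hx x))

/-! ### the lower bound -/

variable {p : ℕ} [Fact p.Prime]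

lemma act_bijective (N : Net) (g : N.E → (ZMod p)ˣ × ZMod p) : Function.Bijective (N.act g) := by
  rw [← Finite.injective_iff_bijective]
  rintro ⟨w, γ⟩ ⟨w', γ'⟩ h
  unfold Net.act at h
  obtain ⟨h1, h2⟩ := Prod.mk.inj h
  subst h1
  congr 1
  funext s
  have h3 := congrFun h2 s
  simp only at h3
  rcases he : N.edge w s with _ | e
  · rw [he] at h3
    exact h3
  · rw [he] at h3
    simp only [add_left_inj] at h3
    exact mul_left_cancel₀ (Units.ne_zero _) h3

lemma poly_eval_one (N : Net) : MvPolynomial.eval (fun _ => (1 : ℂ)) (N.poly p) ≠ 0 := by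
  classical
  unfold Net.poly
  rw [map_sum]
  have : ∀ α : N.Lab p, MvPolynomial.eval (fun _ => (1 : ℂ))
      (if N.Cons α then (∏ w, MvPolynomial.X (w, α w) : MvPolynomial (N.Var p) ℂ) else 0)
      = if N.Cons α then 1 else 0 := by
    intro α
    split_ifs
    · simp
    · simp
  rw [Finset.sum_congr rfl (fun α _ => this α), Finset.sum_boole, Nat.cast_ne_zero, Finset.card_ne_zero]
  exact ⟨fun _ _ => 0, Finset.mem_filter.mpr ⟨Finset.mem_univ _, fun _ => rfl⟩⟩

lemma DetRep.eval_one (D : DetRep σ m) :
    MvPolynomial.eval (fun _ => (1 : ℂ)) D.value = D.one.det := by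
  unfold DetRep.value
  rw [RingHom.map_det]
  congr 1
  ext1 i j
  rw [RingHom.mapMatrix_apply, Matrix.map_apply]
  simp only [DetRep.mat, DetRep.one, Matrix.add_apply, Matrix.sum_apply, map_add, map_sum, map_mul,
    MvPolynomial.eval_C, MvPolynomial.eval_X, mul_one]

theorem det_lower_sub (N : Net) (k : ℕ) (hcut : ¬ Good N k ∅) (D : DetRep (N.Var p) (m + 1))
    (H : Subgroup (ZMod p)ˣ)
    (hD : ∀ g : N.E → (ZMod p)ˣ × ZMod p, (∀ e, (g e).1 ∈ H) → D.Direct (N.act g))
    (hval : D.value = N.poly p) :
    (Nat.card H) ^ k ≤ (m + 1) ^ 3 + 2 := by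
  have h1 : D.one.det ≠ 0 := by
    rw [← DetRep.eval_one, hval]
    exact poly_eval_one N
  have h := symmetric_lower_sub N k hcut D.toABP H
    (fun g hg => D.toABP_symm h1 _ (act_bijective N g) (hD g hg))
    ((D.toABP_value h1).trans hval)
  have hc : Fintype.card (DV (m + 1)) = (m + 1) ^ 3 + 2 := by
    simp only [DV, Fintype.card_option, Fintype.card_prod, Fintype.card_fin]
    ring
  rw [hc] at h
  exact h

/-- squares of units -/
def sqs (p : ℕ) : Subgroup (ZMod p)ˣ := (powMonoidHom 2 : (ZMod p)ˣ →* (ZMod p)ˣ).range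

lemma card_sqs : (p - 1) / 2 ≤ Nat.card (sqs p) := by
  have h1 := Subgroup.card_mul_index (powMonoidHom 2 : (ZMod p)ˣ →* (ZMod p)ˣ).ker
  rw [Subgroup.index_ker] at h1
  have h2 : Nat.card (ZMod p)ˣ = p - 1 := by
    rw [Nat.card_eq_fintype_card, ZMod.card_units_eq_totient, Nat.totient_prime (Fact.out : p.Prime)]
  have h3 : Nat.card (powMonoidHom 2 : (ZMod p)ˣ →* (ZMod p)ˣ).ker ≤ 2 := by
    classical
    rw [Nat.card_eq_fintype_card]
    have h4 : ∀ u : (powMonoidHom 2 : (ZMod p)ˣ →* (ZMod p)ˣ).ker, (u : (ZMod p)ˣ) = 1 ∨ (u : (ZMod p)ˣ) = -1 := by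
      rintro ⟨u, hu⟩
      rw [MonoidHom.mem_ker, powMonoidHom_apply] at hu
      have h5 : ((u : ZMod p)) ^ 2 = 1 := by
        rw [← Units.val_pow_eq_pow_val, hu, Units.val_one]
      rw [pow_two] at h5
      rcases mul_self_eq_one_iff.mp h5 with h6 | h6
      · left; exact Units.ext (by simpa using h6)
      · right; exact Units.ext (by simpa using h6)
    calc Fintype.card (powMonoidHom 2 : (ZMod p)ˣ →* (ZMod p)ˣ).ker
        = (Finset.univ.image (fun u : (powMonoidHom 2 : (ZMod p)ˣ →* (ZMod p)ˣ).ker =>
            (u : (ZMod p)ˣ))).card := by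
          rw [Finset.card_image_of_injective _ Subtype.val_injective, Finset.card_univ]
      _ ≤ ({1, -1} : Finset (ZMod p)ˣ).card := by
          apply Finset.card_le_card
          intro v hv
          obtain ⟨u, _, rfl⟩ := Finset.mem_image.mp hv
          rcases h4 u with h | h
          · rw [h]; simp
          · rw [h]; simp
      _ ≤ 2 := Finset.card_le_two
  have h6 : Nat.card (sqs p) = Nat.card (powMonoidHom 2 : (ZMod p)ˣ →* (ZMod p)ˣ).range := rfl
  rw [h6]
  rw [h2] at h1
  have h7 : p - 1 ≤ 2 * Nat.card (powMonoidHom 2 : (ZMod p)ˣ →* (ZMod p)ˣ).range := by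
    rw [← h1]
    exact Nat.mul_le_mul_right _ h3
  omega

/-- every affine map with square slope is the square of an affine map (`p` odd) -/
lemma exists_root (hp : p ≠ 2) (g : (ZMod p)ˣ × ZMod p) (hg : g.1 ∈ sqs p) :
    ∃ h : (ZMod p)ˣ × ZMod p, ∀ x : ZMod p,
      (h.1 : ZMod p) * ((h.1 : ZMod p) * x + h.2) + h.2 = (g.1 : ZMod p) * x + g.2 := by
  obtain ⟨v, s⟩ := g
  obtain ⟨u, hu⟩ := hg
  simp only [powMonoidHom_apply] at hu
  by_cases hv : v = 1
  · have h2 : (2 : ZMod p) ≠ 0 := by
      intro h
      have h3 : ((2 : ℕ) : ZMod p) = 0 := by exact_mod_cast h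
      rw [ZMod.natCast_eq_zero_iff] at h3
      have h4 := Nat.le_of_dvd (by norm_num) h3
      have h5 := (Fact.out : p.Prime).two_le
      omega
    refine ⟨(1, s * 2⁻¹), fun x => ?_⟩
    simp only [hv, Units.val_one, one_mul]
    rw [add_assoc, ← mul_two, mul_assoc, inv_mul_cancel₀ h2, mul_one]
  · have h2 : (u : ZMod p) + 1 ≠ 0 := by
      intro h
      apply hv
      rw [← hu]
      apply Units.ext
      have h3 : (u : ZMod p) = -1 := by linear_combination h
      rw [Units.val_pow_eq_pow_val, h3]
      simp
    refine ⟨(u, s * ((u : ZMod p) + 1)⁻¹), fun x => ?_⟩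
    have h3 : (v : ZMod p) = (u : ZMod p) ^ 2 := by rw [← hu, Units.val_pow_eq_pow_val]
    simp only [h3]
    have h4 : ((u : ZMod p) + 1) * ((u : ZMod p) + 1)⁻¹ = 1 := mul_inv_cancel₀ h2
    linear_combination s * h4

/-- **Lower bound for determinantal representations** respecting `AGL(1,p)^E`. -/
theorem det_lower (N : Net) (k : ℕ) (hcut : ¬ Good N k ∅) (D : DetRep (N.Var p) (m + 1))
    (hD : ∀ g : N.E → (ZMod p)ˣ × ZMod p, D.Respects (N.act g)) (hval : D.value = N.poly p) :
    ((p - 1) / 2) ^ k ≤ (m + 1) ^ 3 + 2 := by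
  by_cases hp : p = 2
  · subst hp
    rcases Nat.eq_zero_or_pos k with hk | hk
    · subst hk; simp
    · rw [show (2 - 1) / 2 = 0 from rfl, zero_pow (by omega)]
      exact Nat.zero_le _
  · refine le_trans (Nat.pow_le_pow_left card_sqs k) (det_lower_sub N k hcut D (sqs p) ?_ hval)
    intro g hg
    choose h hh using fun e => exists_root hp (g e) (hg e)
    have h1 := D.direct_sq _ (hD h)
    have h2 : N.act h ∘ N.act h = N.act g := by
      funext x
      obtain ⟨w, γ⟩ := x
      simp only [Function.comp, Net.act]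
      congr 1
      funext s
      rcases he : N.edge w s with _ | e
      · rfl
      · exact hh e (γ s)
    rw [h2] at h1
    exact h1

end H522R2.Eqv
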