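import Mathlib

set_option autoImplicit false
set_option linter.unusedSectionVars false

/-!
The Faddeev–LeVerrier recursion over an arbitrary commutative `ℂ`-algebra.
-/

namespace H522R2.Eqv

open Matrix Polynomial

section Derivative

variable {ι R : Type*} [Fintype ι] [DecidableEq ι] [CommRing R]

lemma derivative_charpoly (A : Matrix ι ι R) :
    derivative A.charpoly = trace (adjugate (charmatrix A)) := by
  have hder : ∀ i j, derivative (charmatrix A i j) = if i = j then 1 else 0 := by
    intro i j
    by_cases h : i = j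
    · subst h; simp [charmatrix_apply_eq]
    · simp [charmatrix_apply_ne _ _ _ h, h]
  rw [charpoly, ← det_transpose, det_apply, derivative_sum]
  simp only [trace, diag_apply, adjugate_apply]
  have h1 : ∀ i, (updateRow (charmatrix A) i (Pi.single i 1)).det =
      ∑ σ : Equiv.Perm ι, Equiv.Perm.sign σ • ((∏ j ∈ Finset.univ.erase i,
        charmatrix A j (σ j)) * (if i = σ i then 1 else 0)) := by
    intro i
    rw [← det_transpose, det_apply]
    refine Finset.sum_congr rfl fun σ _ => ?_
    congr 1
    rw [← Finset.prod_erase_mul _ _ (Finset.mem_univ i)]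
    congr 1
    · refine Finset.prod_congr rfl fun j hj => ?_
      simp [updateRow_ne (Finset.ne_of_mem_erase hj)]
    · simp [Pi.single_apply, eq_comm]
  simp only [h1]
  rw [Finset.sum_comm]
  refine Finset.sum_congr rfl fun σ _ => ?_
  rw [← Finset.smul_sum]
  simp only [transpose_apply]
  rw [Units.smul_def, Units.smul_def, derivative_smul, derivative_prod_finset]
  congr 1
  refine Finset.sum_congr rfl fun i _ => ?_
  rw [hder]

end Derivative

section FL

variable {m : ℕ} {R : Type*} [CommRing R] [Algebra ℂ R]

/-- the scalar `1/(k+1)` -/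
noncomputable def rc (R : Type*) [CommRing R] [Algebra ℂ R] (k : ℕ) : R :=
  algebraMap ℂ R (1 / ((k : ℂ) + 1))

lemma rc_mul (k : ℕ) : rc R k * ((k : R) + 1) = 1 := by
  have h : ((k : R) + 1) = algebraMap ℂ R ((k : ℂ) + 1) := by simp
  rw [rc, h, ← map_mul, one_div_mul_cancel, map_one]
  exact Nat.cast_add_one_ne_zero k

/-- The matrices of the Faddeev–LeVerrier algorithm. -/
noncomputable def flN (A : Matrix (Fin m) (Fin m) R) : ℕ → Matrix (Fin m) (Fin m) R
  | 0 => 1
  | k + 1 => A * flN A k - (rc R k * trace (A * flN A k)) • 1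

/-- The coefficients of the adjugate of the characteristic matrix. -/
noncomputable def adjc (A : Matrix (Fin m) (Fin m) R) (k : ℕ) : Matrix (Fin m) (Fin m) R :=
  (matPolyEquiv (adjugate (charmatrix A))).coeff k

lemma adjc_mul (A : Matrix (Fin m) (Fin m) R) :
    (X - C A) * matPolyEquiv (adjugate (charmatrix A)) =
      A.charpoly.map (algebraMap R (Matrix (Fin m) (Fin m) R)) := by
  have h : A.charpoly • (1 : Matrix (Fin m) (Fin m) R[X]) =
      charmatrix A * adjugate (charmatrix A) := (mul_adjugate _).symm
  have h2 := congrArg matPolyEquiv h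
  rw [map_mul, matPolyEquiv_charmatrix, matPolyEquiv_smul_one] at h2
  exact h2.symm

lemma algMap_eq (c : R) : algebraMap R (Matrix (Fin m) (Fin m) R) c = c • 1 :=
  Algebra.algebraMap_eq_smul_one c

lemma adjc_rec (A : Matrix (Fin m) (Fin m) R) (k : ℕ) :
    adjc A k = A * adjc A (k + 1) + A.charpoly.coeff (k + 1) • 1 := by
  have h := congrArg (fun p => coeff p (k + 1)) (adjc_mul A)
  simp only [coeff_map, sub_mul, coeff_sub, coeff_X_mul, coeff_C_mul, algMap_eq] at h
  unfold adjc
  rw [← h]
  abel

lemma adjc_zero_rec (A : Matrix (Fin m) (Fin m) R) :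
    0 = A * adjc A 0 + A.charpoly.coeff 0 • 1 := by
  have h := congrArg (fun p => coeff p 0) (adjc_mul A)
  simp only [coeff_map, sub_mul, coeff_sub, coeff_C_mul, algMap_eq, coeff_X_mul_zero,
    zero_sub] at h
  unfold adjc
  rw [← h]
  abel

lemma trace_adjc (A : Matrix (Fin m) (Fin m) R) (k : ℕ) :
    trace (adjc A k) = ((k : R) + 1) * A.charpoly.coeff (k + 1) := by
  have h := congrArg (fun p => coeff p k) (derivative_charpoly A)
  simp only [coeff_derivative, trace, diag_apply, finsetSum_coeff] at h
  unfold trace adjc
  simp only [diag_apply, matPolyEquiv_coeff_apply]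
  rw [← h]
  ring

lemma adjc_eq_zero [Nontrivial R] (A : Matrix (Fin m) (Fin m) R) (k : ℕ) (hk : m ≤ k) :
    adjc A k = 0 := by
  -- downward induction from the degree
  set N := (matPolyEquiv (adjugate (charmatrix A))).natDegree + 1 with hN
  have key : ∀ j, ∀ k, m ≤ k → N ≤ k + j → adjc A k = 0 := by
    intro j
    induction j with
    | zero =>
      intro k _ h
      exact coeff_eq_zero_of_natDegree_lt (by omega)
    | succ j ih =>
      intro k hk h
      rw [adjc_rec, ih (k + 1) (by omega) (by omega)]
      have : A.charpoly.coeff (k + 1) = 0 := by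
        apply coeff_eq_zero_of_natDegree_lt
        rw [charpoly_natDegree_eq_dim, Fintype.card_fin]
        omega
      rw [this]
      simp
  exact key N k hk (by omega)

lemma flN_eq [Nontrivial R] (A : Matrix (Fin m) (Fin m) R) (k : ℕ) (hk : k < m) :
    flN A k = adjc A (m - 1 - k) := by
  induction k with
  | zero =>
    rw [adjc_rec, adjc_eq_zero A _ (by omega)]
    have : A.charpoly.coeff (m - 1 - 0 + 1) = 1 := by
      have h1 : m - 1 - 0 + 1 = m := by omega
      rw [h1]
      have h2 := A.charpoly_monic
      rw [Monic, leadingCoeff, charpoly_natDegree_eq_dim, Fintype.card_fin] at h2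
      exact h2
    rw [this, flN]
    simp
  | succ k ih =>
    have ih' := ih (by omega)
    have e1 : m - 1 - (k + 1) + 1 = m - 1 - k := by omega
    have h1 := adjc_rec A (m - 1 - (k + 1))
    rw [e1, ← ih'] at h1
    have h2 := trace_adjc A (m - 1 - (k + 1))
    rw [e1] at h2
    have h3 : trace (adjc A (m - 1 - (k + 1))) =
        trace (A * flN A k) + A.charpoly.coeff (m - 1 - k) * m := by
      rw [h1, trace_add, trace_smul, trace_one, Fintype.card_fin, smul_eq_mul]
    have h4 : ((m - 1 - (k + 1) : ℕ) : R) + 1 = (m : R) - ((k : R) + 1) := by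
      have : ((m - 1 - (k + 1) : ℕ) : R) + 1 + ((k : R) + 1) = m := by
        have : (m - 1 - (k + 1)) + 1 + (k + 1) = m := by omega
        have h := congrArg (Nat.cast : ℕ → R) this
        push_cast at h
        linear_combination h
      linear_combination this
    rw [h4, h3] at h2
    have h5 : A.charpoly.coeff (m - 1 - k) = - (rc R k * trace (A * flN A k)) := by
      have hk0 := rc_mul (R := R) k
      linear_combination (-(A.charpoly.coeff (m - 1 - k))) * hk0 + (rc R k) * h2
    rw [flN, h1, h5, neg_smul, sub_eq_add_neg]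

/-- The determinant from the Faddeev–LeVerrier recursion. -/
theorem det_eq_flN [Nontrivial R] (A : Matrix (Fin (m + 1)) (Fin (m + 1)) R) :
    - (rc R m * trace ((-A) * flN (-A) m)) = A.det := by
  have h1 := adjc_zero_rec (-A)
  have h2 := flN_eq (-A) m (by omega)
  rw [show m + 1 - 1 - m = 0 by omega] at h2
  rw [← h2] at h1
  have h3 := congrArg trace h1
  rw [trace_zero, trace_add, trace_smul, trace_one, Fintype.card_fin, smul_eq_mul] at h3
  have h4 := det_eq_sign_charpoly_coeff (-A)
  rw [det_neg, Fintype.card_fin] at h4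
  have h5 : A.det = (-A).charpoly.coeff 0 := by
    rcases Nat.even_or_odd (m + 1) with he | ho
    · rw [he.neg_one_pow] at h4
      linear_combination h4
    · rw [ho.neg_one_pow] at h4
      linear_combination -h4
  rw [h5]
  have hm' := rc_mul (R := R) m
  push_cast at h3
  linear_combination ((-A).charpoly.coeff 0) * hm' + (rc R m) * h3

end FL

end H522R2.Eqv
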