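import Pool.Agent.H522R2.EqvCirc

/-!
Symmetric skew circuits are symmetric branching programs.
-/

namespace H522R2.Eqv

open Finset BigOperators

set_option linter.unusedSectionVars false

variable {σ : Type} [Fintype σ] [DecidableEq σ]

/-- constant part of an input gate -/
def Kind.cpart : Kind σ → ℂ
  | Kind.const c => c
  | _ => 0

/-- coefficient of the variable `x` in an input gate -/
def Kind.vpart (x : σ) : Kind σ → ℂ
  | Kind.var y => if y = x then 1 else 0
  | _ => 0

/-- the weight with which the product `h * h'` is charged to `h` -/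
noncomputable def wgt (k k' : Kind σ) : ℂ :=
  if k'.isIn then (if k.isIn then 1 / 2 else 1) else 0

/-- constant part of the label of the edge from `h` to `g` -/
noncomputable def Circuit.lab0 (C : Circuit σ) (h g : C.G) : ℂ :=
  if h ∈ C.args g then
    match C.kind g with
    | Kind.sum => 1
    | Kind.prod => ∑ h' ∈ (C.args g).erase h, wgt (C.kind h) (C.kind h') * (C.kind h').cpart
    | _ => 0
  else 0

/-- coefficient of `x` in the label of the edge from `h` to `g` -/
noncomputable def Circuit.lab (C : Circuit σ) (x : σ) (h g : C.G) : ℂ :=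
  if h ∈ C.args g then
    match C.kind g with
    | Kind.prod => ∑ h' ∈ (C.args g).erase h, wgt (C.kind h) (C.kind h') * (C.kind h').vpart x
    | _ => 0
  else 0

/-- the branching program of a skew circuit; `none` is the source -/
noncomputable def Circuit.toABP (C : Circuit σ) : ABP σ (Option C.G) where
  A0 i j := match i, j with
    | none, some g => (C.kind g).cpart
    | some h, some g => C.lab0 h g
    | _, none => 0
  A x i j := match i, j with
    | none, some g => (C.kind g).vpart x
    | some h, some g => C.lab x h g
    | _, none => 0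
  rk i := match i with
    | none => 0
    | some g => C.rk g + 1
  acyc0 i j h := by
    rcases i with _ | i <;> rcases j with _ | j
    · rfl
    · simp at h
    · rfl
    · simp only [add_le_add_iff_right] at h
      simp only [Circuit.lab0]
      rw [if_neg]
      intro hij
      have := C.rk_lt j i hij
      omega
  acyc x i j h := by
    rcases i with _ | i <;> rcases j with _ | j
    · rfl
    · simp at h
    · rfl
    · simp only [add_le_add_iff_right] at h
      simp only [Circuit.lab]
      rw [if_neg]
      intro hij
      have := C.rk_lt j i hij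
      omega
  s := none
  t := some C.out

/-- the polynomial of an input gate -/
noncomputable def Kind.poly (k : Kind σ) : MvPolynomial σ ℂ :=
  MvPolynomial.C k.cpart + ∑ x, MvPolynomial.C (k.vpart x) * MvPolynomial.X x

lemma Kind.poly_var (x : σ) : (Kind.var x).poly = MvPolynomial.X x := by
  unfold Kind.poly
  simp only [Kind.cpart, Kind.vpart, map_zero, zero_add]
  rw [Finset.sum_eq_single x]
  · simp
  · intro y _ hy
    rw [if_neg (fun h => hy h.symm)]; simp
  · simp

lemma Kind.poly_const (c : ℂ) : (Kind.const c : Kind σ).poly = MvPolynomial.C c := by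
  unfold Kind.poly
  simp [Kind.cpart, Kind.vpart]

lemma Circuit.val_const (C : Circuit σ) (g : C.G) (c : ℂ) (h : C.kind g = Kind.const c) :
    C.val g = MvPolynomial.C c := by
  rw [Circuit.val, h]

lemma Circuit.val_isIn (C : Circuit σ) (g : C.G) (h : (C.kind g).isIn = true) :
    C.val g = (C.kind g).poly := by
  rcases hk : C.kind g with x | c | _ | _
  · rw [C.val_var g x hk, Kind.poly_var]
  · rw [C.val_const g c hk, Kind.poly_const]
  · rw [hk] at h; simp [Kind.isIn] at h
  · rw [hk] at h; simp [Kind.isIn] at h

lemma toABP_vec_none (C : Circuit σ) : C.toABP.vec none = 1 := by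
  rw [ABP.vec_eq]
  have h1 : C.toABP.s = none := rfl
  rw [if_pos h1, Finset.sum_eq_zero, add_zero]
  intro i _
  have : C.toABP.mat i none = 0 := by
    unfold ABP.mat
    rcases i with _ | i <;> simp [Circuit.toABP]
  rw [this, mul_zero]

lemma toABP_mat_none (C : Circuit σ) (g : C.G) : C.toABP.mat none (some g) = (C.kind g).poly := rfl

lemma toABP_mat_some (C : Circuit σ) (h g : C.G) : C.toABP.mat (some h) (some g)
    = MvPolynomial.C (C.lab0 h g) + ∑ x, MvPolynomial.C (C.lab x h g) * MvPolynomial.X x := rfl

lemma toABP_vec (C : Circuit σ) (hC : C.Skew) : ∀ (n : ℕ) (g : C.G), C.rk g = n →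
    C.toABP.vec (some g) = C.val g := by
  intro n
  induction n using Nat.strong_induction_on with
  | _ n ih =>
    intro g hg
    rw [ABP.vec_eq]
    have h1 : ¬ (C.toABP.s = some g) := by simp [Circuit.toABP]
    rw [if_neg h1, zero_add, Fintype.sum_option, toABP_vec_none, one_mul, toABP_mat_none]
    have h2 : ∀ h : C.G, C.toABP.vec (some h) * C.toABP.mat (some h) (some g)
        = if h ∈ C.args g then C.val h * C.toABP.mat (some h) (some g) else 0 := by
      intro h
      split_ifs with hh
      · rw [ih (C.rk h) (by rw [← hg]; exact C.rk_lt g h hh) h rfl]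
      · rw [toABP_mat_some]
        simp [Circuit.lab0, Circuit.lab, hh]
    rw [Finset.sum_congr rfl (fun h _ => h2 h), Finset.sum_ite_mem, Finset.univ_inter]
    rcases hk : C.kind g with x | c | _ | _
    · rw [C.val_var g x hk, Kind.poly_var, Finset.sum_eq_zero, add_zero]
      intro h hh
      rw [toABP_mat_some]
      simp [Circuit.lab0, Circuit.lab, hk]
    · rw [C.val_const g c hk, Kind.poly_const, Finset.sum_eq_zero, add_zero]
      intro h hh
      rw [toABP_mat_some]
      simp [Circuit.lab0, Circuit.lab, hk]
    · rw [C.val_sum g hk]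
      have : (Kind.sum : Kind σ).poly = 0 := by simp [Kind.poly, Kind.cpart, Kind.vpart]
      rw [this, zero_add]
      refine Finset.sum_congr rfl (fun h hh => ?_)
      rw [toABP_mat_some]
      simp [Circuit.lab0, Circuit.lab, hk, hh]
    · rw [C.val_prod g hk]
      have : (Kind.prod : Kind σ).poly = 0 := by simp [Kind.poly, Kind.cpart, Kind.vpart]
      rw [this, zero_add]
      have hmat : ∀ h ∈ C.args g, C.toABP.mat (some h) (some g)
          = ∑ h' ∈ (C.args g).erase h, MvPolynomial.C (wgt (C.kind h) (C.kind h')) * (C.kind h').poly := by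
        intro h hh
        rw [toABP_mat_some]
        simp only [Circuit.lab0, Circuit.lab, if_pos hh, hk, Kind.poly]
        rw [map_sum]
        simp only [map_sum, map_mul, Finset.sum_mul]
        rw [Finset.sum_comm, ← Finset.sum_add_distrib]
        refine Finset.sum_congr rfl (fun h' _ => ?_)
        rw [mul_add, Finset.mul_sum]
        congr 1
        exact Finset.sum_congr rfl (fun x _ => by ring)
      obtain ⟨a, b, hab, hargs, hb⟩ := hC g hk
      rw [Finset.sum_congr rfl (fun h hh => by rw [hmat h hh])]
      have ea : (C.args g).erase a = {b} := by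
        rw [hargs]
        ext y
        simp only [Finset.mem_erase, Finset.mem_insert, Finset.mem_singleton]
        constructor
        · rintro ⟨h1, h2 | h2⟩
          · exact absurd h2 h1
          · exact h2
        · rintro rfl
          exact ⟨fun h => hab h.symm, Or.inr rfl⟩
      have eb : (C.args g).erase b = {a} := by
        rw [hargs]
        ext y
        simp only [Finset.mem_erase, Finset.mem_insert, Finset.mem_singleton]
        constructor
        · rintro ⟨h1, h2 | h2⟩
          · exact h2
          · exact absurd h2 h1
        · rintro rfl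
          exact ⟨hab, Or.inl rfl⟩
      have hs : ∀ F : C.G → MvPolynomial σ ℂ, ∑ h ∈ C.args g, F h = F a + F b := by
        intro F
        rw [hargs, Finset.sum_pair hab]
      have hpr : ∏ h ∈ C.args g, C.val h = C.val a * C.val b := by
        rw [hargs, Finset.prod_pair hab]
      rw [hs, hpr, ea, eb, Finset.sum_singleton, Finset.sum_singleton, C.val_isIn b hb]
      by_cases ha : (C.kind a).isIn = true
      · rw [C.val_isIn a ha]
        simp only [wgt, ha, hb, if_true]
        have h12 : (MvPolynomial.C (1 / 2 : ℂ) : MvPolynomial σ ℂ) + MvPolynomial.C (1 / 2 : ℂ) = 1 := by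
          rw [← MvPolynomial.C_add, ← MvPolynomial.C_1]
          norm_num
        linear_combination (Kind.poly (C.kind a) * Kind.poly (C.kind b)) * h12
      · simp only [wgt, ha, hb, if_true, Bool.false_eq_true, if_false]
        simp

lemma toABP_value (C : Circuit σ) (hC : C.Skew) : C.toABP.value = C.val C.out :=
  toABP_vec C hC _ C.out rfl

/-- the permutation matrix -/
def pmat {V : Type} [Fintype V] [DecidableEq V] (π : Equiv.Perm V) : Matrix V V ℂ :=
  fun i j => if i = π j then 1 else 0

lemma pmat_mul_apply {V : Type} [Fintype V] [DecidableEq V] (π : Equiv.Perm V) (M : Matrix V V ℂ)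
    (i j : V) : (pmat π * M) (π i) j = M i j := by
  rw [Matrix.mul_apply, Finset.sum_eq_single i]
  · simp [pmat]
  · intro l _ hl
    have : ¬ (π i = π l) := fun h => hl (π.injective h).symm
    simp [pmat, this]
  · simp

lemma mul_pmat_apply {V : Type} [Fintype V] [DecidableEq V] (π : Equiv.Perm V) (M : Matrix V V ℂ)
    (i j : V) : (M * pmat π) i j = M i (π j) := by
  rw [Matrix.mul_apply, Finset.sum_eq_single (π j)]
  · simp [pmat]
  · intro l _ hl
    simp [pmat, hl]
  · simp

lemma pmat_isUnit {V : Type} [Fintype V] [DecidableEq V] (π : Equiv.Perm V) : IsUnit (pmat π) := by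
  refine ⟨⟨pmat π, pmat π⁻¹, ?_, ?_⟩, rfl⟩
  · ext i j
    obtain ⟨i, rfl⟩ := π.surjective i
    rw [pmat_mul_apply]
    simp only [pmat, Matrix.one_apply]
    congr 1
    apply propext
    constructor
    · intro h; rw [h]; simp
    · intro h; rw [← h]; simp
  · ext i j
    rw [mul_pmat_apply]
    simp [pmat, Matrix.one_apply]

/-- An automorphism of a labelled graph fixing the source and the target gives a symmetry. -/
lemma symm_of_perm {V : Type} [Fintype V] [DecidableEq V] (B : ABP σ V) (f : σ → σ) (π : Equiv.Perm V)
    (hs : π B.s = B.s) (ht : π B.t = B.t) (h0 : ∀ i j, B.A0 (π i) (π j) = B.A0 i j)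
    (h1 : ∀ x i j, B.A (f x) (π i) (π j) = B.A x i j) : B.SymmUnder f := by
  refine ⟨pmat π, pmat_isUnit π, ?_, ?_, ?_, ?_⟩
  · intro j
    simp only [pmat]
    congr 1
    apply propext
    constructor
    · intro h
      have : π B.s = π j := by rw [hs]; exact h
      exact (π.injective this).symm
    · rintro rfl; exact hs.symm
  · intro i
    simp only [pmat, ht]
  · ext i j
    obtain ⟨i, rfl⟩ := π.surjective i
    rw [pmat_mul_apply, mul_pmat_apply, h0]
  · intro x
    ext i j
    obtain ⟨i, rfl⟩ := π.surjective i
    rw [pmat_mul_apply, mul_pmat_apply, h1]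

lemma toABP_symm (C : Circuit σ) (f : σ → σ) (hf : Function.Injective f) (h : C.SymmUnder f) :
    C.toABP.SymmUnder f := by
  obtain ⟨π, hout, hπ⟩ := h
  have hcp : ∀ k : Kind σ, (k.map f).cpart = k.cpart := by intro k; cases k <;> rfl
  have hvp : ∀ (x : σ) (k : Kind σ), (k.map f).vpart (f x) = k.vpart x := by
    intro x k
    cases k with
    | var y => simp [Kind.map, Kind.vpart, hf.eq_iff]
    | const c => rfl
    | sum => rfl
    | prod => rfl
  have hw : ∀ k k' : Kind σ, wgt (k.map f) (k'.map f) = wgt k k' := by
    intro k k'; cases k <;> cases k' <;> rfl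
  have hmem : ∀ a g, π a ∈ C.args (π g) ↔ a ∈ C.args g := by
    intro a g
    rw [(hπ g).1, Finset.mem_map]
    constructor
    · rintro ⟨b, hb, hab⟩
      have : b = a := π.injective hab
      rwa [← this]
    · intro ha; exact ⟨a, ha, rfl⟩
  have herase : ∀ a g (F : C.G → ℂ), ∑ h' ∈ (C.args (π g)).erase (π a), F h'
      = ∑ h' ∈ (C.args g).erase a, F (π h') := by
    intro a g F
    rw [(hπ g).1]
    have : ((C.args g).map π.toEmbedding).erase (π a) = ((C.args g).erase a).map π.toEmbedding := by
      rw [Finset.map_erase]; rfl
    rw [this, Finset.sum_map]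
    rfl
  refine symm_of_perm C.toABP f (Equiv.optionCongr π) rfl ?_ ?_ ?_
  · show some (π C.out) = some C.out
    rw [hout]
  · intro i j
    rcases i with _ | i <;> rcases j with _ | j
    · rfl
    · show (C.kind (π j)).cpart = (C.kind j).cpart
      rw [(hπ j).2, hcp]
    · rfl
    · show C.lab0 (π i) (π j) = C.lab0 i j
      unfold Circuit.lab0
      simp only [hmem]
      split_ifs
      · rw [(hπ j).2]
        rcases hk : C.kind j with x | c | _ | _
        · rfl
        · rfl
        · rfl
        · simp only [Kind.map]
          rw [herase]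
          refine Finset.sum_congr rfl (fun h' _ => ?_)
          rw [(hπ i).2, (hπ h').2, hw, hcp]
      · rfl
  · intro x i j
    rcases i with _ | i <;> rcases j with _ | j
    · rfl
    · show (C.kind (π j)).vpart (f x) = (C.kind j).vpart x
      rw [(hπ j).2, hvp]
    · rfl
    · show C.lab (f x) (π i) (π j) = C.lab x i j
      unfold Circuit.lab
      simp only [hmem]
      split_ifs
      · rw [(hπ j).2]
        rcases hk : C.kind j with x | c | _ | _
        · rfl
        · rfl
        · rfl
        · simp only [Kind.map]
          rw [herase]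
          refine Finset.sum_congr rfl (fun h' _ => ?_)
          rw [(hπ i).2, (hπ h').2, hw, hvp]
      · rfl

end H522R2.Eqv
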