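import Pool.Agent.H522R2.EqvNet

/-!
The ternary tree networks and their cutwidth.
-/

namespace H522R2.Eqv

open Finset BigOperators

set_option linter.unusedSectionVars false

/-! ### cutwidth -/

/-- boundary with a virtual parent of the root, which belongs to the set iff `r` -/
def Bd (d : ℕ) (C : TW d → Prop) (r : Prop) (e : TW d) : Prop :=
  (e = troot d ∧ ¬ (C (troot d) ↔ r)) ∨ (e ≠ troot d ∧ ¬ (C (tup d e).1 ↔ C e))

lemma Bd_child (d : ℕ) (C : TW (d + 1) → Prop) (r : Prop) (i : Fin 3) (e : TW d) :
    Bd (d + 1) C r (TW.sub d i e) ↔ Bd d (fun v => C (TW.sub d i v)) (C (TW.top d)) e := by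
  unfold Bd
  have h1 := sub_ne_root d i e
  by_cases he : e = troot d
  · subst he
    simp only [tup, if_true, h1, false_and, ne_eq, not_false_iff, true_and, false_or, not_true,
      or_false]
    rw [iff_comm (a := C (TW.top d))]
  · simp only [tup, h1, false_and, ne_eq, not_false_iff, true_and, false_or, he, if_false]

/-- connectedness -/
lemma exists_bd (d : ℕ) (v : TW d) : ∀ (C : TW d → Prop) (r : Prop), (¬ (C v ↔ r)) →
    ∃ e, Bd d C r e := by
  induction v with
  | leaf => exact fun C r h => ⟨TW.leaf, Or.inl ⟨rfl, h⟩⟩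
  | top d => exact fun C r h => ⟨TW.top d, Or.inl ⟨rfl, h⟩⟩
  | sub d i v ih =>
    intro C r h
    by_cases hr : C (TW.top d) ↔ r
    · obtain ⟨e, he⟩ := ih (fun v => C (TW.sub d i v)) (C (TW.top d)) (by
        intro h'; exact h (h'.trans hr))
      exact ⟨TW.sub d i e, (Bd_child d C r i e).mpr he⟩
    · exact ⟨TW.top d, Or.inl ⟨rfl, hr⟩⟩

/-- number of boundary edges (the dangling root edge not counted) -/
noncomputable def nb (d : ℕ) (C : Finset (TW d)) : ℕ := ((tree d).bd C).card

lemma mem_bd_tree (d : ℕ) (C : Finset (TW d)) (e : TW d) :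
    e ∈ (tree d).bd C ↔ e ≠ troot d ∧ ¬ ((tup d e).1 ∈ C ↔ e ∈ C) := by
  unfold Net.bd
  rw [Finset.mem_filter]
  show (_ ∧ ¬ ((tup d e).1 ∈ C ↔ e ∈ C)) ↔ _
  constructor
  · rintro ⟨_, h⟩
    refine ⟨?_, h⟩
    rintro rfl
    rw [tup_root] at h
    exact h Iff.rfl
  · rintro ⟨_, h⟩
    exact ⟨Finset.mem_univ _, h⟩

/-- a chain of sets from `∅` to everything -/
structure Chain (α : Type) [Fintype α] [DecidableEq α] (n : ℕ) (C : ℕ → Finset α) : Prop where
  zero : C 0 = ∅
  last : C n = univ
  mono : ∀ j, C j ⊆ C (j + 1)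
  step : ∀ j, (C (j + 1) \ C j).card ≤ 1

lemma Chain.le {α : Type} [Fintype α] [DecidableEq α] {n : ℕ} {C : ℕ → Finset α} (h : Chain α n C)
    {i j : ℕ} (hij : i ≤ j) : C i ⊆ C j := by
  induction hij with
  | refl => exact Finset.Subset.refl _
  | step _ ih => exact ih.trans (h.mono _)

/-- the part of a chain in the `i`-th copy -/
def part {d : ℕ} (i : Fin 3) (C : Finset (TW (d + 1))) : Finset (TW d) :=
  univ.filter (fun v => TW.sub d i v ∈ C)

lemma Chain.part {d n : ℕ} {C : ℕ → Finset (TW (d + 1))} (h : Chain (TW (d + 1)) n C) (i : Fin 3) :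
    Chain (TW d) n (fun j => H522R2.Eqv.part i (C j)) where
  zero := by unfold H522R2.Eqv.part; simp [h.zero]
  last := by unfold H522R2.Eqv.part; simp [h.last]
  mono := by
    intro j v hv
    unfold H522R2.Eqv.part at hv ⊢
    rw [Finset.mem_filter] at hv ⊢
    exact ⟨hv.1, h.mono j hv.2⟩
  step := by
    intro j
    have hinj : Function.Injective (fun v : TW d => TW.sub d i v) := by
      intro v v' hv
      simpa using hv
    calc _ = ((H522R2.Eqv.part i (C (j + 1)) \ H522R2.Eqv.part i (C j)).image
          (fun v : TW d => TW.sub d i v)).card := (Finset.card_image_of_injective _ hinj).symm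
      _ ≤ (C (j + 1) \ C j).card := by
        apply Finset.card_le_card
        intro x hx
        rw [Finset.mem_image] at hx
        obtain ⟨v, hv, rfl⟩ := hx
        unfold H522R2.Eqv.part at hv
        rw [Finset.mem_sdiff, Finset.mem_filter, Finset.mem_filter] at hv
        rw [Finset.mem_sdiff]
        exact ⟨hv.1.2, fun h' => hv.2 ⟨Finset.mem_univ _, h'⟩⟩
      _ ≤ 1 := h.step j

/-- the inner boundary of a copy is part of the boundary -/
lemma part_bd {d : ℕ} (i : Fin 3) (C : Finset (TW (d + 1))) (e : TW d)
    (he : e ∈ (tree d).bd (part i C)) : TW.sub d i e ∈ (tree (d + 1)).bd C := by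
  rw [mem_bd_tree] at he ⊢
  obtain ⟨h1, h2⟩ := he
  refine ⟨by simp [troot], ?_⟩
  simp only [tup, if_neg h1]
  unfold part at h2
  simpa using h2

lemma Bd_mem {d : ℕ} (i : Fin 3) (C : Finset (TW (d + 1))) (e : TW d)
    (he : Bd d (fun v => TW.sub d i v ∈ C) (TW.top d ∈ C) e) :
    TW.sub d i e ∈ (tree (d + 1)).bd C := by
  have h := (Bd_child d (fun v => v ∈ C) True i e).mpr he
  rw [mem_bd_tree]
  rcases h with ⟨h, _⟩ | h
  · exact absurd h (sub_ne_root d i e)
  · exact h

theorem cut_tree : (d : ℕ) → (n : ℕ) → (C : ℕ → Finset (TW d)) → Chain (TW d) n C →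
    ∃ j, j ≤ n ∧ d ≤ nb d (C j)
  | 0, n, C, _ => ⟨0, Nat.zero_le _, Nat.zero_le _⟩
  | 1, n, C, h => by
    -- some set of the chain is neither empty nor full
    obtain ⟨j, hj, hne⟩ : ∃ j, j ≤ n ∧ (nb 1 (C j)) ≠ 0 := by
      by_contra hcon
      push Not at hcon
      -- then all sets of the chain are empty or full
      have hall : ∀ j, j ≤ n → C j = ∅ ∨ C j = univ := by
        intro j hj
        have h0 := hcon j hj
        unfold nb at h0
        rw [Finset.card_eq_zero] at h0
        by_cases hn : TW.top 0 ∈ C j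
        · right
          ext v
          simp only [Finset.mem_univ, iff_true]
          by_contra hv
          have : ∃ i, v = TW.sub 0 i TW.leaf := by
            rcases v with _ | _ | ⟨_, i, ⟨⟩⟩
            · exact absurd hn hv
            · exact ⟨i, rfl⟩
          obtain ⟨i, rfl⟩ := this
          have h1 : TW.sub 0 i TW.leaf ∈ (tree 1).bd (C j) := by
            rw [mem_bd_tree]
            refine ⟨by simp [troot], ?_⟩
            intro h2
            exact hv (h2.mp hn)
          rw [h0] at h1
          simp at h1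
        · left
          ext v
          simp only [Finset.notMem_empty, iff_false]
          intro hv
          have : ∃ i, v = TW.sub 0 i TW.leaf := by
            rcases v with _ | _ | ⟨_, i, ⟨⟩⟩
            · exact absurd hv hn
            · exact ⟨i, rfl⟩
          obtain ⟨i, rfl⟩ := this
          have h1 : TW.sub 0 i TW.leaf ∈ (tree 1).bd (C j) := by
            rw [mem_bd_tree]
            refine ⟨by simp [troot], ?_⟩
            intro h2
            exact hn (h2.mpr hv)
          rw [h0] at h1
          simp at h1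
      have hempty : ∀ j, j ≤ n → C j = ∅ := by
        intro j
        induction j with
        | zero => intro _; exact h.zero
        | succ j ih =>
          intro hj
          have h1 := ih (by omega)
          rcases hall (j + 1) hj with h2 | h2
          · exact h2
          · exfalso
            have h3 := h.step j
            rw [h1, h2, Finset.sdiff_empty] at h3
            have : (univ : Finset (TW 1)).card = 4 := by decide
            omega
      have h1 := hempty n (le_refl _)
      rw [h.last] at h1
      exact absurd h1 (by decide)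
    exact ⟨j, hj, Nat.pos_of_ne_zero hne⟩
  | d + 2, n, C, h => by
    classical
    have hI : ∀ i : Fin 3, ∃ j, j ≤ n ∧ d + 1 ≤ nb (d + 1) (part i (C j)) := fun i =>
      cut_tree (d + 1) n _ (h.part i)
    choose J hJn hJ using hI
    -- order the three copies by time
    obtain ⟨x, y, z, hxy, hyz, hxz, h1, h2⟩ : ∃ x y z : Fin 3, x ≠ y ∧ y ≠ z ∧ x ≠ z ∧
        J x ≤ J y ∧ J y ≤ J z := by
      rcases le_total (J 0) (J 1) with a | a <;> rcases le_total (J 1) (J 2) with b | b <;>
        rcases le_total (J 0) (J 2) with c | c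
      · exact ⟨0, 1, 2, by decide, by decide, by decide, a, b⟩
      · exact ⟨0, 1, 2, by decide, by decide, by decide, a, b⟩
      · exact ⟨0, 2, 1, by decide, by decide, by decide, c, b⟩
      · exact ⟨2, 0, 1, by decide, by decide, by decide, c, a⟩
      · exact ⟨1, 0, 2, by decide, by decide, by decide, a, c⟩
      · exact ⟨1, 2, 0, by decide, by decide, by decide, b, c⟩
      · exact ⟨2, 1, 0, by decide, by decide, by decide, b, a⟩
      · exact ⟨2, 1, 0, by decide, by decide, by decide, b, a⟩
    refine ⟨J y, hJn y, ?_⟩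
    -- the copy `x` is nonempty, the copy `z` is not full at time `J y`
    have hx : ∃ v, TW.sub (d+1) x v ∈ C (J y) := by
      by_contra hcon
      push Not at hcon
      have h3 := hJ x
      have : part x (C (J x)) = ∅ := by
        unfold part
        rw [Finset.filter_eq_empty_iff]
        intro v _ hv
        exact hcon v (h.le h1 hv)
      rw [this] at h3
      have h4 : nb (d + 1) ∅ = 0 := by
        unfold nb Net.bd; simp
      omega
    have hz : ∃ v, TW.sub (d+1) z v ∉ C (J y) := by
      by_contra hcon
      push Not at hcon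
      have h3 := hJ z
      have : part z (C (J z)) = univ := by
        unfold part
        rw [Finset.filter_eq_self]
        intro v _
        exact h.le h2 (hcon v)
      rw [this] at h3
      have h4 : nb (d + 1) univ = 0 := by
        unfold nb Net.bd; simp
      omega
    -- an additional boundary edge outside the copy `y`
    obtain ⟨q, e, hq, hqe⟩ : ∃ q : Fin 3, ∃ e, q ≠ y ∧
        TW.sub (d+1) q e ∈ (tree (d + 2)).bd (C (J y)) := by
      by_cases hn : TW.top (d+1) ∈ C (J y)
      · obtain ⟨v, hv⟩ := hz
        obtain ⟨e, he⟩ := exists_bd (d + 1) v (fun v => TW.sub (d+1) z v ∈ C (J y))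
          (TW.top (d+1) ∈ C (J y)) (fun h' => hv (h'.mpr hn))
        exact ⟨z, e, hyz.symm, Bd_mem z _ e he⟩
      · obtain ⟨v, hv⟩ := hx
        obtain ⟨e, he⟩ := exists_bd (d + 1) v (fun v => TW.sub (d+1) x v ∈ C (J y))
          (TW.top (d+1) ∈ C (J y)) (fun h' => hn (h'.mp hv))
        exact ⟨x, e, hxy, Bd_mem x _ e he⟩
    have hsub : insert (TW.sub (d+1) q e)
        (((tree (d + 1)).bd (part y (C (J y)))).image (fun e' : TW (d + 1) => TW.sub (d+1) y e'))
        ⊆ (tree (d + 2)).bd (C (J y)) := by
      intro f hf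
      rw [Finset.mem_insert, Finset.mem_image] at hf
      rcases hf with rfl | ⟨e', he', rfl⟩
      · exact hqe
      · exact part_bd y _ e' he'
    have hcard := Finset.card_le_card hsub
    rw [Finset.card_insert_of_notMem, Finset.card_image_of_injective] at hcard
    · have := hJ y
      unfold nb at this ⊢
      omega
    · intro e1 e2 h12
      simpa using h12
    · rw [Finset.mem_image]
      rintro ⟨e', _, h'⟩
      have h2 := TW.sub.inj h'
      exact hq h2.1.symm

/-- from `Good` to a chain -/
lemma good_chain (N : Net) (k : ℕ) (A : Finset N.W) (h : Good N k A) :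
    ∃ (n : ℕ) (C : ℕ → Finset N.W), C 0 = A ∧ C n = univ ∧ (∀ j, C j ⊆ C (j + 1)) ∧
      (∀ j, (C (j + 1) \ C j).card ≤ 1) ∧ ∀ j, j ≤ n → (N.bd (C j)).card < k := by
  induction h with
  | top h => exact ⟨0, fun _ => univ, rfl, rfl, fun _ => Finset.Subset.refl _, fun _ => by simp,
      fun _ _ => h⟩
  | step A w hw hk _ ih =>
    obtain ⟨n, C, h0, h1, h2, h3, h4⟩ := ih
    refine ⟨n + 1, fun j => match j with | 0 => A | j + 1 => C j, rfl, h1, ?_, ?_, ?_⟩
    · intro j
      rcases j with _ | j
      · simp only [h0]
        exact Finset.subset_insert _ _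
      · exact h2 j
    · intro j
      rcases j with _ | j
      · simp only [h0]
        rw [Finset.insert_sdiff_of_notMem _ hw, Finset.sdiff_self]
        simp
      · exact h3 j
    · intro j hj
      rcases j with _ | j
      · exact hk
      · exact h4 j (by omega)

/-- the complete ternary tree of depth `d` has cutwidth at least `d` -/
theorem tree_not_good (d : ℕ) : ¬ Good (tree d) d ∅ := by
  intro h
  obtain ⟨n, C, h0, h1, h2, h3, h4⟩ := good_chain (tree d) d ∅ h
  obtain ⟨j, hj, hd⟩ := cut_tree d n C ⟨h0, h1, h2, h3⟩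
  have := h4 j hj
  unfold nb at hd
  omega

end H522R2.Eqv
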