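import Mathlib
import Pool.Agent.H522R2.Bilinear

namespace Pool.Agent.H522R2.PermSym

open Equiv
open Pool.Agent.H522R2
open Pool.Agent.H522R2.Bilinear (brent)
open Pool.Agent.H522R2.SmallIndex

/-- The algorithm is invariant under simultaneous conjugation of `A`, `B` and `A * B` by all
permutation matrices: for each permutation `π` of the indices there is a permutation `σ` of the
multiplications such that the rank-one tensor `u ⊗ v ⊗ w` of multiplication `σ p` is the
`π`-translate of that of `p`. -/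
def PermInvariant {F : Type*} [Field F] {m r : ℕ} (u v w : Fin r → Matrix (Fin m) (Fin m) F) :
    Prop :=
  ∀ π : Perm (Fin m), ∃ σ : Perm (Fin r), ∀ p, ∀ i k k' j i' j' : Fin m,
    u (σ p) (π i) (π k) * v (σ p) (π k') (π j) * w (σ p) (π i') (π j') =
      u p i k * v p k' j * w p i' j'

section

variable {F : Type*} [Field F] {m r : ℕ} {u v w : Fin r → Matrix (Fin m) (Fin m) F}

/-- the stabiliser of the rank-one tensor `p` -/
def stab (u v w : Fin r → Matrix (Fin m) (Fin m) F) (p : Fin r) : Subgroup (Perm (Fin m)) where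
  carrier := {π | ∀ i k k' j i' j' : Fin m,
    u p (π i) (π k) * v p (π k') (π j) * w p (π i') (π j') = u p i k * v p k' j * w p i' j'}
  mul_mem' := by
    intro a b ha hb i k k' j i' j'
    simp only [Set.mem_ofPred_eq, Perm.mul_apply] at *
    rw [ha, hb]
  one_mem' := by intro i k k' j i' j'; simp
  inv_mem' := by
    intro a ha i k k' j i' j'
    simp only [Set.mem_ofPred_eq] at *
    have := ha (a⁻¹ i) (a⁻¹ k) (a⁻¹ k') (a⁻¹ j) (a⁻¹ i') (a⁻¹ j')
    simp only [papply_inv] at this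
    exact this.symm

theorem mem_stab (p : Fin r) (π : Perm (Fin m)) : π ∈ stab u v w p ↔ ∀ i k k' j i' j' : Fin m,
    u p (π i) (π k) * v p (π k') (π j) * w p (π i') (π j') = u p i k * v p k' j * w p i' j' :=
  Iff.rfl

theorem index_stab_le (h : PermInvariant u v w) (p : Fin r) : (stab u v w p).index ≤ r := by
  choose σ hσ using h
  have hinj : Function.Injective (fun q : Perm (Fin m) ⧸ stab u v w p => σ q.out p) := by
    intro q q' hqq
    simp only at hqq
    rw [← q.out_eq, ← q'.out_eq]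
    apply QuotientGroup.eq.2
    rw [mem_stab]
    intro i k k' j i' j'
    set π := q.out
    set π' := q'.out
    have h1 := hσ π' p i k k' j i' j'
    have h2 := hσ π p ((π⁻¹ * π') i) ((π⁻¹ * π') k) ((π⁻¹ * π') k') ((π⁻¹ * π') j)
      ((π⁻¹ * π') i') ((π⁻¹ * π') j')
    simp only [Perm.mul_apply, papply_inv] at h2
    rw [hqq] at h2
    simp only [Perm.mul_apply]
    rw [← h2, h1]
  have := Nat.card_le_card_of_injective _ hinj
  rw [Nat.card_eq_fintype_card (α := Fin r), Fintype.card_fin] at this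
  exact this

/-- A function on pairs is semi-invariant under the elements of `H`. -/
def Semi (H : Subgroup (Perm (Fin m))) (f : Matrix (Fin m) (Fin m) F) : Prop :=
  ∀ π ∈ H, ∃ c : F, c ≠ 0 ∧ ∀ a b, f (π a) (π b) = c * f a b

theorem Semi.comm {H : Subgroup (Perm (Fin m))} {f : Matrix (Fin m) (Fin m) F} (h : Semi H f)
    {g k : Perm (Fin m)} (hg : g ∈ H) (hk : k ∈ H) (a b : Fin m) :
    f ((g * k * g⁻¹ * k⁻¹) a) ((g * k * g⁻¹ * k⁻¹) b) = f a b := by
  obtain ⟨c, hc, hgc⟩ := h g hg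
  obtain ⟨d, hd, hkd⟩ := h k hk
  have hg' : ∀ a b, f (g⁻¹ a) (g⁻¹ b) = c⁻¹ * f a b := by
    intro a b
    have := hgc (g⁻¹ a) (g⁻¹ b)
    rw [papply_inv, papply_inv] at this
    rw [this]; field_simp
  have hk' : ∀ a b, f (k⁻¹ a) (k⁻¹ b) = d⁻¹ * f a b := by
    intro a b
    have := hkd (k⁻¹ a) (k⁻¹ b)
    rw [papply_inv, papply_inv] at this
    rw [this]; field_simp
  simp only [Perm.mul_apply]
  rw [hgc, hkd, hg', hk']
  field_simp

theorem inv_of_semi {H : Subgroup (Perm (Fin m))} {f : Matrix (Fin m) (Fin m) F} (h : Semi H f)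
    {C : Finset (Fin m)} (hC : 5 ≤ C.card)
    (hH : ∀ x ∈ C, ∀ y ∈ C, ∀ z ∈ C, x ≠ y → x ≠ z → y ≠ z → cyc x y z ∈ H)
    {x y z : Fin m} (hx : x ∈ C) (hy : y ∈ C) (hz : z ∈ C) (hxy : x ≠ y) (hxz : x ≠ z)
    (hyz : y ≠ z) (a b : Fin m) : f (cyc x y z a) (cyc x y z b) = f a b := by
  classical
  -- two further points of `C`
  obtain ⟨s, hs, hs'⟩ : ∃ s ∈ C, s ∉ ({x, y, z} : Finset (Fin m)) := by
    by_contra hcon
    push Not at hcon
    have : C ⊆ {x, y, z} := hcon
    have := Finset.card_le_card this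
    have h3 : ({x, y, z} : Finset (Fin m)).card ≤ 3 := Finset.card_le_three
    omega
  obtain ⟨t, ht, ht'⟩ : ∃ t ∈ C, t ∉ ({x, y, z, s} : Finset (Fin m)) := by
    by_contra hcon
    push Not at hcon
    have : C ⊆ {x, y, z, s} := hcon
    have := Finset.card_le_card this
    have h3 : ({x, y, z, s} : Finset (Fin m)).card ≤ 4 := Finset.card_le_four
    omega
  simp only [Finset.mem_insert, Finset.mem_singleton, not_or] at hs' ht'
  obtain ⟨hs1, hs2, hs3⟩ := hs'
  obtain ⟨ht1, ht2, ht3, ht4⟩ := ht'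
  have hg : cyc y z t ∈ H := hH y hy z hz t ht hyz (Ne.symm ht2) (Ne.symm ht3)
  have hk : cyc y x s ∈ H := hH y hy x hx s hs hxy.symm (Ne.symm hs2) (Ne.symm hs1)
  have e1 : cyc y z t y = z := cyc_apply_fst hyz (Ne.symm ht2)
  have e2 : cyc y x s y = x := cyc_apply_fst hxy.symm (Ne.symm hs2)
  have hcomm := comm_eq_cyc (cyc y z t) (cyc y x s) y (by
    intro q h1 h2
    by_contra hq
    have h3 : q = z ∨ q = t := by
      by_contra h4; push Not at h4
      exact h1 (cyc_apply_of_ne hq h4.1 h4.2)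
    have h5 : q = x ∨ q = s := by
      by_contra h4; push Not at h4
      exact h2 (cyc_apply_of_ne hq h4.1 h4.2)
    rcases h3 with rfl | rfl <;> rcases h5 with h5 | h5
    · exact hxz h5.symm
    · exact hs3 h5.symm
    · exact ht1 h5
    · exact ht4 h5) (by rw [e1]; exact hyz.symm) (by rw [e2]; exact hxy)
  rw [e1, e2] at hcomm
  rw [← hcomm]
  exact h.comm hg hk a b

theorem semi_of_stab (p : Fin r) {i k k' j i' j' : Fin m}
    (hne : u p i k * v p k' j * w p i' j' ≠ 0) :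
    Semi (stab u v w p) (v p) ∧ Semi (stab u v w p) (w p) := by
  have hu0 : u p i k ≠ 0 := fun h => hne (by rw [h]; ring)
  have hv0 : v p k' j ≠ 0 := fun h => hne (by rw [h]; ring)
  have hw0 : w p i' j' ≠ 0 := fun h => hne (by rw [h]; ring)
  refine ⟨?_, ?_⟩
  · intro π hπ
    rw [mem_stab] at hπ
    have h0 := hπ i k k' j i' j'
    have h1 : u p (π i) (π k) ≠ 0 := fun h => hne (by rw [← h0, h]; ring)
    have h2 : w p (π i') (π j') ≠ 0 := fun h => hne (by rw [← h0, h]; ring)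
    refine ⟨u p i k * w p i' j' / (u p (π i) (π k) * w p (π i') (π j')),
      div_ne_zero (mul_ne_zero hu0 hw0) (mul_ne_zero h1 h2), ?_⟩
    intro a b
    have h3 := hπ i k a b i' j'
    field_simp
    linear_combination h3
  · intro π hπ
    rw [mem_stab] at hπ
    have h0 := hπ i k k' j i' j'
    have h1 : u p (π i) (π k) ≠ 0 := fun h => hne (by rw [← h0, h]; ring)
    have h2 : v p (π k') (π j) ≠ 0 := fun h => hne (by rw [← h0, h]; ring)
    refine ⟨u p i k * v p k' j / (u p (π i) (π k) * v p (π k') (π j)),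
      div_ne_zero (mul_ne_zero hu0 hv0) (mul_ne_zero h1 h2), ?_⟩
    intro a b
    have h3 := hπ i k k' j a b
    field_simp
    linear_combination h3

/-- the alternating functional vanishes on a rank-one tensor with large stabiliser -/
theorem functional_zero (p : Fin r) (hm : 25 ≤ m)
    (hidx : (stab u v w p).index < (m - 1).choose 3) {i i₀ j j₀ k k₀ : Fin m}
    (hd : [i, i₀, j, j₀, k, k₀].Nodup) :
    u p i k * (v p k j - v p k₀ j) * (w p i j - w p i₀ j - w p i j₀ + w p i₀ j₀) = 0 := by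
  classical
  by_contra hcon
  have hu : u p i k ≠ 0 := fun h => hcon (by rw [h]; ring)
  have hv : v p k j - v p k₀ j ≠ 0 := fun h => hcon (by rw [h]; ring)
  have hw : w p i j - w p i₀ j - w p i j₀ + w p i₀ j₀ ≠ 0 := fun h => hcon (by rw [h]; ring)
  obtain ⟨y1, y2, hy⟩ : ∃ y1 y2, v p y1 y2 ≠ 0 := by
    by_contra h; push Not at h; exact hv (by rw [h, h]; ring)
  obtain ⟨z1, z2, hz⟩ : ∃ z1 z2, w p z1 z2 ≠ 0 := by
    by_contra h; push Not at h; exact hw (by rw [h, h, h, h]; ring)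
  obtain ⟨sv, sw⟩ := semi_of_stab (u := u) (v := v) (w := w) p (i := i) (k := k) (k' := y1)
    (j := y2) (i' := z1) (j' := z2) (mul_ne_zero (mul_ne_zero hu hy) hz)
  obtain ⟨C, hC, hH⟩ := small_index (stab u v w p) (by simpa using hm) (by simpa using hidx)
  rw [Fintype.card_fin] at hC
  have hC5 : 5 ≤ C.card := by omega
  have pick : ∀ a b c : Fin m, ∃ e ∈ C, e ≠ a ∧ e ≠ b ∧ e ≠ c := by
    intro a b c
    by_contra h
    push Not at h
    have : C ⊆ {a, b, c} := by
      intro e he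
      by_cases h1 : e = a
      · simp [h1]
      by_cases h2 : e = b
      · simp [h2]
      simp [h e he h1 h2]
    have := Finset.card_le_card this
    have h3 : ({a, b, c} : Finset (Fin m)).card ≤ 3 := Finset.card_le_three
    omega
  -- moving one index by a 3-cycle
  have move1 : ∀ (f : Matrix (Fin m) (Fin m) F), Semi (stab u v w p) f →
      ∀ a a' b, a ∈ C → a' ∈ C → a ≠ a' → b ≠ a → b ≠ a' → f a b = f a' b := by
    intro f hf a a' b ha ha' haa hba hba'
    obtain ⟨e, he, he1, he2, he3⟩ := pick a a' b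
    have := inv_of_semi hf hC5 hH ha ha' he haa (Ne.symm he1) (Ne.symm he2) a b
    rw [cyc_apply_fst haa (Ne.symm he1), cyc_apply_of_ne hba hba' (Ne.symm he3)] at this
    exact this.symm
  have move2 : ∀ (f : Matrix (Fin m) (Fin m) F), Semi (stab u v w p) f →
      ∀ a a' b, a ∈ C → a' ∈ C → a ≠ a' → b ≠ a → b ≠ a' → f b a = f b a' := by
    intro f hf a a' b ha ha' haa hba hba'
    obtain ⟨e, he, he1, he2, he3⟩ := pick a a' b
    have := inv_of_semi hf hC5 hH ha ha' he haa (Ne.symm he1) (Ne.symm he2) b a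
    rw [cyc_apply_fst haa (Ne.symm he1), cyc_apply_of_ne hba hba' (Ne.symm he3)] at this
    exact this.symm
  simp only [List.nodup_cons, List.mem_cons, List.not_mem_nil, or_false, not_or,
    not_false_eq_true, List.nodup_nil, and_true] at hd
  obtain ⟨⟨d1, d2, d3, d4, d5⟩, ⟨d6, d7, d8, d9⟩, ⟨d10, d11, d12⟩, ⟨d13, d14⟩, d15⟩ := hd
  by_cases hk : k ∈ C ∧ k₀ ∈ C
  · exact hv (by rw [move1 _ sv k k₀ j hk.1 hk.2 d15 d11 d12]; ring)
  by_cases hj : j ∈ C ∧ j₀ ∈ C
  · exact hw (by rw [move2 _ sw j j₀ i hj.1 hj.2 d10 d2 d3, move2 _ sw j j₀ i₀ hj.1 hj.2 d10 d6 d7]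
                 ring)
  by_cases hi : i ∈ C ∧ i₀ ∈ C
  · exact hw (by rw [move1 _ sw i i₀ j hi.1 hi.2 d1 (Ne.symm d2) (Ne.symm d6),
      move1 _ sw i i₀ j₀ hi.1 hi.2 d1 (Ne.symm d3) (Ne.symm d7)]
                 ring)
  -- otherwise the complement of `C` has three elements
  have h3 : ∃ a b c : Fin m, a ∉ C ∧ b ∉ C ∧ c ∉ C ∧ a ≠ b ∧ a ≠ c ∧ b ≠ c := by
    have e1 : ∃ c, c ∉ C ∧ (c = k ∨ c = k₀) := by
      by_cases h : k ∈ C
      · exact ⟨k₀, fun h' => hk ⟨h, h'⟩, Or.inr rfl⟩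
      · exact ⟨k, h, Or.inl rfl⟩
    have e2 : ∃ c, c ∉ C ∧ (c = j ∨ c = j₀) := by
      by_cases h : j ∈ C
      · exact ⟨j₀, fun h' => hj ⟨h, h'⟩, Or.inr rfl⟩
      · exact ⟨j, h, Or.inl rfl⟩
    have e3 : ∃ c, c ∉ C ∧ (c = i ∨ c = i₀) := by
      by_cases h : i ∈ C
      · exact ⟨i₀, fun h' => hi ⟨h, h'⟩, Or.inr rfl⟩
      · exact ⟨i, h, Or.inl rfl⟩
    obtain ⟨a, ha, ha'⟩ := e1
    obtain ⟨b, hb, hb'⟩ := e2
    obtain ⟨c, hc, hc'⟩ := e3
    refine ⟨a, b, c, ha, hb, hc, ?_, ?_, ?_⟩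
    · rcases ha' with rfl | rfl <;> rcases hb' with rfl | rfl <;>
        first | exact Ne.symm d11 | exact Ne.symm d13 | exact Ne.symm d12 | exact Ne.symm d14
    · rcases ha' with rfl | rfl <;> rcases hc' with rfl | rfl <;>
        first | exact Ne.symm d4 | exact Ne.symm d8 | exact Ne.symm d5 | exact Ne.symm d9
    · rcases hb' with rfl | rfl <;> rcases hc' with rfl | rfl <;>
        first | exact Ne.symm d2 | exact Ne.symm d6 | exact Ne.symm d3 | exact Ne.symm d7
  obtain ⟨a, b, c, ha, hb, hc, hab, hac, hbc⟩ := h3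
  have h4 : ({a, b, c} : Finset (Fin m)).card = 3 := by
    rw [Finset.card_eq_three]; exact ⟨a, b, c, hab, hac, hbc, rfl⟩
  have h5 : Disjoint C ({a, b, c} : Finset (Fin m)) := by
    rw [Finset.disjoint_left]
    intro q hq hq'
    simp only [Finset.mem_insert, Finset.mem_singleton] at hq'
    rcases hq' with rfl | rfl | rfl <;> contradiction
  have h6 := Finset.card_union_of_disjoint h5
  have h7 := Finset.card_le_univ (C ∪ {a, b, c})
  rw [Fintype.card_fin] at h7
  omega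

theorem lower (hA : IsBilinearAlg u v w) (hS : PermInvariant u v w) (hm : 25 ≤ m) :
    (m - 1).choose 3 ≤ r := by
  by_contra hcon
  push Not at hcon
  let q : Fin 6 → Fin m := fun t => ⟨t, by omega⟩
  have hz : ∀ p, u p (q 0) (q 4) * (v p (q 4) (q 2) - v p (q 5) (q 2)) *
      (w p (q 0) (q 2) - w p (q 1) (q 2) - w p (q 0) (q 3) + w p (q 1) (q 3)) = 0 := by
    intro p
    apply functional_zero p hm ((index_stab_le hS p).trans_lt hcon)
    simp [q]
  have hsum : ∑ p, u p (q 0) (q 4) * (v p (q 4) (q 2) - v p (q 5) (q 2)) *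
      (w p (q 0) (q 2) - w p (q 1) (q 2) - w p (q 0) (q 3) + w p (q 1) (q 3)) = 0 :=
    Finset.sum_eq_zero (fun p _ => hz p)
  have hexp : ∑ p, u p (q 0) (q 4) * (v p (q 4) (q 2) - v p (q 5) (q 2)) *
      (w p (q 0) (q 2) - w p (q 1) (q 2) - w p (q 0) (q 3) + w p (q 1) (q 3)) =
      ((∑ p, u p (q 0) (q 4) * v p (q 4) (q 2) * w p (q 0) (q 2)) -
       (∑ p, u p (q 0) (q 4) * v p (q 4) (q 2) * w p (q 1) (q 2)) -
       (∑ p, u p (q 0) (q 4) * v p (q 4) (q 2) * w p (q 0) (q 3)) +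
       (∑ p, u p (q 0) (q 4) * v p (q 4) (q 2) * w p (q 1) (q 3))) -
      ((∑ p, u p (q 0) (q 4) * v p (q 5) (q 2) * w p (q 0) (q 2)) -
       (∑ p, u p (q 0) (q 4) * v p (q 5) (q 2) * w p (q 1) (q 2)) -
       (∑ p, u p (q 0) (q 4) * v p (q 5) (q 2) * w p (q 0) (q 3)) +
       (∑ p, u p (q 0) (q 4) * v p (q 5) (q 2) * w p (q 1) (q 3))) := by
    simp only [← Finset.sum_sub_distrib, ← Finset.sum_add_distrib]
    apply Finset.sum_congr rfl
    intro p _; ring
  rw [hexp] at hsum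
  simp only [brent hA] at hsum
  simp [q] at hsum

end

end Pool.Agent.H522R2.PermSym
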